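import Mathlib
import Pool.Agent.Y14.Word

/-!
# The second variation of a plaquette under a covariant shift
-/

open MeasureTheory Matrix
open scoped Matrix.Norms.Frobenius ContDiff
open Pool.Agent.H906R3.YM hiding Pl
open Pool.Agent.W793.YM Pool.Agent.TH618.YM Pool.Agent.Y14

namespace Pool.Agent.Q2.TH

set_option linter.unusedSectionVars false
set_option linter.unusedVariables false

noncomputable section

variable {G : Type*} [Group G] [TopologicalSpace G] [IsTopologicalGroup G] [CompactSpace G]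
  [SecondCountableTopology G] [MeasurableSpace G] [BorelSpace G] {N n : ℕ} {L : LD G N n}

/-- a one-parameter subgroup of speed at most `x` -/
structure OneP (L : LD G N n) (E : ℝ → G) (x : ℝ) : Prop where
  add : ∀ s t, E (s + t) = E s * E t
  dv_le : ∀ t, dv L (E t) ≤ x * |t|

variable {E : ℝ → G} {x : ℝ}

lemma OneP.zero (h : OneP L E x) : E 0 = 1 := by
  have := h.add 0 0
  rw [add_zero] at this
  exact (mul_eq_left.mp this.symm)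

lemma OneP.neg (h : OneP L E x) (t : ℝ) : E (-t) = (E t)⁻¹ := by
  have := h.add (-t) t
  rw [neg_add_cancel, h.zero] at this
  exact (eq_inv_of_mul_eq_one_left this.symm)

lemma OneP.comm (h : OneP L E x) (s t : ℝ) : E s * E t = E t * E s := by
  rw [← h.add, ← h.add, add_comm]

lemma OneP.nonneg (h : OneP L E x) : 0 ≤ x := by
  have := (dv_nonneg (L := L) (E 1)).trans (h.dv_le 1)
  rwa [abs_one, mul_one] at this

/-- commutators -/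
lemma dd_commutator {p q q' : G} (h : p * q' = q' * p) :
    dd L (p * q) (q * p) ≤ 2 * (dv L p * dd L q q') := by
  have e : L.rho (p * q) - L.rho (q * p) =
      (L.rho p - 1) * (L.rho q - L.rho q') - (L.rho q - L.rho q') * (L.rho p - 1) := by
    have e1 : L.rho p * L.rho q' = L.rho q' * L.rho p := by rw [← map_mul, ← map_mul, h]
    rw [map_mul, map_mul]
    have e2 : (L.rho p - 1) * (L.rho q - L.rho q') - (L.rho q - L.rho q') * (L.rho p - 1) =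
        L.rho p * L.rho q - L.rho q * L.rho p - (L.rho p * L.rho q' - L.rho q' * L.rho p) := by
      noncomm_ring
    rw [e2, e1, sub_self, sub_zero]
  unfold dd dv
  rw [e]
  refine (norm_sub_le _ _).trans ?_
  have h1 := norm_mul_le (L.rho p - 1) (L.rho q - L.rho q')
  have h2 := norm_mul_le (L.rho q - L.rho q') (L.rho p - 1)
  have h3 := mul_comm ‖L.rho p - 1‖ ‖L.rho q - L.rho q'‖
  linarith

lemma dd_conj_self (h : OneP L E x) (g : G) (b : ℝ) :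
    dd L (g * E b * g⁻¹) (E b) ≤ 2 * (x * |b| * dv L g) := by
  have e : dd L (g * E b * g⁻¹) (E b) = dd L (E b * g) (g * E b) := by
    rw [dd_comm, ← dd_rmul g⁻¹ (E b * g) (g * E b), mul_inv_cancel_right]
  rw [e]
  refine (dd_commutator (q' := 1) (by rw [mul_one, one_mul])).trans ?_
  have e2 : dd L g 1 = dv L g := by unfold dd dv; rw [map_one]
  rw [e2]
  have := mul_le_mul_of_nonneg_right (h.dv_le b) (dv_nonneg (L := L) g)
  linarith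

lemma dd_comm_conj (h : OneP L E x) (g : G) (a b : ℝ) :
    dd L (E a * (g * E b * g⁻¹)) ((g * E b * g⁻¹) * E a) ≤
      4 * (x ^ 2 * (|a| * |b|) * dv L g) := by
  refine (dd_commutator (q' := E b) (h.comm a b)).trans ?_
  have h1 := h.dv_le a
  have h2 := dd_conj_self h g b
  have h3 := mul_le_mul h1 h2 (dd_nonneg _ _) (mul_nonneg h.nonneg (abs_nonneg a))
  have e : x * |a| * (2 * (x * |b| * dv L g)) = 2 * (x ^ 2 * (|a| * |b|) * dv L g) := by ring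
  rw [e] at h3
  linarith

/-- the group element inserted in the plaquette -/
def WW (E : ℝ → G) (g2 g3 : G) (c1 c2 c3 : ℝ) : G :=
  E c1 * (g2 * E c2 * g2⁻¹) * (g3 * E c3 * g3⁻¹)

lemma dv_WW (h : OneP L E x) (g2 g3 : G) (c1 c2 c3 : ℝ) :
    dv L (WW E g2 g3 c1 c2 c3) ≤
      x * (|c1 + c2 + c3| + 2 * (|c2| * dv L g2 + |c3| * dv L g3)) := by
  have h1 : dv L (WW E g2 g3 c1 c2 c3) ≤ dd L (WW E g2 g3 c1 c2 c3) (E (c1 + c2 + c3)) +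
      dv L (E (c1 + c2 + c3)) := by
    have := dd_tri (L := L) (WW E g2 g3 c1 c2 c3) (E (c1 + c2 + c3)) 1
    have e : ∀ g : G, dd L g 1 = dv L g := fun g => by unfold dd dv; rw [map_one]
    rwa [e, e] at this
  have h2 : dd L (WW E g2 g3 c1 c2 c3) (E (c1 + c2 + c3)) ≤
      dd L (g2 * E c2 * g2⁻¹) (E c2) + dd L (g3 * E c3 * g3⁻¹) (E c3) := by
    rw [h.add, h.add]
    unfold WW
    refine (dd_tri _ (E c1 * E c2 * (g3 * E c3 * g3⁻¹)) _).trans ?_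
    rw [dd_rmul, dd_lmul, mul_assoc (E c1), mul_assoc (E c1), dd_lmul, dd_lmul]
  have h3 := dd_conj_self h g2 c2
  have h4 := dd_conj_self h g3 c3
  have h5 := h.dv_le (c1 + c2 + c3)
  have e : x * (|c1 + c2 + c3| + 2 * (|c2| * dv L g2 + |c3| * dv L g3)) =
      x * |c1 + c2 + c3| + 2 * (x * |c2| * dv L g2) + 2 * (x * |c3| * dv L g3) := by ring
  rw [e]
  linarith

lemma dd_WW_inv (h : OneP L E x) (g2 g3 : G) (c1 c2 c3 : ℝ) :
    dd L (WW E g2 g3 (-c1) (-c2) (-c3)) (WW E g2 g3 c1 c2 c3)⁻¹ ≤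
      4 * (x ^ 2 * (|c1| * (|c2| * dv L g2 + |c3| * dv L g3) +
        |c2| * |c3| * (dv L g2 + dv L g3))) := by
  obtain ⟨f2, hf2⟩ : ∃ f2, f2 = g2 * E (-c2) * g2⁻¹ := ⟨_, rfl⟩
  obtain ⟨f3, hf3⟩ : ∃ f3, f3 = g3 * E (-c3) * g3⁻¹ := ⟨_, rfl⟩
  have e1 : (WW E g2 g3 c1 c2 c3)⁻¹ = f3 * f2 * E (-c1) := by
    unfold WW
    rw [hf2, hf3, h.neg, h.neg, h.neg]
    group
  have e2 : WW E g2 g3 (-c1) (-c2) (-c3) = E (-c1) * f2 * f3 := by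
    unfold WW
    rw [hf2, hf3]
  rw [e1, e2]
  have t1 : dd L (E (-c1) * f2 * f3) (f2 * E (-c1) * f3) ≤
      4 * (x ^ 2 * (|c1| * |c2|) * dv L g2) := by
    rw [dd_rmul, hf2]
    have := dd_comm_conj h g2 (-c1) (-c2)
    rwa [abs_neg, abs_neg] at this
  have t2 : dd L (f2 * E (-c1) * f3) (f2 * f3 * E (-c1)) ≤
      4 * (x ^ 2 * (|c1| * |c3|) * dv L g3) := by
    rw [mul_assoc, mul_assoc, dd_lmul, hf3]
    have := dd_comm_conj h g3 (-c1) (-c3)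
    rwa [abs_neg, abs_neg] at this
  have t3 : dd L (f2 * f3 * E (-c1)) (f3 * f2 * E (-c1)) ≤
      4 * (x ^ 2 * (|c2| * |c3|) * (dv L g2 + dv L g3)) := by
    rw [dd_rmul]
    have e3 : dd L (f2 * f3) (f3 * f2) = dd L (E (-c2) * ((g2⁻¹ * g3) * E (-c3) * (g2⁻¹ * g3)⁻¹))
        (((g2⁻¹ * g3) * E (-c3) * (g2⁻¹ * g3)⁻¹) * E (-c2)) := by
      rw [← dd_lmul g2⁻¹ (f2 * f3), ← dd_rmul g2 (g2⁻¹ * (f2 * f3))]
      rw [hf2, hf3]
      congr 1 <;> group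
    rw [e3]
    have h1 := dd_comm_conj h (g2⁻¹ * g3) (-c2) (-c3)
    rw [abs_neg, abs_neg] at h1
    have h2 := dv_mul (L := L) g2⁻¹ g3
    rw [dv_inv] at h2
    have h3 : 0 ≤ x ^ 2 * (|c2| * |c3|) := by positivity
    have h4 := mul_le_mul_of_nonneg_left h2 h3
    linarith
  have t4 := dd_tri (L := L) (E (-c1) * f2 * f3) (f2 * E (-c1) * f3) (f3 * f2 * E (-c1))
  have t5 := dd_tri (L := L) (f2 * E (-c1) * f3) (f2 * f3 * E (-c1)) (f3 * f2 * E (-c1))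
  have e : 4 * (x ^ 2 * (|c1| * (|c2| * dv L g2 + |c3| * dv L g3) +
        |c2| * |c3| * (dv L g2 + dv L g3))) = 4 * (x ^ 2 * (|c1| * |c2|) * dv L g2) +
      4 * (x ^ 2 * (|c1| * |c3|) * dv L g3) + 4 * (x ^ 2 * (|c2| * |c3|) * (dv L g2 + dv L g3)) := by
    ring
  rw [e]
  linarith

/-- the norm of a deviation is bounded -/
lemma dv_le_two (hN : 1 ≤ N) (g : G) : dv L g ≤ 2 * N := by
  have hN1 : (1 : ℝ) ≤ N := by exact_mod_cast hN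
  have h1 : ‖L.rho g - 1‖ ≤ ‖L.rho g‖ + ‖(1 : Mat N)‖ := norm_sub_le _ _
  have h2 : ‖L.rho g‖ = ‖(1 : Mat N)‖ := by
    have := norm_lmul (L := L) g 1
    rwa [mul_one] at this
  have h3 : ‖(1 : Mat N)‖ ^ 2 = N := by
    rw [norm_sq_ip, ip_apply, conjTranspose_one, mul_one, trace_one, Fintype.card_fin]
    simp
  have h4 : ‖(1 : Mat N)‖ ≤ N := by
    have h0 := norm_nonneg (1 : Mat N)
    nlinarith
  unfold dv
  linarith

lemma q1 {a2 a3 y2 y3 : ℝ} :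
    (a2 * y2 + a3 * y3) ^ 2 ≤ (a2 ^ 2 + a3 ^ 2) * (y2 ^ 2 + y3 ^ 2) := by
  nlinarith [sq_nonneg (a2 * y3 - a3 * y2)]

lemma q2 {φ η r : ℝ} (h : η ^ 2 ≤ r) : (φ + 2 * η) ^ 2 ≤ 2 * φ ^ 2 + 8 * r := by
  nlinarith [sq_nonneg (φ - 2 * η)]

lemma q3 {φ η r : ℝ} (h : η ^ 2 ≤ r) : φ * η ≤ (φ ^ 2 + r) / 2 := by
  nlinarith [sq_nonneg (φ - η)]

lemma q4 {a2 a3 : ℝ} : (a2 + a3) ^ 2 ≤ 2 * (a2 ^ 2 + a3 ^ 2) := by
  nlinarith [sq_nonneg (a2 - a3)]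

lemma q5 {p q : ℝ} : 2 * (p * q) ≤ (p + q) ^ 2 := by
  nlinarith [sq_nonneg p, sq_nonneg q]

lemma q6 {a2 a3 : ℝ} : a2 * a3 ≤ (a2 ^ 2 + a3 ^ 2) / 2 := by
  nlinarith [sq_nonneg (a2 - a3)]

lemma q7 {y2 y3 v : ℝ} : (y2 + y3) * v ≤ y2 ^ 2 + y3 ^ 2 + v ^ 2 := by
  nlinarith [sq_nonneg (y2 - v), sq_nonneg (y3 - v), sq_nonneg y2, sq_nonneg y3]

/-- a polynomial inequality -/
lemma poly_ineq {φ a1 a2 a3 y2 y3 v N : ℝ} (φ0 : 0 ≤ φ) (a20 : 0 ≤ a2) (a30 : 0 ≤ a3)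
    (y20 : 0 ≤ y2) (y30 : 0 ≤ y3) (v0 : 0 ≤ v) (hvN : v ≤ 2 * N) (hN1 : 1 ≤ N)
    (ha1' : a1 ≤ φ + a2 + a3) :
    (φ + 2 * (a2 * y2 + a3 * y3)) ^ 2 + ((φ + 2 * (a2 * y2 + a3 * y3)) ^ 2 +
      4 * (a1 * (a2 * y2 + a3 * y3) + a2 * a3 * (y2 + y3))) * v ≤
      40 * N * (φ ^ 2 + (a2 ^ 2 + a3 ^ 2) * (y2 ^ 2 + y3 ^ 2 + v ^ 2)) := by
  have hη2 : (a2 * y2 + a3 * y3) ^ 2 ≤ (a2 ^ 2 + a3 ^ 2) * (y2 ^ 2 + y3 ^ 2) := q1
  have hs := q4 (a2 := a2) (a3 := a3)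
  have hp := q6 (a2 := a2) (a3 := a3)
  have hy := q7 (y2 := y2) (y3 := y3) (v := v)
  have hs0 : 0 ≤ a2 + a3 := by positivity
  have hp0 : 0 ≤ a2 * a3 := by positivity
  have hyv0 : 0 ≤ (y2 + y3) * v := by positivity
  have η0 : 0 ≤ a2 * y2 + a3 * y3 := by positivity
  have c0 : 0 ≤ a2 ^ 2 + a3 ^ 2 := by positivity
  have Y0 : 0 ≤ y2 ^ 2 + y3 ^ 2 := by positivity
  generalize a2 * y2 + a3 * y3 = η at *
  generalize a2 ^ 2 + a3 ^ 2 = c at *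
  generalize y2 ^ 2 + y3 ^ 2 = Y at *
  have e0 : a2 * a3 * (y2 + y3) * v = (a2 * a3) * ((y2 + y3) * v) := by ring
  have e1 : (φ + 2 * η) ^ 2 + ((φ + 2 * η) ^ 2 + 4 * (a1 * η + a2 * a3 * (y2 + y3))) * v =
      (φ + 2 * η) ^ 2 + (φ + 2 * η) ^ 2 * v + 4 * (a1 * (η * v)) +
        4 * ((a2 * a3) * ((y2 + y3) * v)) := by ring
  rw [e1]
  clear e0 e1
  have hN0 : 0 ≤ N := by linarith
  have b1 : (φ + 2 * η) ^ 2 ≤ 2 * φ ^ 2 + 8 * (c * Y) := q2 hη2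
  have b6 : (φ + 2 * η) ^ 2 * v ≤ (2 * φ ^ 2 + 8 * (c * Y)) * (2 * N) :=
    mul_le_mul b1 hvN v0 (by positivity)
  have t0 : a1 * (η * v) ≤ (φ + a2 + a3) * (η * v) :=
    mul_le_mul_of_nonneg_right ha1' (mul_nonneg η0 v0)
  have t1 : φ * η ≤ (φ ^ 2 + c * Y) / 2 := q3 hη2
  have b2 : φ * η * v ≤ N * (φ ^ 2 + c * Y) := by
    calc φ * η * v ≤ (φ ^ 2 + c * Y) / 2 * v := mul_le_mul_of_nonneg_right t1 v0
      _ ≤ (φ ^ 2 + c * Y) / 2 * (2 * N) := mul_le_mul_of_nonneg_left hvN (by positivity)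
      _ = N * (φ ^ 2 + c * Y) := by ring
  have b3 : (a2 + a3) * η * v ≤ c * (Y + v ^ 2) := by
    have t1 : ((a2 + a3) * η) ^ 2 ≤ (2 * c) * (c * Y) := by
      rw [mul_pow]
      exact mul_le_mul hs hη2 (sq_nonneg _) (by positivity)
    have t2 : ((a2 + a3) * η * v) ^ 2 ≤ (c * (Y + v ^ 2)) ^ 2 := by
      have t3 : ((a2 + a3) * η * v) ^ 2 ≤ (2 * c) * (c * Y) * v ^ 2 := by
        rw [mul_pow _ v]
        exact mul_le_mul_of_nonneg_right t1 (sq_nonneg v)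
      have t4 : (2 * c) * (c * Y) * v ^ 2 ≤ (c * (Y + v ^ 2)) ^ 2 := by
        have t5 := q5 (p := Y) (q := v ^ 2)
        have t6 := mul_le_mul_of_nonneg_left t5 (sq_nonneg c)
        calc (2 * c) * (c * Y) * v ^ 2 = c ^ 2 * (2 * (Y * v ^ 2)) := by ring
          _ ≤ c ^ 2 * (Y + v ^ 2) ^ 2 := t6
          _ = _ := by ring
      exact t3.trans t4
    have t7 : 0 ≤ c * (Y + v ^ 2) := by positivity
    exact le_of_abs_le (abs_le_of_sq_le_sq t2 t7)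
  have b4 : (a2 * a3) * ((y2 + y3) * v) ≤ c * (Y + v ^ 2) := by
    calc (a2 * a3) * ((y2 + y3) * v) ≤ (c / 2) * ((y2 + y3) * v) :=
          mul_le_mul_of_nonneg_right hp hyv0
      _ ≤ (c / 2) * (Y + v ^ 2) := mul_le_mul_of_nonneg_left hy (by positivity)
      _ ≤ c * (Y + v ^ 2) := mul_le_mul_of_nonneg_right (by linarith) (by positivity)
  have t9 : (φ + a2 + a3) * (η * v) = φ * η * v + (a2 + a3) * η * v := by ring
  rw [t9] at t0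
  have cY0 : 0 ≤ c * Y := by positivity
  have cv0 : 0 ≤ c * v ^ 2 := by positivity
  have f1 : φ ^ 2 ≤ N * φ ^ 2 := le_mul_of_one_le_left (sq_nonneg _) hN1
  have f2 : c * Y ≤ N * (c * Y) := le_mul_of_one_le_left cY0 hN1
  have f3 : c * v ^ 2 ≤ N * (c * v ^ 2) := le_mul_of_one_le_left cv0 hN1
  have f4 : 0 ≤ N * φ ^ 2 := by positivity
  have f5 : 0 ≤ N * (c * Y) := by positivity
  have f6 : 0 ≤ N * (c * v ^ 2) := by positivity
  have e2 : c * (Y + v ^ 2) = c * Y + c * v ^ 2 := by ring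
  have e9 : 40 * (N : ℝ) * (φ ^ 2 + c * (Y + v ^ 2)) =
      40 * (N * φ ^ 2) + 40 * (N * (c * Y)) + 40 * (N * (c * v ^ 2)) := by ring
  have e10 : (2 * φ ^ 2 + 8 * (c * Y)) * (2 * N) = 4 * (N * φ ^ 2) + 16 * (N * (c * Y)) := by ring
  have e11 : N * (φ ^ 2 + c * Y) = N * φ ^ 2 + N * (c * Y) := by ring
  rw [e10] at b6
  rw [e11] at b2
  rw [e2] at b3 b4
  rw [e9]
  linarith

/-- the second variation -/
theorem second_var (h : OneP L E x) (hN : 1 ≤ N) (g2 g3 u : G) (c1 c2 c3 : ℝ) :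
    we L (WW E g2 g3 c1 c2 c3 * u) + we L (WW E g2 g3 (-c1) (-c2) (-c3) * u) - 2 * we L u ≤
      40 * N * (x ^ 2 * ((c1 + c2 + c3) ^ 2 +
        (c2 ^ 2 + c3 ^ 2) * (dv L g2 ^ 2 + dv L g3 ^ 2 + dv L u ^ 2))) := by
  have hN1 : (1 : ℝ) ≤ N := by exact_mod_cast hN
  obtain ⟨P, hP⟩ : ∃ P, P = WW E g2 g3 c1 c2 c3 := ⟨_, rfl⟩
  obtain ⟨Q, hQ⟩ : ∃ Q, Q = WW E g2 g3 (-c1) (-c2) (-c3) := ⟨_, rfl⟩
  rw [← hP, ← hQ]
  -- the algebra
  have e1 : we L (P * u) + we L (Q * u) - 2 * we L u =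
      we L P + we L Q + ip (2 - L.rho P - L.rho Q)ᴴ (L.rho u - 1) := by
    unfold we
    rw [ip_apply, conjTranspose_conjTranspose, map_mul, map_mul]
    have e2 : (trace ((2 - L.rho P - L.rho Q) * (L.rho u - 1))).re =
        (trace (1 - L.rho P * L.rho u)).re + (trace (1 - L.rho Q * L.rho u)).re -
        2 * (trace (1 - L.rho u)).re - (trace (1 - L.rho P)).re - (trace (1 - L.rho Q)).re := by
      have e3 : (2 - L.rho P - L.rho Q) * (L.rho u - 1) =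
          (1 - L.rho P * L.rho u) + (1 - L.rho Q * L.rho u) - (1 - L.rho u) - (1 - L.rho u)
            - (1 - L.rho P) - (1 - L.rho Q) := by
        have e6 : (2 : Mat N) = 1 + 1 := by norm_num
        rw [e6]
        simp only [sub_mul, mul_sub, add_mul, mul_add, mul_one, one_mul]
        abel
      rw [e3]
      simp only [trace_sub, trace_add, Complex.sub_re, Complex.add_re]
      ring
    rw [e2]
    ring
  rw [e1]
  have hwP : we L P = dv L P ^ 2 / 2 := by rw [dv_sq]; ring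
  have hwQ : we L Q = dv L Q ^ 2 / 2 := by rw [dv_sq]; ring
  obtain ⟨φ, hφ⟩ : ∃ φ, φ = |c1 + c2 + c3| := ⟨_, rfl⟩
  obtain ⟨a1, ha1⟩ : ∃ a, a = |c1| := ⟨_, rfl⟩
  obtain ⟨a2, ha2⟩ : ∃ a, a = |c2| := ⟨_, rfl⟩
  obtain ⟨a3, ha3⟩ : ∃ a, a = |c3| := ⟨_, rfl⟩
  obtain ⟨y2, hy2⟩ : ∃ y, y = dv L g2 := ⟨_, rfl⟩
  obtain ⟨y3, hy3⟩ : ∃ y, y = dv L g3 := ⟨_, rfl⟩
  obtain ⟨v, hv⟩ : ∃ y, y = dv L u := ⟨_, rfl⟩
  have hx0 := h.nonneg
  have φ0 : 0 ≤ φ := by rw [hφ]; positivity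
  have a10 : 0 ≤ a1 := by rw [ha1]; positivity
  have a20 : 0 ≤ a2 := by rw [ha2]; positivity
  have a30 : 0 ≤ a3 := by rw [ha3]; positivity
  have y20 : 0 ≤ y2 := by rw [hy2]; exact dv_nonneg _
  have y30 : 0 ≤ y3 := by rw [hy3]; exact dv_nonneg _
  have v0 : 0 ≤ v := by rw [hv]; exact dv_nonneg _
  have hvN : v ≤ 2 * N := by rw [hv]; exact dv_le_two hN u
  have hdP : dv L P ≤ x * (φ + 2 * (a2 * y2 + a3 * y3)) := by
    rw [hP, hφ, ha2, ha3, hy2, hy3]; exact dv_WW h g2 g3 c1 c2 c3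
  have hdQ : dv L Q ≤ x * (φ + 2 * (a2 * y2 + a3 * y3)) := by
    have := dv_WW h g2 g3 (-c1) (-c2) (-c3)
    rw [hQ, hφ, ha2, ha3, hy2, hy3]
    have e3 : |-c1 + -c2 + -c3| = |c1 + c2 + c3| := by
      rw [← abs_neg (c1 + c2 + c3)]; congr 1; ring
    rwa [e3, abs_neg, abs_neg] at this
  have hPQ : ‖L.rho Q - L.rho P⁻¹‖ ≤ 4 * (x ^ 2 * (a1 * (a2 * y2 + a3 * y3) +
      a2 * a3 * (y2 + y3))) := by
    rw [hP, hQ, ha1, ha2, ha3, hy2, hy3]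
    exact dd_WW_inv h g2 g3 c1 c2 c3
  have hnorm : ‖2 - L.rho P - L.rho Q‖ ≤ dv L P ^ 2 + ‖L.rho Q - L.rho P⁻¹‖ := by
    have e3 : 2 - L.rho P - L.rho Q = (1 - L.rho P) * (1 - L.rho P⁻¹) - (L.rho Q - L.rho P⁻¹) := by
      have e4 : L.rho P * L.rho P⁻¹ = 1 := by rw [← map_mul, mul_inv_cancel, map_one]
      have e5 : (1 - L.rho P) * (1 - L.rho P⁻¹) = 1 - L.rho P - L.rho P⁻¹ +
          L.rho P * L.rho P⁻¹ := by
        simp only [sub_mul, mul_sub, mul_one, one_mul]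
        abel
      rw [e5, e4]
      have e6 : (2 : Mat N) = 1 + 1 := by norm_num
      rw [e6]
      abel
    rw [e3]
    refine (norm_sub_le _ _).trans ?_
    have h1 := norm_mul_le (1 - L.rho P) (1 - L.rho P⁻¹)
    have h2 : ‖1 - L.rho P‖ = dv L P := by unfold dv; rw [norm_sub_rev]
    have h3 : ‖1 - L.rho P⁻¹‖ = dv L P := by rw [← dv_inv P]; unfold dv; rw [norm_sub_rev]
    rw [h2, h3] at h1
    rw [pow_two]
    linarith
  have hip : ip (2 - L.rho P - L.rho Q)ᴴ (L.rho u - 1) ≤ ‖2 - L.rho P - L.rho Q‖ * v := by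
    refine (le_abs_self _).trans ((abs_ip_le _ _).trans ?_)
    rw [norm_ct, hv]
    exact le_refl _
  obtain ⟨K, hK⟩ : ∃ K, K = φ + 2 * (a2 * y2 + a3 * y3) := ⟨_, rfl⟩
  rw [← hK] at hdP hdQ
  have K0 : 0 ≤ K := by rw [hK]; positivity
  have hP2 : dv L P ^ 2 ≤ x ^ 2 * K ^ 2 := by
    rw [← mul_pow]; exact pow_le_pow_left₀ (dv_nonneg _) hdP 2
  have hQ2 : dv L Q ^ 2 ≤ x ^ 2 * K ^ 2 := by
    rw [← mul_pow]; exact pow_le_pow_left₀ (dv_nonneg _) hdQ 2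
  obtain ⟨M, hM⟩ : ∃ M, M = a1 * (a2 * y2 + a3 * y3) + a2 * a3 * (y2 + y3) := ⟨_, rfl⟩
  rw [← hM] at hPQ
  have h5 : ‖2 - L.rho P - L.rho Q‖ * v ≤ (x ^ 2 * K ^ 2 + 4 * (x ^ 2 * M)) * v :=
    mul_le_mul_of_nonneg_right (hnorm.trans (add_le_add hP2 hPQ)) v0
  have h6 : we L P + we L Q + ip (2 - L.rho P - L.rho Q)ᴴ (L.rho u - 1) ≤
      x ^ 2 * (K ^ 2 + (K ^ 2 + 4 * M) * v) := by
    rw [hwP, hwQ]
    have e3 : x ^ 2 * (K ^ 2 + (K ^ 2 + 4 * M) * v) =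
        x ^ 2 * K ^ 2 + (x ^ 2 * K ^ 2 + 4 * (x ^ 2 * M)) * v := by ring
    rw [e3]
    linarith
  refine h6.trans ?_
  have sq1 : (c1 + c2 + c3) ^ 2 = φ ^ 2 := by rw [hφ, sq_abs]
  have sq2 : c2 ^ 2 = a2 ^ 2 := by rw [ha2, sq_abs]
  have sq3 : c3 ^ 2 = a3 ^ 2 := by rw [ha3, sq_abs]
  have ha1' : a1 ≤ φ + a2 + a3 := by
    rw [ha1, ha2, ha3, hφ]
    have e3 : c1 = (c1 + c2 + c3) - c2 - c3 := by ring
    calc |c1| = |(c1 + c2 + c3) - c2 - c3| := by rw [← e3]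
      _ ≤ |(c1 + c2 + c3) - c2| + |c3| := abs_sub _ _
      _ ≤ |c1 + c2 + c3| + |c2| + |c3| := by linarith [abs_sub (c1 + c2 + c3) c2]
  rw [sq1, sq2, sq3, ← hy2, ← hy3, ← hv]
  have e7 : 40 * (N : ℝ) * (x ^ 2 * (φ ^ 2 + (a2 ^ 2 + a3 ^ 2) * (y2 ^ 2 + y3 ^ 2 + v ^ 2))) =
      x ^ 2 * (40 * N * (φ ^ 2 + (a2 ^ 2 + a3 ^ 2) * (y2 ^ 2 + y3 ^ 2 + v ^ 2))) := by ring
  rw [e7]
  refine mul_le_mul_of_nonneg_left ?_ (sq_nonneg x)
  rw [hK, hM]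
  exact poly_ineq φ0 a20 a30 y20 y30 v0 hvN hN1 ha1'

end

end Pool.Agent.Q2.TH
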