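import Mathlib

/-!
# A vector potential which spreads a unit of flux
-/

namespace Pool.Agent.Q2.TH

noncomputable section

/-- The potential: unit flux through the plaquette at the origin is spread uniformly over the
square of side `n`. -/
def AA (n s t : ℕ) : ℝ :=
  if n ≤ s ∨ n ≤ t then 0 else
    if t < s then (-(1 / (s : ℝ)) + s / (n : ℝ) ^ 2) / 2
    else -(s * (1 / ((t : ℝ) * (t + 1)) - 1 / (n : ℝ) ^ 2)) / 2

lemma AA_zero_left (n t : ℕ) : AA n 0 t = 0 := by
  unfold AA
  split_ifs with h1 h2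
  · rfl
  · exact absurd h2 (Nat.not_lt_zero _)
  · simp

lemma AA_of_le {n s t : ℕ} (h : n ≤ s ∨ n ≤ t) : AA n s t = 0 := if_pos h

/-- the value on the outer sides -/
lemma AA_side {n s t : ℕ} (hn : 1 ≤ n) (ht : t < s) (hs : s ≤ n) :
    AA n s t = (-(1 / (s : ℝ)) + s / (n : ℝ) ^ 2) / 2 := by
  unfold AA
  by_cases h : n ≤ s
  · have e : s = n := le_antisymm hs h
    rw [if_pos (Or.inl h), e]
    have hn0 : (n : ℝ) ≠ 0 := by positivity
    field_simp
    ring
  · rw [if_neg (by omega), if_pos ht]

lemma AA_rad {n s t : ℕ} (ht : s ≤ t) (hs : t < n) :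
    AA n s t = -(s * (1 / ((t : ℝ) * (t + 1)) - 1 / (n : ℝ) ^ 2)) / 2 := by
  unfold AA
  rw [if_neg (by omega), if_neg (by omega)]

/-- the flux of the potential -/
theorem AA_flux {n : ℕ} (hn : 1 ≤ n) (s t : ℕ) :
    AA n (s + 1) t - AA n s t + AA n (t + 1) s - AA n t s =
      (if s < n ∧ t < n then 1 / (n : ℝ) ^ 2 else 0) - (if s = 0 ∧ t = 0 then 1 else 0) := by
  have hn0 : (n : ℝ) ≠ 0 := by positivity
  -- by symmetry it suffices to consider `t ≤ s`
  have key : ∀ s t : ℕ, t ≤ s → AA n (s + 1) t - AA n s t + AA n (t + 1) s - AA n t s =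
      (if s < n ∧ t < n then 1 / (n : ℝ) ^ 2 else 0) - (if s = 0 ∧ t = 0 then 1 else 0) := by
    intro s t hts
    by_cases hsn : s < n
    · have htn : t < n := by omega
      rw [if_pos ⟨hsn, htn⟩, AA_side hn (by omega) (by omega : s + 1 ≤ n)]
      rcases Nat.lt_or_ge t s with h | h
      · -- below the diagonal
        have hs0 : (s : ℝ) ≠ 0 := by
          have : 0 < s := by omega
          positivity
        have hs1 : (s : ℝ) + 1 ≠ 0 := by positivity
        rw [AA_side hn h hsn.le, AA_rad (by omega : t + 1 ≤ s) hsn, AA_rad h.le hsn,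
          if_neg (by omega)]
        push_cast
        field_simp
        ring
      · -- the diagonal
        have e : t = s := le_antisymm hts h
        subst e
        rw [AA_rad (le_refl t) hsn, AA_side hn (by omega) (by omega : t + 1 ≤ n)]
        rcases Nat.eq_zero_or_pos t with h0 | h0
        · subst h0
          simp
          ring
        · have hs0 : (t : ℝ) ≠ 0 := by positivity
          have hs1 : (t : ℝ) + 1 ≠ 0 := by positivity
          rw [if_neg (by omega)]
          push_cast
          field_simp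
          ring
    · rw [if_neg (by omega), if_neg (by omega), AA_of_le (Or.inl (by omega)),
        AA_of_le (Or.inl (by omega)), AA_of_le (Or.inr (by omega)), AA_of_le (Or.inr (by omega))]
      ring
  rcases le_total t s with h | h
  · exact key s t h
  · have h1 := key t s h
    have e1 : (if t < n ∧ s < n then 1 / (n : ℝ) ^ 2 else 0) =
        (if s < n ∧ t < n then 1 / (n : ℝ) ^ 2 else 0) := by
      simp only [and_comm]
    have e2 : (if t = 0 ∧ s = 0 then (1 : ℝ) else 0) = if s = 0 ∧ t = 0 then 1 else 0 := by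
      simp only [and_comm]
    rw [e1, e2] at h1
    rw [← h1]
    ring

/-- the size of the potential -/
lemma AA_abs_le {n s t : ℕ} : |AA n s t| * (max s t + 1 : ℕ) ≤ 1 := by
  by_cases h : n ≤ s ∨ n ≤ t
  · rw [AA_of_le h]; simp
  · push Not at h
    obtain ⟨h1, h2⟩ := h
    have hn1 : 1 ≤ n := by omega
    have hn0 : (0 : ℝ) < n := by positivity
    rcases Nat.lt_or_ge t s with hts | hts
    · rw [AA_side hn1 hts h1.le, max_eq_left hts.le]
      have hs0 : (0 : ℝ) < s := by
        have : 0 < s := by omega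
        positivity
      have hs1 : (1 : ℝ) ≤ s := by
        have : 1 ≤ s := by omega
        exact_mod_cast this
      have hsn : (s : ℝ) ≤ n := by exact_mod_cast h1.le
      have e1 : (s : ℝ) / (n : ℝ) ^ 2 ≤ 1 / s := by
        rw [div_le_div_iff₀ (by positivity) hs0]
        nlinarith
      have e2 : 0 ≤ (s : ℝ) / (n : ℝ) ^ 2 := by positivity
      have e3 : |(-(1 / (s : ℝ)) + s / (n : ℝ) ^ 2) / 2| ≤ 1 / (2 * (s : ℝ)) := by
        rw [abs_le]
        have e4 : 1 / (2 * (s : ℝ)) = (1 / s) / 2 := by field_simp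
        rw [e4]
        have e5 : 0 ≤ 1 / (s : ℝ) := by positivity
        constructor <;> linarith
      refine (mul_le_mul_of_nonneg_right e3 (Nat.cast_nonneg _)).trans ?_
      rw [div_mul_eq_mul_div, div_le_one (by positivity)]
      push_cast
      linarith
    · rw [AA_rad hts h2, max_eq_right hts]
      rcases Nat.eq_zero_or_pos t with h0 | h0
      · have : s = 0 := by omega
        subst this
        subst h0
        simp
      · have ht0 : (0 : ℝ) < t := by positivity
        have hst : (s : ℝ) ≤ t := by exact_mod_cast hts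
        have htn : (t : ℝ) + 1 ≤ n := by exact_mod_cast h2
        have e1 : 1 / (n : ℝ) ^ 2 ≤ 1 / ((t : ℝ) * (t + 1)) := by
          refine one_div_le_one_div_of_le (by positivity) ?_
          nlinarith
        have e2 : 0 ≤ 1 / (n : ℝ) ^ 2 := by positivity
        have e3 : |-((s : ℝ) * (1 / ((t : ℝ) * (t + 1)) - 1 / (n : ℝ) ^ 2)) / 2| ≤
            1 / (2 * ((t : ℝ) + 1)) := by
          rw [abs_div, abs_neg, abs_two, abs_mul, abs_of_nonneg (Nat.cast_nonneg s),
            abs_of_nonneg (by linarith : (0 : ℝ) ≤ 1 / ((t : ℝ) * (t + 1)) - 1 / (n : ℝ) ^ 2)]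
          have e4 : (s : ℝ) * (1 / ((t : ℝ) * (t + 1)) - 1 / (n : ℝ) ^ 2) ≤
              t * (1 / ((t : ℝ) * (t + 1))) := by
            refine mul_le_mul hst (by linarith) (by linarith) ht0.le
          have e5 : (t : ℝ) * (1 / ((t : ℝ) * (t + 1))) = 1 / (t + 1) := by field_simp
          have e6 : 1 / (2 * ((t : ℝ) + 1)) = (1 / (t + 1)) / 2 := by field_simp
          rw [e6]
          rw [e5] at e4
          linarith
        refine (mul_le_mul_of_nonneg_right e3 (Nat.cast_nonneg _)).trans ?_
        rw [div_mul_eq_mul_div, div_le_one (by positivity)]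
        push_cast
        linarith

/-- dyadic decomposition of the square of the potential -/
lemma AA_sq_le {n s t ρ : ℕ} (hn : n ≤ 2 ^ ρ) : AA n s t ^ 2 ≤
    ∑ r ∈ Finset.range (ρ + 1), (1 / 4 : ℝ) ^ r *
      ((if s < 2 ^ (r + 1) then 1 else 0) * (if t < 2 ^ (r + 1) then 1 else 0)) := by
  have hnn : ∀ r ∈ Finset.range (ρ + 1), 0 ≤ (1 / 4 : ℝ) ^ r *
      ((if s < 2 ^ (r + 1) then 1 else 0) * (if t < 2 ^ (r + 1) then 1 else 0)) := by
    intro r _
    split_ifs <;> simp
  by_cases h : n ≤ s ∨ n ≤ t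
  · rw [AA_of_le h]
    simp only [ne_eq, OfNat.ofNat_ne_zero, not_false_eq_true, zero_pow]
    exact Finset.sum_nonneg hnn
  · by_cases hz : AA n s t = 0
    · rw [hz]
      simp only [ne_eq, OfNat.ofNat_ne_zero, not_false_eq_true, zero_pow]
      exact Finset.sum_nonneg hnn
    push Not at h
    obtain ⟨h1, h2⟩ := h
    -- the scale
    obtain ⟨M, hM⟩ : ∃ M, M = max s t + 1 := ⟨_, rfl⟩
    have hM1 : 1 ≤ M := by omega
    have hMn : M ≤ n := by
      rw [hM]
      have : max s t < n := max_lt h1 h2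
      omega
    have h3 := AA_abs_le (n := n) (s := s) (t := t)
    rw [← hM] at h3
    obtain ⟨r, hr⟩ : ∃ r, r = Nat.log 2 M := ⟨_, rfl⟩
    have hr1 : 2 ^ r ≤ M := by rw [hr]; exact Nat.pow_log_le_self 2 (by omega)
    have hr2 : M < 2 ^ (r + 1) := by rw [hr]; exact Nat.lt_pow_succ_log_self (by norm_num) M
    have hrρ : r < ρ + 1 := by
      have h8 : 2 ^ r ≤ 2 ^ ρ := hr1.trans (hMn.trans hn)
      exact Nat.lt_succ_of_le ((Nat.pow_le_pow_iff_right (by norm_num)).1 h8)
    refine le_trans ?_ (Finset.single_le_sum hnn (Finset.mem_range.2 hrρ))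
    have hs : s < 2 ^ (r + 1) := by
      have := le_max_left s t
      omega
    have ht : t < 2 ^ (r + 1) := by
      have := le_max_right s t
      omega
    rw [if_pos hs, if_pos ht, mul_one, mul_one]
    have h4 : |AA n s t| * 2 ^ r ≤ 1 := by
      refine le_trans (mul_le_mul_of_nonneg_left ?_ (abs_nonneg _)) h3
      exact_mod_cast hr1
    have h5 : |AA n s t| ≤ (1 / 2) ^ r := by
      rw [one_div, inv_pow, ← one_div, le_div_iff₀ (by positivity)]
      exact h4
    calc AA n s t ^ 2 = |AA n s t| ^ 2 := (sq_abs _).symm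
      _ ≤ ((1 / 2) ^ r) ^ 2 := pow_le_pow_left₀ (abs_nonneg _) h5 2
      _ = (1 / 4) ^ r := by rw [← pow_mul, mul_comm, pow_mul]; norm_num

end

end Pool.Agent.Q2.TH
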