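import Mathlib
import Pool.Agent.Q204.YM.Perim

/-!
# Hierarchical frames
-/

open MeasureTheory Matrix Filter
open scoped Matrix.Norms.Frobenius ContDiff Topology
open Pool.Agent.H906R3.YM hiding Pl
open Pool.Agent.W793.YM Pool.Agent.TH618.YM Pool.Agent.Y14 Pool.Agent.Q204.PL

namespace Pool.Agent.Q2.TH

set_option linter.unusedSectionVars false
set_option linter.unusedVariables false

noncomputable section

section alg

variable {d l : ℕ} {G : Type*} [Group G]

/-- lowering one coordinate -/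
def dn (x : Pt d) (j : Fin d) (a : ℕ) : Pt d := Function.update x j (x j - a)

/-- raising one coordinate -/
def up (x : Pt d) (j : Fin d) (a : ℕ) : Pt d := Function.update x j (x j + a)

lemma dn_same (x : Pt d) (j : Fin d) (a : ℕ) : dn x j a j = x j - a := Function.update_self _ _ _

lemma dn_ne (x : Pt d) {i j : Fin d} (h : i ≠ j) (a : ℕ) : dn x j a i = x i :=
  Function.update_of_ne h _ _

lemma up_same (x : Pt d) (j : Fin d) (a : ℕ) : up x j a j = x j + a := Function.update_self _ _ _

lemma up_ne (x : Pt d) {i j : Fin d} (h : i ≠ j) (a : ℕ) : up x j a i = x i :=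
  Function.update_of_ne h _ _

lemma dn_up (x : Pt d) {i j : Fin d} (h : j ≠ i) (a b : ℕ) :
    dn (up x i a) j b = up (dn x j b) i a := by
  funext k
  by_cases hk : k = i
  · subst hk
    rw [dn_ne _ h.symm, up_same, up_same, dn_ne _ h.symm]
  · by_cases hj : k = j
    · subst hj
      rw [dn_same, up_ne _ hk, up_ne _ hk, dn_same]
    · rw [dn_ne _ hj, up_ne _ hk, up_ne _ hk, dn_ne _ hj]

lemma ct_up (x : Pt d) (i : Fin d) (a : ℕ) : ct l (up x i a) = ct l x + a • eT i := by
  funext k
  unfold ct eT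
  by_cases hk : k = i
  · subst hk
    rw [up_same]
    simp
  · rw [up_ne _ hk]
    simp [hk]

lemma ct_dn (x : Pt d) {j : Fin d} {a : ℕ} (h : a ≤ x j) : ct l x = ct l (dn x j a) + a • eT j := by
  rw [← ct_up]
  congr 1
  funext k
  by_cases hk : k = j
  · subst hk
    rw [up_same, dn_same]
    omega
  · rw [up_ne _ hk, dn_ne _ hk]

/-- the transport from `x` to the root along the steps in the list -/
def fm (U : Ed d l → G) : List (ℕ × Fin d) → Pt d → G
  | [], _ => 1
  | (k, j) :: s, x => if x j / 2 ^ k % 2 = 1 then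
      (ln U j (2 ^ k) (ct l (dn x j (2 ^ k))))⁻¹ * fm U s (dn x j (2 ^ k)) else fm U s x

lemma fm_one {U : Ed d l → G} {k : ℕ} {j : Fin d} {s : List (ℕ × Fin d)} {x : Pt d}
    (h : x j / 2 ^ k % 2 = 1) : fm U ((k, j) :: s) x =
      (ln U j (2 ^ k) (ct l (dn x j (2 ^ k))))⁻¹ * fm U s (dn x j (2 ^ k)) := by
  rw [fm, if_pos h]

lemma fm_zero {U : Ed d l → G} {k : ℕ} {j : Fin d} {s : List (ℕ × Fin d)} {x : Pt d}
    (h : x j / 2 ^ k % 2 = 0) : fm U ((k, j) :: s) x = fm U s x := by
  rw [fm, if_neg (by omega)]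

lemma le_of_bit {x k : ℕ} (h : x / 2 ^ k % 2 = 1) : 2 ^ k ≤ x := by
  by_contra hc
  rw [Nat.div_eq_of_lt (not_le.1 hc)] at h
  omega

/-- the mismatch of the frames at the two ends of a straight line -/
def mm (U : Ed d l → G) (s : List (ℕ × Fin d)) (x : Pt d) (i : Fin d) (ℓ : ℕ) : G :=
  (fm U s x)⁻¹ * ln U i ℓ (ct l x) * fm U s (up x i ℓ)

lemma mm_zero {U : Ed d l → G} {k : ℕ} {i j : Fin d} (hij : j ≠ i) {s : List (ℕ × Fin d)}
    {x : Pt d} {ℓ : ℕ} (h : x j / 2 ^ k % 2 = 0) : mm U ((k, j) :: s) x i ℓ = mm U s x i ℓ := by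
  unfold mm
  rw [fm_zero h, fm_zero (by rw [up_ne _ hij]; exact h)]

lemma mm_one {U : Ed d l → G} {k : ℕ} {i j : Fin d} (hij : j ≠ i) {s : List (ℕ × Fin d)}
    {x : Pt d} {ℓ : ℕ} (h : x j / 2 ^ k % 2 = 1) : mm U ((k, j) :: s) x i ℓ =
      (fm U s (dn x j (2 ^ k)))⁻¹ * rect U (ct l (dn x j (2 ^ k))) j i (2 ^ k) ℓ *
        ((fm U s (dn x j (2 ^ k)))⁻¹)⁻¹ * mm U s (dn x j (2 ^ k)) i ℓ := by
  unfold mm rect
  rw [fm_one h, fm_one (x := up x i ℓ) (by rw [up_ne _ hij]; exact h), dn_up _ hij,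
    ct_up (dn x j (2 ^ k)), ← ct_dn x (le_of_bit h)]
  group

/-- merging of the frames -/
lemma mm_merge {U : Ed d l → G} {k : ℕ} {i : Fin d} {s : List (ℕ × Fin d)} {x : Pt d}
    (h : x i / 2 ^ k % 2 = 0) : mm U ((k, i) :: s) x i (2 ^ k) = 1 := by
  have h1 : up x i (2 ^ k) i / 2 ^ k % 2 = 1 := by
    rw [up_same, Nat.add_div_right _ (by positivity)]
    omega
  have h2 : dn (up x i (2 ^ k)) i (2 ^ k) = x := by
    funext j
    by_cases hj : j = i
    · subst hj
      rw [dn_same, up_same]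
      omega
    · rw [dn_ne _ hj, up_ne _ hj]
  unfold mm
  rw [fm_zero h, fm_one h1, h2]
  group

/-- carry -/
lemma mm_carry {U : Ed d l → G} {k : ℕ} {i : Fin d} {s : List (ℕ × Fin d)} {x : Pt d}
    (h : x i / 2 ^ k % 2 = 1) : mm U ((k, i) :: s) x i (2 ^ k) =
      mm U s (dn x i (2 ^ k)) i (2 ^ (k + 1)) := by
  have hle := le_of_bit h
  have h1 : up x i (2 ^ k) i / 2 ^ k % 2 = 0 := by
    rw [up_same, Nat.add_div_right _ (by positivity)]
    omega
  have h2 : up (dn x i (2 ^ k)) i (2 ^ (k + 1)) = up x i (2 ^ k) := by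
    funext j
    by_cases hj : j = i
    · subst hj
      rw [up_same, up_same, dn_same, pow_succ]
      omega
    · rw [up_ne _ hj, up_ne _ hj, dn_ne _ hj]
  have h3 : ln U i (2 ^ (k + 1)) (ct l (dn x i (2 ^ k))) =
      ln U i (2 ^ k) (ct l (dn x i (2 ^ k))) * ln U i (2 ^ k) (ct l x) := by
    rw [pow_succ, mul_two, ln_add, ← ct_dn x hle]
  unfold mm
  rw [fm_one h, fm_zero h1, h2, h3]
  group

lemma ln_congr {U U' : Ed d l → G} {i : Fin d} {k : ℕ} {x : Fin d → ZMod l}
    (h : ∀ t < k, U (x + t • eT i, i) = U' (x + t • eT i, i)) : ln U i k x = ln U' i k x := by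
  induction k generalizing x with
  | zero => rfl
  | succ k ih =>
    rw [ln_succ, ln_succ]
    have h0 := h 0 (Nat.succ_pos _)
    rw [zero_smul, add_zero] at h0
    rw [h0, ih fun t ht => ?_]
    have h1 := h (t + 1) (by omega)
    rw [add_smul, one_smul, add_comm (t • (eT i : Fin d → ZMod l)), ← add_assoc] at h1
    exact h1

/-- the coordinates of a point of the torus -/
def vl (y : Fin d → ZMod l) : Pt d := fun i => (y i).val

/-- the rank of a link -/
def rk (e : Ed d l) : ℕ := ∑ i, vl e.1 i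

lemma vl_ct [NeZero l] {x : Pt d} (hx : ∀ i, x i < l) : vl (ct l x) = x := by
  funext i
  unfold vl ct
  exact ZMod.val_cast_of_lt (hx i)

lemma ct_vl [NeZero l] (y : Fin d → ZMod l) : ct l (vl y) = y := by
  funext i
  unfold vl ct
  exact ZMod.natCast_zmod_val _

lemma sum_up (x : Pt d) (j : Fin d) (a : ℕ) : ∑ i, up x j a i = ∑ i, x i + a := by
  rw [← Finset.add_sum_erase Finset.univ _ (Finset.mem_univ j),
    ← Finset.add_sum_erase Finset.univ (fun i => x i) (Finset.mem_univ j), up_same]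
  have e : ∑ i ∈ Finset.univ.erase j, up x j a i = ∑ i ∈ Finset.univ.erase j, x i :=
    Finset.sum_congr rfl fun i hi => up_ne x (Finset.ne_of_mem_erase hi) a
  rw [e]
  omega

lemma sum_dn (x : Pt d) {j : Fin d} {a : ℕ} (h : a ≤ x j) : ∑ i, dn x j a i + a = ∑ i, x i := by
  rw [← sum_up (dn x j a) j a]
  congr 1
  funext k
  by_cases hk : k = j
  · subst hk
    rw [up_same, dn_same]
    omega
  · rw [up_ne _ hk, dn_ne _ hk]

/-- the frame at `x` depends only on links of lower rank -/
lemma fm_congr [NeZero l] {U U' : Ed d l → G} (s : List (ℕ × Fin d)) {x : Pt d}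
    (hx : ∀ i, x i < l) (h : ∀ e, rk e < ∑ i, x i → U e = U' e) : fm U s x = fm U' s x := by
  induction s generalizing x with
  | nil => rfl
  | cons p s ih =>
    obtain ⟨k, j⟩ := p
    by_cases hb : x j / 2 ^ k % 2 = 1
    · have hle := le_of_bit hb
      have hsum := sum_dn x hle
      have hpos : 0 < 2 ^ k := by positivity
      have hdx : ∀ i, dn x j (2 ^ k) i < l := by
        intro i
        by_cases hi : i = j
        · subst hi
          rw [dn_same]
          exact lt_of_le_of_lt (Nat.sub_le _ _) (hx i)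
        · rw [dn_ne _ hi]; exact hx i
      rw [fm_one hb, fm_one hb, ih hdx fun e he => h e (by omega)]
      congr 2
      refine ln_congr fun t ht => h _ ?_
      have e1 : ct l (dn x j (2 ^ k)) + t • eT j = ct l (up (dn x j (2 ^ k)) j t) :=
        (ct_up _ _ _).symm
      have hut : ∀ i, up (dn x j (2 ^ k)) j t i < l := by
        intro i
        by_cases hi : i = j
        · subst hi
          rw [up_same, dn_same]
          have := hx i
          omega
        · rw [up_ne _ hi]; exact hdx i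
      have e2 : rk ((ct l (dn x j (2 ^ k)) + t • eT j, j) : Ed d l) =
          ∑ i, up (dn x j (2 ^ k)) j t i := by
        unfold rk
        simp only
        rw [e1, vl_ct hut]
      rw [e2, sum_up]
      omega
    · have hb' : x j / 2 ^ k % 2 = 0 := by omega
      rw [fm_zero hb', fm_zero hb', ih hx h]

/-- the steps of level `k` -/
def lv (d k : ℕ) : List (ℕ × Fin d) := (List.finRange d).map fun j => (k, j)

/-- the steps of the levels `k`, ..., `k + n - 1` -/
def lvs (d : ℕ) : ℕ → ℕ → List (ℕ × Fin d)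
  | _, 0 => []
  | k, n + 1 => lv d k ++ lvs d (k + 1) n

end alg

variable {G : Type*} [Group G] [TopologicalSpace G] [IsTopologicalGroup G] [CompactSpace G]
  [SecondCountableTopology G] [MeasurableSpace G] [BorelSpace G] (μ : Measure G)
  [IsProbabilityMeasure μ] [μ.IsMulLeftInvariant] [μ.IsMulRightInvariant] [μ.IsInvInvariant]
  {N n' : ℕ} {L : LD G N n'} {d m : ℕ} [NeZero m] {β : ℝ}

lemma fm_cont {l : ℕ} (s : List (ℕ × Fin d)) (x : Pt d) :
    Continuous fun U : Ed d l → G => fm U s x := by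
  induction s generalizing x with
  | nil => exact continuous_const
  | cons p s ih =>
    obtain ⟨k, j⟩ := p
    by_cases hb : x j / 2 ^ k % 2 = 1
    · simp only [fm_one hb]
      exact (ln_cont _ _ _).inv.mul (ih _)
    · have hb' : x j / 2 ^ k % 2 = 0 := by omega
      simp only [fm_zero hb']
      exact ih _

lemma mm_cont {l : ℕ} (s : List (ℕ × Fin d)) (x : Pt d) (i : Fin d) (ℓ : ℕ) :
    Continuous fun U : Ed d l → G => mm U s x i ℓ :=
  ((fm_cont s x).inv.mul (ln_cont _ _ _)).mul (fm_cont s _)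

lemma dvmm_cont {l : ℕ} (s : List (ℕ × Fin d)) (x : Pt d) (i : Fin d) (ℓ : ℕ) :
    Continuous fun U : Ed d l → G => dv L (mm U s x i ℓ) := dv_cont.comp (mm_cont s x i ℓ)

/-- one step in a transversal direction -/
lemma en_mm_step {k : ℕ} {i j : Fin d} (hij : j ≠ i) (s : List (ℕ × Fin d)) (x : Pt d) (ℓ : ℕ)
    {r A : ℝ} (hr : ps μ L m β j i (2 ^ k) ℓ ≤ r)
    (hA : ∀ x' : Pt d, x' i = x i →
      en μ L β (fun U : Ed d (2 * m) → G => dv L (mm U s x' i ℓ)) ≤ A) :
    en μ L β (fun U : Ed d (2 * m) → G => dv L (mm U ((k, j) :: s) x i ℓ)) ≤ r + A := by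
  have hr0 : 0 ≤ r := (ps_nonneg μ _ _ _ _).trans hr
  by_cases hb : x j / 2 ^ k % 2 = 1
  · have h1 : en μ L β (fun U : Ed d (2 * m) → G => dv L (mm U ((k, j) :: s) x i ℓ)) ≤
        en μ L β (fun U : Ed d (2 * m) → G =>
          dv L (rect U (ct (2 * m) (dn x j (2 ^ k))) j i (2 ^ k) ℓ)) +
        en μ L β (fun U : Ed d (2 * m) → G => dv L (mm U s (dn x j (2 ^ k)) i ℓ)) := by
      have c1 : Continuous fun U : Ed d (2 * m) → G =>
          dv L (rect U (ct (2 * m) (dn x j (2 ^ k))) j i (2 ^ k) ℓ) :=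
        dv_cont.comp (rect_cont _ _ _ _ _)
      have c2 := dvmm_cont (L := L) (l := 2 * m) s (dn x j (2 ^ k)) i ℓ
      refine le_trans (en_mono μ (dvmm_cont _ _ _ _) (c1.add c2) fun U => ?_) (en_add μ c1 c2)
      rw [abs_of_nonneg (dv_nonneg _), mm_one hij hb]
      refine (dv_mul _ _).trans ?_
      rw [dv_conj]
      exact le_refl _
    rw [ps_x] at h1
    have h2 := hA (dn x j (2 ^ k)) (dn_ne _ hij.symm _)
    linarith
  · have hb' : x j / 2 ^ k % 2 = 0 := by omega
    simp only [mm_zero hij hb']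
    have := hA x rfl
    linarith

lemma en_mm_list {k : ℕ} {i : Fin d} (J : List (Fin d)) (hi : i ∉ J) (s : List (ℕ × Fin d))
    (x : Pt d) (ℓ : ℕ) {r A : ℝ} (hr : ∀ j ∈ J, ps μ L m β j i (2 ^ k) ℓ ≤ r)
    (hA : ∀ x' : Pt d, x' i = x i →
      en μ L β (fun U : Ed d (2 * m) → G => dv L (mm U s x' i ℓ)) ≤ A) :
    en μ L β (fun U : Ed d (2 * m) → G =>
      dv L (mm U ((J.map fun j => (k, j)) ++ s) x i ℓ)) ≤ J.length * r + A := by
  induction J generalizing x with
  | nil => simpa using hA x rfl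
  | cons j J ih =>
    have hij : j ≠ i := fun h => hi (h ▸ List.mem_cons_self)
    have hiJ : i ∉ J := fun h => hi (List.mem_cons_of_mem _ h)
    have h1 := en_mm_step μ (k := k) hij ((J.map fun j => (k, j)) ++ s) x ℓ
      (hr j List.mem_cons_self) (A := J.length * r + A) fun x' hx' =>
        ih hiJ x' (fun j' hj' => hr j' (List.mem_cons_of_mem _ hj'))
          (fun x'' hx'' => hA x'' (hx''.trans hx'))
    refine h1.trans (le_of_eq ?_)
    rw [List.length_cons]
    push_cast
    ring

/-- the mismatch of two neighbouring frames -/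
lemma en_mm (i : Fin d) (r : ℕ → ℝ)
    (hr : ∀ k, 2 ^ k < m → ∀ j, j ≠ i → ∀ ℓ, ℓ ≤ 2 ^ (k + 1) → ps μ L m β j i (2 ^ k) ℓ ≤ r k)
    (hr0 : ∀ k, 0 ≤ r k) (v : ℕ) : ∀ (k n : ℕ) (x : Pt d), v < n → 2 ^ (k + v) < m →
      2 ^ k ∣ x i → ¬ 2 ^ (v + 1) ∣ x i / 2 ^ k + 1 →
      en μ L β (fun U : Ed d (2 * m) → G => dv L (mm U (lvs d k n) x i (2 ^ k))) ≤
        ∑ q ∈ Finset.range (v + 1), d * r (k + q) := by
  induction v with
  | zero =>
    intro k n x hn hm hdvd hv
    obtain ⟨n, rfl⟩ : ∃ n', n = n' + 1 := ⟨n - 1, by omega⟩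
    obtain ⟨J1, J2, hJ⟩ := List.append_of_mem (List.mem_finRange i)
    have hnd : (List.finRange d).Nodup := List.nodup_finRange d
    rw [hJ] at hnd
    have hi1 : i ∉ J1 := fun h => by
      have := (List.nodup_append.1 hnd).2.2 i h i List.mem_cons_self
      exact this rfl
    have hlen : J1.length + (J2.length + 1) = d := by
      have := congrArg List.length hJ
      rw [List.length_finRange, List.length_append, List.length_cons] at this
      exact this.symm
    have hbit : x i / 2 ^ k % 2 = 0 := by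
      rw [zero_add, pow_one] at hv
      omega
    rw [add_zero] at hm
    have e1 : lvs d k (n + 1) = (J1.map fun j => (k, j)) ++ ((k, i) ::
        ((J2.map fun j => (k, j)) ++ lvs d (k + 1) n)) := by
      rw [lvs, lv, hJ]
      simp
    rw [e1]
    refine (en_mm_list μ J1 hi1 _ x (2 ^ k) (r := r k) (A := 0)
      (fun j hj => hr k hm j (fun h => hi1 (h ▸ hj)) _ (Nat.pow_le_pow_right (by norm_num)
        (Nat.le_succ k))) fun x' hx' => ?_).trans ?_
    · have e2 : (fun U : Ed d (2 * m) → G => dv L (mm U ((k, i) ::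
          ((J2.map fun j => (k, j)) ++ lvs d (k + 1) n)) x' i (2 ^ k))) = fun _ => 0 := by
        funext U
        rw [mm_merge (by rw [hx']; exact hbit), dv_one]
      rw [e2, en_zero]
    · rw [add_zero, zero_add, Finset.sum_range_one, add_zero]
      refine mul_le_mul_of_nonneg_right ?_ (hr0 k)
      exact_mod_cast (by omega : J1.length ≤ d)
  | succ v ih =>
    intro k n x hn hm hdvd hv
    obtain ⟨n, rfl⟩ : ∃ n', n = n' + 1 := ⟨n - 1, by omega⟩
    obtain ⟨J1, J2, hJ⟩ := List.append_of_mem (List.mem_finRange i)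
    have hnd : (List.finRange d).Nodup := List.nodup_finRange d
    rw [hJ] at hnd
    have hi1 : i ∉ J1 := fun h => by
      have := (List.nodup_append.1 hnd).2.2 i h i List.mem_cons_self
      exact this rfl
    have hi2 : i ∉ J2 := (List.nodup_cons.1 (List.nodup_append.1 hnd).2.1).1
    have hlen : J1.length + (J2.length + 1) = d := by
      have := congrArg List.length hJ
      rw [List.length_finRange, List.length_append, List.length_cons] at this
      exact this.symm
    have hkm : 2 ^ k < m := lt_of_le_of_lt (Nat.pow_le_pow_right (by norm_num) (by omega)) hm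
    have e1 : lvs d k (n + 1) = (J1.map fun j => (k, j)) ++ ((k, i) ::
        ((J2.map fun j => (k, j)) ++ lvs d (k + 1) n)) := by
      rw [lvs, lv, hJ]
      simp
    rw [e1]
    by_cases hbit : x i / 2 ^ k % 2 = 1
    · -- carry
      refine (en_mm_list μ J1 hi1 _ x (2 ^ k) (r := r k)
        (A := J2.length * r k + ∑ q ∈ Finset.range (v + 1), d * r (k + 1 + q))
        (fun j hj => hr k hkm j (fun h => hi1 (h ▸ hj)) _ (Nat.pow_le_pow_right (by norm_num)
          (Nat.le_succ k))) fun x' hx' => ?_).trans ?_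
      · simp only [mm_carry (x := x') (by rw [hx']; exact hbit : x' i / 2 ^ k % 2 = 1)]
        refine en_mm_list μ J2 hi2 _ _ _ (fun j hj => hr k hkm j (fun h => hi2 (h ▸ hj)) _
          le_rfl) fun x'' hx'' => ?_
        have h1 : x'' i = x i - 2 ^ k := by rw [hx'', dn_same, hx']
        obtain ⟨c, hc⟩ := hdvd
        have hpos : 0 < 2 ^ k := by positivity
        have h2 : x i / 2 ^ k = c := by rw [hc, Nat.mul_div_cancel_left _ hpos]
        rw [h2] at hbit hv
        have h3 : x'' i = 2 ^ (k + 1) * (c / 2) := by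
          rw [h1, hc]
          have h4 : c = 2 * (c / 2) + 1 := by omega
          obtain ⟨b, hb⟩ : ∃ b, b = c / 2 := ⟨_, rfl⟩
          rw [← hb] at h4 ⊢
          rw [h4, pow_succ]
          have h5 : 2 ^ k * (2 * b + 1) = 2 ^ k * 2 * b + 2 ^ k := by ring
          rw [h5]
          omega
        refine ih (k + 1) n x'' (by omega) (by rwa [add_assoc, add_comm 1 v]) ⟨_, h3⟩ ?_
        rw [h3, Nat.mul_div_cancel_left _ (by positivity)]
        intro hdv
        apply hv
        have h6 : c + 1 = 2 * (c / 2 + 1) := by omega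
        rw [h6, pow_succ, mul_comm (2 ^ (v + 1)) 2]
        exact Nat.mul_dvd_mul_left 2 hdv
      · have h7 : ∑ q ∈ Finset.range (v + 1), (d : ℝ) * r (k + 1 + q) =
            ∑ q ∈ Finset.range (v + 1), (d : ℝ) * r (k + (q + 1)) :=
          Finset.sum_congr rfl fun q _ => by rw [add_assoc, add_comm 1 q]
        rw [Finset.sum_range_succ' _ (v + 1), h7, add_zero]
        have h8 : (J1.length : ℝ) + J2.length ≤ d := by
          exact_mod_cast (by omega : J1.length + J2.length ≤ d)
        have h9 := mul_le_mul_of_nonneg_right h8 (hr0 k)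
        linarith
    · -- merge
      have hbit' : x i / 2 ^ k % 2 = 0 := by omega
      refine (en_mm_list μ J1 hi1 _ x (2 ^ k) (r := r k) (A := 0)
        (fun j hj => hr k hkm j (fun h => hi1 (h ▸ hj)) _ (Nat.pow_le_pow_right (by norm_num)
          (Nat.le_succ k))) fun x' hx' => ?_).trans ?_
      · have e2 : (fun U : Ed d (2 * m) → G => dv L (mm U ((k, i) ::
            ((J2.map fun j => (k, j)) ++ lvs d (k + 1) n)) x' i (2 ^ k))) = fun _ => 0 := by
          funext U
          rw [mm_merge (by rw [hx']; exact hbit'), dv_one]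
        rw [e2, en_zero]
      · rw [Finset.sum_range_succ', add_zero, add_zero]
        have h8 : (J1.length : ℝ) ≤ d := by exact_mod_cast (by omega : J1.length ≤ d)
        have h9 := mul_le_mul_of_nonneg_right h8 (hr0 k)
        have h10 : 0 ≤ ∑ q ∈ Finset.range (v + 1), (d : ℝ) * r (k + (q + 1)) :=
          Finset.sum_nonneg fun q _ => mul_nonneg (Nat.cast_nonneg _) (hr0 _)
        linarith

end

end Pool.Agent.Q2.TH
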