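import Mathlib

/-!
# Triangular changes of variables on a finite power of a group
-/

open MeasureTheory

namespace Pool.Agent.Q2.TH

set_option linter.unusedSectionVars false

variable {G : Type*} [Group G] [MeasurableSpace G] [MeasurableMul₂ G] (μ : Measure G)
  [IsProbabilityMeasure μ] [μ.IsMulLeftInvariant] {E : Type*} [Fintype E] [DecidableEq E]

/-- left multiplication of one coordinate by a function of the other coordinates -/
theorem mp_one (e : E) (h : (E → G) → G) (hm : Measurable h)
    (hd : ∀ U U' : E → G, (∀ e', e' ≠ e → U e' = U' e') → h U = h U') :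
    MeasurePreserving (fun U : E → G => Function.update U e (h U * U e))
      (Measure.pi fun _ => μ) (Measure.pi fun _ => μ) := by
  have hs := measurePreserving_piEquivPiSubtypeProd (fun _ : E => μ) (fun e' => e' ≠ e)
  -- the map on the product
  let S : (E → G) ≃ᵐ ({e' // e' ≠ e} → G) × ({e' // ¬ e' ≠ e} → G) :=
    MeasurableEquiv.piEquivPiSubtypeProd (fun _ : E => G) (fun e' => e' ≠ e)
  have hS : ∀ (p : ({e' // e' ≠ e} → G) × ({e' // ¬ e' ≠ e} → G)) (e' : E),
      S.symm p e' = if h : e' ≠ e then p.1 ⟨e', h⟩ else p.2 ⟨e', h⟩ := fun p e' => rfl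
  let k : ({e' // e' ≠ e} → G) → G := fun w => h (S.symm (w, fun _ => 1))
  have hk : Measurable k := hm.comp (S.symm.measurable.comp (measurable_id.prodMk measurable_const))
  have hkU : ∀ U : E → G, k (S U).1 = h U := by
    intro U
    refine hd _ _ fun e' he' => ?_
    rw [hS, dif_pos he']
    rfl
  have h1 : MeasurePreserving (fun p : ({e' // e' ≠ e} → G) × ({e' // ¬ e' ≠ e} → G) =>
      (p.1, fun e' => k p.1 * p.2 e'))
      ((Measure.pi fun _ : {e' // e' ≠ e} => μ).prod (Measure.pi fun _ : {e' // ¬ e' ≠ e} => μ))
      ((Measure.pi fun _ : {e' // e' ≠ e} => μ).prod (Measure.pi fun _ : {e' // ¬ e' ≠ e} => μ)) := by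
    refine MeasurePreserving.skew_product (f := id)
      (g := fun (w : {e' // e' ≠ e} → G) (v : {e' // ¬ e' ≠ e} → G) => fun e' => k w * v e')
      (MeasurePreserving.id _) ?_ ?_
    · refine measurable_pi_lambda _ fun e' => ?_
      exact (hk.comp measurable_fst).mul ((measurable_pi_apply e').comp measurable_snd)
    · refine Filter.Eventually.of_forall fun w => ?_
      have h2 := measurePreserving_pi (fun _ : {e' // ¬ e' ≠ e} => μ)
        (fun _ : {e' // ¬ e' ≠ e} => μ) (f := fun _ g => k w * g)
        (fun _ => measurePreserving_mul_left μ (k w))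
      exact h2.map_eq
  have h2 := (hs.symm S).comp (h1.comp hs)
  have h3 : (S.symm ∘ (fun p : ({e' // e' ≠ e} → G) × ({e' // ¬ e' ≠ e} → G) =>
      (p.1, fun e' => k p.1 * p.2 e')) ∘ S) = fun U : E → G => Function.update U e (h U * U e) := by
    funext U e'
    show S.symm ((S U).1, fun e' => k (S U).1 * (S U).2 e') e' = _
    rw [hS, hkU]
    by_cases he : e' = e
    · subst he
      rw [dif_neg (not_not.2 rfl), Function.update_self]
      rfl
    · rw [dif_pos he, Function.update_of_ne he]
      rfl
  rw [← h3]
  exact h2

/-- **Triangular changes of variables.** -/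
theorem mp_tri (r : E → ℕ) (h : E → (E → G) → G) (hm : ∀ e, Measurable (h e))
    (hd : ∀ e, ∀ U U' : E → G, (∀ e', r e' < r e → U e' = U' e') → h e U = h e U') :
    MeasurePreserving (fun (U : E → G) (e : E) => h e U * U e)
      (Measure.pi fun _ => μ) (Measure.pi fun _ => μ) := by
  have key : ∀ T : Finset E, MeasurePreserving
      (fun (U : E → G) (e : E) => if e ∈ T then h e U * U e else U e)
      (Measure.pi fun _ => μ) (Measure.pi fun _ => μ) := by
    intro T
    induction T using Finset.induction_on_min_value r with
    | empty =>
      simp only [Finset.notMem_empty, if_false]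
      exact MeasurePreserving.id _
    | insert a s ha hmin ih =>
      have h1 := mp_one μ a (h a) (hm a) (fun U U' hU => hd a U U' fun e' he' =>
        hU e' fun h => by rw [h] at he'; exact lt_irrefl _ he')
      have h2 := h1.comp ih
      have h3 : ((fun U : E → G => Function.update U a (h a U * U a)) ∘
          fun (U : E → G) (e : E) => if e ∈ s then h e U * U e else U e) =
          fun (U : E → G) (e : E) => if e ∈ insert a s then h e U * U e else U e := by
        funext U e
        simp only [Function.comp_apply]
        have h4 : h a (fun e => if e ∈ s then h e U * U e else U e) = h a U := by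
          refine hd a _ _ fun e' he' => ?_
          rw [if_neg]
          intro h5
          exact absurd (hmin e' h5) (not_le.2 he')
        rw [h4]
        by_cases he : e = a
        · subst he
          rw [Function.update_self, if_neg ha, if_pos (Finset.mem_insert_self _ _)]
        · rw [Function.update_of_ne he]
          by_cases hes : e ∈ s
          · rw [if_pos hes, if_pos (Finset.mem_insert_of_mem hes)]
          · rw [if_neg hes, if_neg]
            intro h6
            rcases Finset.mem_insert.1 h6 with h7 | h7
            · exact he h7
            · exact hes h7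
      rw [← h3]
      exact h2
  have h1 := key Finset.univ
  simpa only [Finset.mem_univ, if_true] using h1

end Pool.Agent.Q2.TH
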