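import Mathlib
import Pool.Agent.Q2.TH.Alg
import Pool.Agent.Q2.TH.Tri
import Pool.Agent.Q2.TH.Field
import Pool.Agent.Q2.TH.Frame

/-!
# The shift of the configuration and the twisted action
-/

open MeasureTheory Matrix Filter
open scoped Matrix.Norms.Frobenius ContDiff Topology
open Pool.Agent.H906R3.YM hiding Pl
open Pool.Agent.W793.YM Pool.Agent.TH618.YM Pool.Agent.Y14 Pool.Agent.Q204.PL

namespace Pool.Agent.Q2.TH

set_option linter.unusedSectionVars false
set_option linter.unusedVariables false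

noncomputable section

section field

variable {d : ℕ}

/-- the points over the sheet -/
def inB (i0 j0 : Fin d) (R : Fin d → ℕ) (x : Pt d) : Prop := ∀ k, k ≠ i0 → k ≠ j0 → x k < R k

instance (i0 j0 : Fin d) (R : Fin d → ℕ) (x : Pt d) : Decidable (inB i0 j0 R x) := by
  unfold inB; infer_instance

/-- the potential -/
def al (i0 j0 : Fin d) (R : Fin d → ℕ) (n : ℕ) (x : Pt d) (k : Fin d) : ℝ :=
  if inB i0 j0 R x then
    (if k = j0 then AA n (x i0) (x j0) else if k = i0 then -AA n (x j0) (x i0) else 0) else 0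

/-- the twisted plaquettes -/
def twp (i0 j0 : Fin d) (R : Fin d → ℕ) (x : Pt d) (i j : Fin d) : Prop :=
  i = i0 ∧ j = j0 ∧ inB i0 j0 R x ∧ x i0 = 0 ∧ x j0 = 0

instance (i0 j0 : Fin d) (R : Fin d → ℕ) (x : Pt d) (i j : Fin d) :
    Decidable (twp i0 j0 R x i j) := by unfold twp; infer_instance

/-- the twist of a plaquette -/
def tw (i0 j0 : Fin d) (R : Fin d → ℕ) (x : Pt d) (i j : Fin d) : ℝ :=
  if twp i0 j0 R x i j then 1 else 0

end field

section alg

variable {d l : ℕ} {G : Type*} [Group G]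

/-- the shift of the link variables -/
def sh (P : (Fin d → ZMod l) → G) (E : ℝ → G) (a : Ed d l → ℝ) (U : Ed d l → G) : Ed d l → G :=
  fun e => (P e.1 * E (a e) * (P e.1)⁻¹) * U e

end alg

variable {G : Type*} [Group G] [TopologicalSpace G] [IsTopologicalGroup G] [CompactSpace G]
  [SecondCountableTopology G] [MeasurableSpace G] [BorelSpace G]
  {N n' : ℕ} {L : LD G N n'} {d l : ℕ} {E : ℝ → G} {x : ℝ}

lemma we_conj (h g : G) : we L (h * g * h⁻¹) = we L g := by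
  have h1 := dv_sq (L := L) (h * g * h⁻¹)
  have h2 := dv_sq (L := L) g
  rw [dv_conj] at h1
  linarith

lemma we_swap (g h : G) : we L (g * h) = we L (h * g) := by
  have h1 := dv_sq (L := L) (g * h)
  have h2 := dv_sq (L := L) (h * g)
  rw [dv_swap] at h1
  linarith

/-- the shifted plaquette -/
lemma we_shift (h : OneP L E x) (P : (Fin d → ZMod l) → G) (a : Ed d l → ℝ) (U : Ed d l → G)
    (y : Fin d → ZMod l) (i j : Fin d) (c : ℝ) (hc : ∀ g : G, E c * g = g * E c) :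
    we L (E c * plqT (sh P E a U) y i j) =
      we L (WW E ((P y)⁻¹ * U (y, i) * P (y + eT i))
        ((P y)⁻¹ * plqT U y i j * P y * ((P y)⁻¹ * U (y, j) * P (y + eT j)))
        (c + a (y, i) - a (y, j)) (a (y + eT i, j)) (-a (y + eT j, i)) *
          ((P y)⁻¹ * plqT U y i j * P y)) := by
  obtain ⟨M, hM⟩ : ∃ M, M = E (a (y, i)) * (P y)⁻¹ * U (y, i) * P (y + eT i) *
      E (a (y + eT i, j)) * (P (y + eT i))⁻¹ * U (y + eT i, j) * (U (y + eT j, i))⁻¹ *
      P (y + eT j) * (E (a (y + eT j, i)))⁻¹ * (P (y + eT j))⁻¹ * (U (y, j))⁻¹ * P y := ⟨_, rfl⟩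
  have e1 : E c * plqT (sh P E a U) y i j = P y * (E c * M * (E (a (y, j)))⁻¹) * (P y)⁻¹ := by
    have h1 : plqT (sh P E a U) y i j = P y * (M * (E (a (y, j)))⁻¹) * (P y)⁻¹ := by
      unfold plqT sh
      rw [hM]
      simp only
      group
    rw [h1]
    have h2 : E c * (P y * (M * (E (a (y, j)))⁻¹) * (P y)⁻¹) =
        (E c * P y) * (M * (E (a (y, j)))⁻¹) * (P y)⁻¹ := by group
    rw [h2, hc]
    group
  have e2 : WW E ((P y)⁻¹ * U (y, i) * P (y + eT i))
        ((P y)⁻¹ * plqT U y i j * P y * ((P y)⁻¹ * U (y, j) * P (y + eT j)))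
        (c + a (y, i) - a (y, j)) (a (y + eT i, j)) (-a (y + eT j, i)) *
          ((P y)⁻¹ * plqT U y i j * P y) = (E (a (y, j)))⁻¹ * (E c * M) := by
    have h1 : E (c + a (y, i) - a (y, j)) = (E (a (y, j)))⁻¹ * E c * E (a (y, i)) := by
      have h2 : c + a (y, i) - a (y, j) = -a (y, j) + c + a (y, i) := by ring
      rw [h2, h.add, h.add, h.neg]
    unfold WW
    rw [h1, h.neg, hM]
    unfold plqT
    group
  rw [e1, e2, we_conj, we_swap]

/-- the twisted action -/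
def actz (L : LD G N n') [NeZero l] (i0 j0 : Fin d) (R : Fin d → ℕ) (ζ : G)
    (U : Ed d l → G) : ℝ :=
  ∑ y, ∑ i, ∑ j, if i < j then
    we L ((if twp i0 j0 R (vl y) i j then ζ else 1) * plqT U y i j) else 0

/-- the flux through a plaquette -/
def fx (i0 j0 : Fin d) (R : Fin d → ℕ) (n : ℕ) (y : Fin d → ZMod l) (i j : Fin d) : ℝ :=
  tw i0 j0 R (vl y) i j + al i0 j0 R n (vl y) i + al i0 j0 R n (vl (y + eT i)) j -
    al i0 j0 R n (vl (y + eT j)) i - al i0 j0 R n (vl y) j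

/-- the frames -/
def PP (J : ℕ) (U : Ed d l → G) (y : Fin d → ZMod l) : G := fm U (lvs d 0 (J + 1)) (vl y)

/-- the mismatch of the frames along a link -/
def gg (J : ℕ) (U : Ed d l → G) (y : Fin d → ZMod l) (i : Fin d) : G :=
  (PP J U y)⁻¹ * U (y, i) * PP J U (y + eT i)

/-- the shifted configuration -/
def Sh (i0 j0 : Fin d) (R : Fin d → ℕ) (n J : ℕ) (E : ℝ → G) (s : ℝ) (U : Ed d l → G) :
    Ed d l → G := sh (PP J U) E (fun e => s * al i0 j0 R n (vl e.1) e.2) U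

variable {i0 j0 : Fin d} {R : Fin d → ℕ} {n J : ℕ}

lemma tw_E (h : OneP L E x) (hz : ∀ g : G, E 1 * g = g * E 1) {s : ℝ} (hs : s = 1 ∨ s = -1)
    (y : Fin d → ZMod l) (i j : Fin d) :
    ((if twp i0 j0 R (vl y) i j then E s else 1) = E (s * tw i0 j0 R (vl y) i j)) ∧
      ∀ g : G, E (s * tw i0 j0 R (vl y) i j) * g = g * E (s * tw i0 j0 R (vl y) i j) := by
  unfold tw
  have hzs : ∀ g : G, E s * g = g * E s := by
    intro g
    rcases hs with rfl | rfl
    · exact hz g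
    · rw [h.neg]
      have := hz g
      calc (E 1)⁻¹ * g = (E 1)⁻¹ * (g * E 1) * (E 1)⁻¹ := by group
        _ = (E 1)⁻¹ * (E 1 * g) * (E 1)⁻¹ := by rw [hz g]
        _ = g * (E 1)⁻¹ := by group
  split_ifs with hc
  · rw [mul_one]; exact ⟨rfl, hzs⟩
  · rw [mul_zero, h.zero]; exact ⟨rfl, fun g => by rw [one_mul, mul_one]⟩

/-- one plaquette after the shift -/
lemma we_Sh (h : OneP L E x) (hz : ∀ g : G, E 1 * g = g * E 1) {s : ℝ} (hs : s = 1 ∨ s = -1)
    (U : Ed d l → G) (y : Fin d → ZMod l) (i j : Fin d) :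
    we L ((if twp i0 j0 R (vl y) i j then E s else 1) * plqT (Sh i0 j0 R n J E s U) y i j) =
      we L (WW E (gg J U y i) ((PP J U y)⁻¹ * plqT U y i j * PP J U y * gg J U y j)
        (s * (tw i0 j0 R (vl y) i j + al i0 j0 R n (vl y) i - al i0 j0 R n (vl y) j))
        (s * al i0 j0 R n (vl (y + eT i)) j) (s * -al i0 j0 R n (vl (y + eT j)) i) *
          ((PP J U y)⁻¹ * plqT U y i j * PP J U y)) := by
  obtain ⟨h1, h2⟩ := tw_E h hz hs (i0 := i0) (j0 := j0) (R := R) y i j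
  rw [h1]
  unfold Sh
  rw [we_shift h (PP J U) _ U y i j _ h2]
  simp only
  unfold gg
  congr 3 <;> ring

/-- the sum over both shifts for one plaquette -/
theorem plaq_bound (h : OneP L E x) (hz : ∀ g : G, E 1 * g = g * E 1) (hN : 1 ≤ N)
    (U : Ed d l → G) (y : Fin d → ZMod l) (i j : Fin d) :
    we L ((if twp i0 j0 R (vl y) i j then E 1 else 1) * plqT (Sh i0 j0 R n J E 1 U) y i j) +
      we L ((if twp i0 j0 R (vl y) i j then E (-1) else 1) *
        plqT (Sh i0 j0 R n J E (-1) U) y i j) - 2 * we L (plqT U y i j) ≤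
      120 * N * (x ^ 2 * (fx i0 j0 R n y i j ^ 2 +
        (al i0 j0 R n (vl (y + eT i)) j ^ 2 + al i0 j0 R n (vl (y + eT j)) i ^ 2) *
          (dv L (gg J U y i) ^ 2 + dv L (gg J U y j) ^ 2 + dv L (plqT U y i j) ^ 2))) := by
  rw [we_Sh h hz (Or.inl rfl), we_Sh h hz (Or.inr rfl)]
  obtain ⟨u, hu⟩ : ∃ u, u = (PP J U y)⁻¹ * plqT U y i j * PP J U y := ⟨_, rfl⟩
  have hu1 : we L u = we L (plqT U y i j) := by
    rw [hu]
    have e : (PP J U y)⁻¹ * plqT U y i j * PP J U y =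
        (PP J U y)⁻¹ * plqT U y i j * ((PP J U y)⁻¹)⁻¹ := by rw [inv_inv]
    rw [e, we_conj]
  have hu2 : dv L u = dv L (plqT U y i j) := by
    rw [hu]
    have e : (PP J U y)⁻¹ * plqT U y i j * PP J U y =
        (PP J U y)⁻¹ * plqT U y i j * ((PP J U y)⁻¹)⁻¹ := by rw [inv_inv]
    rw [e, dv_conj]
  rw [← hu, ← hu1]
  have h1 := second_var h hN (gg J U y i) (u * gg J U y j) u
    (tw i0 j0 R (vl y) i j + al i0 j0 R n (vl y) i - al i0 j0 R n (vl y) j)
    (al i0 j0 R n (vl (y + eT i)) j) (-al i0 j0 R n (vl (y + eT j)) i)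
  simp only [one_mul, neg_mul, neg_neg]
  rw [neg_neg] at h1
  refine h1.trans ?_
  have hN0 : (0 : ℝ) ≤ N := Nat.cast_nonneg _
  have e1 : tw i0 j0 R (vl y) i j + al i0 j0 R n (vl y) i - al i0 j0 R n (vl y) j +
      al i0 j0 R n (vl (y + eT i)) j + -al i0 j0 R n (vl (y + eT j)) i =
      fx i0 j0 R n y i j := by unfold fx; ring
  rw [e1, neg_sq, ← hu2]
  have h2 := dv_mul (L := L) u (gg J U y j)
  have h3 : dv L (u * gg J U y j) ^ 2 ≤ 2 * dv L u ^ 2 + 2 * dv L (gg J U y j) ^ 2 := by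
    have h0 := dv_nonneg (L := L) (u * gg J U y j)
    have h4 := pow_le_pow_left₀ h0 h2 2
    nlinarith [sq_nonneg (dv L u - dv L (gg J U y j))]
  obtain ⟨f, hf⟩ : ∃ f, f = fx i0 j0 R n y i j ^ 2 := ⟨_, rfl⟩
  obtain ⟨c, hc⟩ : ∃ c, c = al i0 j0 R n (vl (y + eT i)) j ^ 2 +
    al i0 j0 R n (vl (y + eT j)) i ^ 2 := ⟨_, rfl⟩
  obtain ⟨S, hS⟩ : ∃ S, S = dv L (gg J U y i) ^ 2 + dv L (gg J U y j) ^ 2 + dv L u ^ 2 := ⟨_, rfl⟩
  rw [← hf, ← hc, ← hS]
  have f0 : 0 ≤ f := by rw [hf]; positivity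
  have c0 : 0 ≤ c := by rw [hc]; positivity
  have h5 : dv L (gg J U y i) ^ 2 + dv L (u * gg J U y j) ^ 2 + dv L u ^ 2 ≤ 3 * S := by
    rw [hS]
    nlinarith [sq_nonneg (dv L (gg J U y i)), sq_nonneg (dv L (gg J U y j)), sq_nonneg (dv L u)]
  have h6 := mul_le_mul_of_nonneg_left h5 c0
  have h7 : f + c * (dv L (gg J U y i) ^ 2 + dv L (u * gg J U y j) ^ 2 + dv L u ^ 2) ≤
      3 * (f + c * S) := by linarith
  have h8 := mul_le_mul_of_nonneg_left h7 (mul_nonneg (by positivity : (0 : ℝ) ≤ 40 * N) (sq_nonneg x))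
  linarith

/-- the sum over both shifts of the twisted actions -/
theorem act_bound [NeZero l] (h : OneP L E x) (hz : ∀ g : G, E 1 * g = g * E 1) (hN : 1 ≤ N)
    (U : Ed d l → G) :
    (actz L i0 j0 R (E 1) (Sh i0 j0 R n J E 1 U) - act L U) +
      (actz L i0 j0 R (E (-1)) (Sh i0 j0 R n J E (-1) U) - act L U) ≤
      120 * N * (x ^ 2 * ∑ y, ∑ i, ∑ j, if i < j then (fx i0 j0 R n y i j ^ 2 +
        (al i0 j0 R n (vl (y + eT i)) j ^ 2 + al i0 j0 R n (vl (y + eT j)) i ^ 2) *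
          (dv L (gg J U y i) ^ 2 + dv L (gg J U y j) ^ 2 + dv L (plqT U y i j) ^ 2)) else 0) := by
  unfold actz act
  rw [← Finset.sum_sub_distrib, ← Finset.sum_sub_distrib, ← Finset.sum_add_distrib,
    Finset.mul_sum, Finset.mul_sum]
  refine Finset.sum_le_sum fun y _ => ?_
  rw [← Finset.sum_sub_distrib, ← Finset.sum_sub_distrib, ← Finset.sum_add_distrib,
    Finset.mul_sum, Finset.mul_sum]
  refine Finset.sum_le_sum fun i _ => ?_
  rw [← Finset.sum_sub_distrib, ← Finset.sum_sub_distrib, ← Finset.sum_add_distrib,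
    Finset.mul_sum, Finset.mul_sum]
  refine Finset.sum_le_sum fun j _ => ?_
  by_cases hij : i < j
  · simp only [if_pos hij]
    have := plaq_bound h hz hN (i0 := i0) (j0 := j0) (R := R) (n := n) (J := J) U y i j
    linarith
  · simp only [if_neg hij]
    simp

end

end Pool.Agent.Q2.TH
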