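import Mathlib

/-!
# Sums over boxes in the torus
-/

namespace Pool.Agent.Q2.TH

noncomputable section

variable {d l : ℕ} [NeZero l]

lemma sum_zmod (w : ℕ → ℝ) : ∑ c : ZMod l, w c.val = ∑ a ∈ Finset.range l, w a := by
  refine Finset.sum_nbij' (fun c => c.val) (fun a => (a : ZMod l)) ?_ ?_ ?_ ?_ ?_
  · intro c _
    exact Finset.mem_range.2 (ZMod.val_lt c)
  · intro a _
    exact Finset.mem_univ _
  · intro c _
    exact ZMod.natCast_zmod_val c
  · intro a ha
    exact ZMod.val_cast_of_lt (Finset.mem_range.1 ha)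
  · intro c _
    rfl

lemma sum_zmod_lt {L : ℕ} (hL : L ≤ l) (w : ℕ → ℝ) :
    ∑ c : ZMod l, (if c.val < L then w c.val else 0) = ∑ a ∈ Finset.range L, w a := by
  rw [sum_zmod (l := l) fun a => if a < L then w a else 0, ← Finset.sum_filter]
  congr 1
  ext a
  simp only [Finset.mem_filter, Finset.mem_range]
  omega

/-- the indicator function of the box with the sides `Lb` -/
def ind (Lb : Fin d → ℕ) (y : Fin d → ZMod l) : ℝ := if ∀ k, (y k).val < Lb k then 1 else 0

lemma ind_nonneg (Lb : Fin d → ℕ) (y : Fin d → ZMod l) : 0 ≤ ind Lb y := by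
  unfold ind; split_ifs <;> norm_num

lemma ind_prod (Lb : Fin d → ℕ) (y : Fin d → ZMod l) :
    ind Lb y = ∏ k, (if (y k).val < Lb k then (1 : ℝ) else 0) := by
  unfold ind
  by_cases h : ∀ k, (y k).val < Lb k
  · rw [if_pos h, Finset.prod_congr rfl fun k _ => if_pos (h k), Finset.prod_const_one]
  · rw [if_neg h]
    push Not at h
    obtain ⟨k, hk⟩ := h
    exact (Finset.prod_eq_zero (Finset.mem_univ k) (if_neg (by omega))).symm

/-- sums over a box of a function of one coordinate -/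
lemma box_sum (Lb : Fin d → ℕ) (hL : ∀ k, Lb k ≤ l) (k0 : Fin d) (w : ℕ → ℝ) :
    ∑ y : Fin d → ZMod l, ind Lb y * w (y k0).val =
      (∑ a ∈ Finset.range (Lb k0), w a) * ∏ k ∈ Finset.univ.erase k0, (Lb k : ℝ) := by
  have h1 : ∀ y : Fin d → ZMod l, ind Lb y * w (y k0).val =
      ∏ k, (if (y k).val < Lb k then (if k = k0 then w (y k).val else 1) else 0) := by
    intro y
    rw [ind_prod, ← Finset.mul_prod_erase Finset.univ _ (Finset.mem_univ k0),
      ← Finset.mul_prod_erase Finset.univ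
        (fun k => if (y k).val < Lb k then (if k = k0 then w (y k).val else 1) else 0)
        (Finset.mem_univ k0)]
    have h2 : ∏ k ∈ Finset.univ.erase k0,
        (if (y k).val < Lb k then (if k = k0 then w (y k).val else 1) else 0) =
        ∏ k ∈ Finset.univ.erase k0, (if (y k).val < Lb k then (1 : ℝ) else 0) := by
      refine Finset.prod_congr rfl fun k hk => ?_
      rw [if_neg (Finset.ne_of_mem_erase hk)]
    rw [h2]
    simp only [if_true]
    split_ifs <;> ring
  rw [Finset.sum_congr rfl fun y _ => h1 y]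
  have h3 := Finset.prod_univ_sum (t := fun _ : Fin d => (Finset.univ : Finset (ZMod l)))
    (f := fun k c => if c.val < Lb k then (if k = k0 then w c.val else (1 : ℝ)) else 0)
  rw [Fintype.piFinset_univ] at h3
  rw [← h3]
  have h4 : ∀ k, ∑ c : ZMod l, (if c.val < Lb k then (if k = k0 then w c.val else (1 : ℝ)) else 0) =
      ∑ a ∈ Finset.range (Lb k), (if k = k0 then w a else 1) := fun k =>
    sum_zmod_lt (hL k) fun a => if k = k0 then w a else 1
  rw [Finset.prod_congr rfl fun k _ => h4 k,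
    ← Finset.mul_prod_erase Finset.univ _ (Finset.mem_univ k0)]
  simp only [if_true]
  congr 1
  refine Finset.prod_congr rfl fun k hk => ?_
  rw [Finset.sum_congr rfl fun a _ => if_neg (Finset.ne_of_mem_erase hk), Finset.sum_const,
    Finset.card_range, nsmul_eq_mul, mul_one]

lemma box_card (Lb : Fin d → ℕ) (hL : ∀ k, Lb k ≤ l) (k0 : Fin d) :
    ∑ y : Fin d → ZMod l, ind Lb y = ∏ k, (Lb k : ℝ) := by
  have h1 := box_sum Lb hL k0 fun _ => 1
  simp only [mul_one, Finset.sum_const, Finset.card_range, nsmul_eq_mul] at h1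
  rw [h1]
  exact Finset.mul_prod_erase Finset.univ (fun k => (Lb k : ℝ)) (Finset.mem_univ k0)

lemma box_sum_le (Lb : Fin d → ℕ) (hL : ∀ k, Lb k ≤ l) (k0 : Fin d) (w : ℕ → ℝ) {W : ℝ}
    (hw : ∑ a ∈ Finset.range (Lb k0), w a ≤ Lb k0 * W) :
    ∑ y : Fin d → ZMod l, ind Lb y * w (y k0).val ≤ (∏ k, (Lb k : ℝ)) * W := by
  rw [box_sum Lb hL k0 w, ← Finset.mul_prod_erase Finset.univ (fun k => (Lb k : ℝ))
    (Finset.mem_univ k0)]
  have h1 : 0 ≤ ∏ k ∈ Finset.univ.erase k0, (Lb k : ℝ) :=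
    Finset.prod_nonneg fun k _ => Nat.cast_nonneg _
  have h2 := mul_le_mul_of_nonneg_right hw h1
  linarith

/-- the number of points of a box with one coordinate given -/
lemma box_slice (Lb : Fin d → ℕ) (hL : ∀ k, Lb k ≤ l) (k0 : Fin d) (a0 : ℕ) :
    ∑ y : Fin d → ZMod l, ind Lb y * (if (y k0).val = a0 then 1 else 0) ≤
      ∏ k ∈ Finset.univ.erase k0, (Lb k : ℝ) := by
  rw [box_sum Lb hL k0 fun a => if a = a0 then 1 else 0]
  have h1 : 0 ≤ ∏ k ∈ Finset.univ.erase k0, (Lb k : ℝ) :=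
    Finset.prod_nonneg fun k _ => Nat.cast_nonneg _
  have h2 : ∑ a ∈ Finset.range (Lb k0), (if a = a0 then (1 : ℝ) else 0) ≤ 1 := by
    rw [Finset.sum_ite_eq']
    split_ifs <;> norm_num
  have := mul_le_mul_of_nonneg_right h2 h1
  linarith

/-- the weight of a coordinate -/
def gJ (J c : ℕ) : ℝ := ∑ q ∈ Finset.range (J + 1), if 2 ^ q ∣ c + 1 then (2 : ℝ) ^ q else 0

lemma gJ_nonneg (J c : ℕ) : 0 ≤ gJ J c :=
  Finset.sum_nonneg fun q _ => by split_ifs <;> positivity

lemma le_gJ {J c q : ℕ} (hq : q ≤ J) (h : 2 ^ q ∣ c + 1) : (2 : ℝ) ^ q ≤ gJ J c := by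
  have h1 := Finset.single_le_sum (f := fun q => if 2 ^ q ∣ c + 1 then (2 : ℝ) ^ q else 0)
    (s := Finset.range (J + 1)) (fun q _ => by split_ifs <;> positivity)
    (Finset.mem_range.2 (Nat.lt_succ_of_le hq))
  simp only [if_pos h] at h1
  exact h1

lemma sum_gJ (J M : ℕ) : ∑ c ∈ Finset.range M, gJ J c ≤ M * (J + 1) := by
  unfold gJ
  rw [Finset.sum_comm]
  have h1 : ∀ q ∈ Finset.range (J + 1),
      ∑ c ∈ Finset.range M, (if 2 ^ q ∣ c + 1 then (2 : ℝ) ^ q else 0) ≤ M := by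
    intro q _
    rw [← Finset.sum_filter, Finset.sum_const, Nat.card_multiples, nsmul_eq_mul]
    have h2 : M / 2 ^ q * 2 ^ q ≤ M := Nat.div_mul_le_self M (2 ^ q)
    exact_mod_cast h2
  refine (Finset.sum_le_sum h1).trans (le_of_eq ?_)
  rw [Finset.sum_const, Finset.card_range, nsmul_eq_mul]
  push_cast
  ring

end

end Pool.Agent.Q2.TH
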