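import Mathlib
import Pool.Agent.Q2.TH.Shift
import Pool.Agent.Q2.TH.Sums

/-!
# The cost of the shift: the mean square mismatches
-/

open MeasureTheory Matrix Filter
open scoped Matrix.Norms.Frobenius ContDiff Topology
open Pool.Agent.H906R3.YM hiding Pl
open Pool.Agent.W793.YM Pool.Agent.TH618.YM Pool.Agent.Y14 Pool.Agent.Q204.PL

namespace Pool.Agent.Q2.TH

set_option linter.unusedSectionVars false
set_option linter.unusedVariables false

noncomputable section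

variable {G : Type*} [Group G] [TopologicalSpace G] [IsTopologicalGroup G] [CompactSpace G]
  [SecondCountableTopology G] [MeasurableSpace G] [BorelSpace G] (μ : Measure G)
  [IsProbabilityMeasure μ] [μ.IsMulLeftInvariant] [μ.IsMulRightInvariant] [μ.IsInvInvariant]
  {N n' : ℕ} {L : LD G N n'} {d m : ℕ} [NeZero m] {β : ℝ} {J : ℕ}

lemma vl_add {l : ℕ} [NeZero l] {y : Fin d → ZMod l} {i : Fin d} (h : vl y i + 1 < l) :
    vl (y + eT i) = up (vl y) i 1 := by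
  have h1 : y + eT i = ct l (up (vl y) i 1) := by
    rw [ct_up, ct_vl, one_smul]
  rw [h1, vl_ct]
  intro k
  by_cases hk : k = i
  · subst hk
    rw [up_same]; exact h
  · rw [up_ne _ hk]
    exact ZMod.val_lt _

lemma vl_add_ne {l : ℕ} [NeZero l] (y : Fin d → ZMod l) {i k : Fin d} (h : k ≠ i) :
    vl (y + eT i) k = vl y k := by
  unfold vl eT
  simp [h]

lemma vl_wrap {l : ℕ} [NeZero l] {y : Fin d → ZMod l} {i : Fin d} (h : vl y i + 1 = l) :
    vl (y + eT i) i = 0 := by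
  have h1 : (y + (eT i : Fin d → ZMod l)) i = 0 := by
    have h2 : y i = ((vl y i : ℕ) : ZMod l) := (ZMod.natCast_zmod_val _).symm
    have h3 : (y + (eT i : Fin d → ZMod l)) i = y i + 1 := by unfold eT; simp
    rw [h3, h2]
    have h4 : ((vl y i : ℕ) : ZMod l) + 1 = ((vl y i + 1 : ℕ) : ZMod l) := by push_cast; ring
    rw [h4, h, ZMod.natCast_self]
  unfold vl
  rw [h1, ZMod.val_zero]

lemma gg_mm {l : ℕ} [NeZero l] (U : Ed d l → G) {y : Fin d → ZMod l} {i : Fin d}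
    (h : vl y i + 1 < l) : gg J U y i = mm U (lvs d 0 (J + 1)) (vl y) i (2 ^ 0) := by
  unfold gg PP mm
  have e : ln U i 1 (ct l (vl y)) = U (y, i) := by
    rw [ct_vl]
    show U (y, i) * 1 = U (y, i)
    rw [mul_one]
  rw [vl_add h, pow_zero, e]

lemma PP_cont {l : ℕ} (y : Fin d → ZMod l) : Continuous fun U : Ed d l → G => PP J U y :=
  fm_cont _ _

lemma gg_cont {l : ℕ} (y : Fin d → ZMod l) (i : Fin d) :
    Continuous fun U : Ed d l → G => gg J U y i :=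
  ((PP_cont y).inv.mul (continuous_apply _)).mul (PP_cont _)

lemma dvgg_cont {l : ℕ} (y : Fin d → ZMod l) (i : Fin d) :
    Continuous fun U : Ed d l → G => dv L (gg J U y i) ^ 2 :=
  (dv_cont.comp (gg_cont y i)).pow 2

/-- the constant -/
def Cg (d N : ℕ) : ℝ := 96 * d ^ 2 * N ^ 2 * Cd d

lemma Cd_ge (d : ℕ) : 1 ≤ Cd d := by
  unfold Cd
  have : (0 : ℝ) ≤ d := Nat.cast_nonneg _
  nlinarith

lemma Cd_pos (d : ℕ) : 0 < Cd d := lt_of_lt_of_le one_pos (Cd_ge d)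

lemma sum_sqrt (K : ℝ) (hK : 0 ≤ K) (v : ℕ) :
    ∑ q ∈ Finset.range (v + 1), Real.sqrt (K * 2 ^ q) ≤ 4 * Real.sqrt (K * 2 ^ v) := by
  induction v with
  | zero =>
    rw [Finset.sum_range_one]
    have := Real.sqrt_nonneg (K * 2 ^ 0)
    linarith
  | succ v ih =>
    rw [Finset.sum_range_succ]
    have h0 := Real.sqrt_nonneg (K * 2 ^ v)
    have h1 := Real.sqrt_nonneg (K * 2 ^ (v + 1))
    have h2 := Real.sq_sqrt (by positivity : 0 ≤ K * 2 ^ v)
    have h3 := Real.sq_sqrt (by positivity : 0 ≤ K * 2 ^ (v + 1))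
    have h4 : 4 * Real.sqrt (K * 2 ^ v) ≤ 3 * Real.sqrt (K * 2 ^ (v + 1)) := by
      refine (pow_le_pow_iff_left₀ (by positivity) (by positivity) two_ne_zero).1 ?_
      rw [mul_pow, mul_pow, h2, h3]
      have h5 : 0 ≤ K * 2 ^ v := by positivity
      have h6 : K * 2 ^ (v + 1) = 2 * (K * 2 ^ v) := by rw [pow_succ]; ring
      rw [h6]
      linarith
    linarith

lemma ps_le (hm : 2 ≤ m) (hN : 1 ≤ N) (hd : 4 ≤ d) (hβ : 0 < β) {i j : Fin d} (hij : j ≠ i)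
    {k ℓ : ℕ} (hk : 2 ^ k < m) (hℓ : ℓ ≤ 2 ^ (k + 1)) :
    ps μ L m β j i (2 ^ k) ℓ ≤ Real.sqrt (6 * N ^ 2 * Cd d / β * 2 ^ k) := by
  refine Real.le_sqrt_of_sq_le ?_
  rw [ps_sq μ hN]
  have h1 := perim μ (L := L) hm hN hd hβ hij (R := 2 ^ k) (T := ℓ) hk (by
    rw [pow_succ] at hℓ; omega)
  have hN0 : (0 : ℝ) < N := by
    have : (1 : ℝ) ≤ N := by exact_mod_cast hN
    linarith
  have h2 : (((2 ^ k : ℕ) : ℝ) + ℓ) ≤ 3 * 2 ^ k := by
    have : (ℓ : ℝ) ≤ 2 ^ (k + 1) := by exact_mod_cast hℓ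
    rw [pow_succ] at this
    push_cast
    linarith
  have hC := Cd_pos d
  have h3 : Cd d * N * (((2 ^ k : ℕ) : ℝ) + ℓ) / β ≤ Cd d * N * (3 * 2 ^ k) / β :=
    div_le_div_of_nonneg_right (mul_le_mul_of_nonneg_left h2 (by positivity)) hβ.le
  have h4 := mul_le_mul_of_nonneg_left (h1.trans h3) (by positivity : (0 : ℝ) ≤ 2 * N)
  refine h4.trans (le_of_eq ?_)
  ring

lemma EX_dv_le (hN : 1 ≤ N) {l : ℕ} [NeZero l] {g : (Ed d l → G) → G} (hg : Continuous g) :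
    EX μ L β (fun U : Ed d l → G => dv L (g U) ^ 2) ≤ 4 * N ^ 2 := by
  have h1 := EX_mono μ (L := L) (β := β) (F := fun U : Ed d l → G => dv L (g U) ^ 2)
    (H := fun _ => (4 * N ^ 2 : ℝ)) ((dv_cont.comp hg).pow 2) continuous_const fun U => by
      have h2 := dv_le_two (L := L) hN (g U)
      have h3 := pow_le_pow_left₀ (dv_nonneg (L := L) (g U)) h2 2
      refine h3.trans (le_of_eq ?_)
      ring
  rwa [EX_const] at h1

/-- the mean square mismatch of neighbouring frames -/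
theorem EX_gg (hm : 2 ^ J < m) (hN : 1 ≤ N) (hd : 4 ≤ d) (hβ : (2 : ℝ) ^ J ≤ β)
    (hβ' : β ≤ 2 ^ (J + 1)) {y : Fin d → ZMod (2 * m)} {i : Fin d} (h : vl y i + 1 < 2 * m)
    (hm2 : 2 ≤ m) :
    β * EX μ L β (fun U : Ed d (2 * m) → G => dv L (gg J U y i) ^ 2) ≤
      Cg d N * gJ J (vl y i) := by
  have hβ0 : 0 < β := lt_of_lt_of_le (by positivity) hβ
  have hC := Cd_ge d
  have hN1 : (1 : ℝ) ≤ N := by exact_mod_cast hN
  have hd1 : (1 : ℝ) ≤ d := by
    have : 1 ≤ d := by omega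
    exact_mod_cast this
  obtain ⟨v, c, hc, hvc⟩ := Nat.exists_eq_pow_mul_and_not_dvd (n := vl y i + 1) (by omega) 2
    (by norm_num)
  have hg0 := gJ_nonneg J (vl y i)
  by_cases hv : v ≤ J
  · have h1 := en_mm μ (L := L) (β := β) (m := m) i
      (fun k => Real.sqrt (6 * N ^ 2 * Cd d / β * 2 ^ k))
      (fun k hk j hj ℓ hℓ => ps_le μ hm2 hN hd hβ0 hj hk hℓ) (fun k => Real.sqrt_nonneg _) v
      0 (J + 1) (vl y) (by omega)
      (by rw [zero_add]; exact lt_of_le_of_lt (Nat.pow_le_pow_right (by norm_num) hv) hm)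
      (by rw [pow_zero]; exact one_dvd _)
      (by
        rw [pow_zero, Nat.div_one, hvc, pow_succ]
        intro hdv
        exact hc (Nat.dvd_of_mul_dvd_mul_left (by positivity) hdv))
    have h2 : (fun U : Ed d (2 * m) → G => dv L (gg J U y i) ^ 2) =
        fun U => dv L (mm U (lvs d 0 (J + 1)) (vl y) i (2 ^ 0)) ^ 2 := by
      funext U
      rw [gg_mm U h]
    rw [h2, ← en_sq]
    obtain ⟨e, he⟩ : ∃ e, e = en μ L β (fun U : Ed d (2 * m) → G =>
      dv L (mm U (lvs d 0 (J + 1)) (vl y) i (2 ^ 0))) := ⟨_, rfl⟩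
    have he0 : 0 ≤ e := by rw [he]; exact en_nonneg μ _
    rw [← he] at h1 ⊢
    simp only [zero_add] at h1
    rw [← Finset.mul_sum] at h1
    have h3 := sum_sqrt (6 * N ^ 2 * Cd d / β) (by positivity) v
    have h4 : e ≤ d * (4 * Real.sqrt (6 * N ^ 2 * Cd d / β * 2 ^ v)) :=
      h1.trans (mul_le_mul_of_nonneg_left h3 (by positivity))
    have h5 := pow_le_pow_left₀ he0 h4 2
    have h6 := Real.sq_sqrt (by positivity : 0 ≤ 6 * N ^ 2 * Cd d / β * 2 ^ v)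
    rw [mul_pow, mul_pow, h6] at h5
    have h7 : β * e ^ 2 ≤ Cg d N * 2 ^ v := by
      have := mul_le_mul_of_nonneg_left h5 hβ0.le
      refine this.trans (le_of_eq ?_)
      unfold Cg
      field_simp
      ring
    refine h7.trans (mul_le_mul_of_nonneg_left (le_gJ hv ?_) ?_)
    · rw [hvc]; exact dvd_mul_right _ _
    · unfold Cg; positivity
  · push Not at hv
    have h1 := EX_dv_le μ (L := L) (β := β) hN (gg_cont (J := J) y i)
    have h2 : (2 : ℝ) ^ J ≤ gJ J (vl y i) := by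
      refine le_gJ le_rfl ?_
      rw [hvc]
      exact dvd_mul_of_dvd_left (pow_dvd_pow 2 hv.le) c
    have h3 : β * EX μ L β (fun U : Ed d (2 * m) → G => dv L (gg J U y i) ^ 2) ≤
        2 ^ (J + 1) * (4 * N ^ 2) := mul_le_mul hβ' h1 (EX_nonneg μ fun U => sq_nonneg _)
          (by positivity)
    have h4 : (2 : ℝ) ^ (J + 1) * (4 * N ^ 2) ≤ Cg d N * 2 ^ J := by
      unfold Cg
      have h5 : (1 : ℝ) ≤ d ^ 2 * Cd d := one_le_mul_of_one_le_of_one_le (one_le_pow₀ hd1) hC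
      have h6 : (2 : ℝ) ^ (J + 1) * (4 * N ^ 2) = 8 * (N ^ 2 * 2 ^ J) := by rw [pow_succ]; ring
      have h7 : 96 * (d : ℝ) ^ 2 * N ^ 2 * Cd d * 2 ^ J =
          96 * ((d ^ 2 * Cd d) * (N ^ 2 * 2 ^ J)) := by ring
      rw [h6, h7]
      have h8 : (0 : ℝ) ≤ N ^ 2 * 2 ^ J := by positivity
      have h9 := mul_le_mul_of_nonneg_right h5 h8
      rw [one_mul] at h9
      linarith
    refine h3.trans (h4.trans (mul_le_mul_of_nonneg_left h2 ?_))
    unfold Cg; positivity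

lemma plqT_rect {l : ℕ} (U : Ed d l → G) (y : Fin d → ZMod l) (i j : Fin d) :
    plqT U y i j = rect U y i j 1 1 := by
  unfold plqT rect
  simp only [ln_succ, ln_zero, mul_one, one_smul]

lemma dvpl_cont {l : ℕ} (y : Fin d → ZMod l) (i j : Fin d) :
    Continuous fun U : Ed d l → G => dv L (plqT U y i j) ^ 2 := by
  simp only [plqT_rect]
  exact (dv_cont.comp (rect_cont _ _ _ _ _)).pow 2

/-- the mean square deviation of a plaquette -/
lemma EX_pl (hm : 2 ≤ m) (hN : 1 ≤ N) (hd : 4 ≤ d) (hβ : 0 < β) {i j : Fin d} (hij : i ≠ j)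
    (y : Fin d → ZMod (2 * m)) :
    β * EX μ L β (fun U : Ed d (2 * m) → G => dv L (plqT U y i j) ^ 2) ≤ Cg d N := by
  have h1 : EX μ L β (fun U : Ed d (2 * m) → G => dv L (plqT U y i j) ^ 2) =
      ps μ L m β i j 1 1 ^ 2 := by
    rw [← ps_x μ y i j 1 1, en_sq]
    simp only [plqT_rect]
  rw [h1, ps_sq μ hN]
  have h2 := perim μ (L := L) hm hN hd hβ hij (R := 1) (T := 1) (by omega) (by omega)
  have hN1 : (1 : ℝ) ≤ N := by exact_mod_cast hN
  have hC := Cd_ge d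
  have hd1 : (1 : ℝ) ≤ d := by
    have : 1 ≤ d := by omega
    exact_mod_cast this
  have h3 := mul_le_mul_of_nonneg_left h2 (by positivity : (0 : ℝ) ≤ β * (2 * N))
  have h4 : β * (2 * N) * (Cd d * N * (((1 : ℕ) : ℝ) + ((1 : ℕ) : ℝ)) / β) = 4 * (N ^ 2 * Cd d) := by
    field_simp
    push_cast
    ring
  rw [h4] at h3
  have h5 : Cg d N = 96 * (d ^ 2 * (N ^ 2 * Cd d)) := by unfold Cg; ring
  rw [h5]
  have h6 : (N : ℝ) ^ 2 * Cd d ≤ d ^ 2 * (N ^ 2 * Cd d) :=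
    le_mul_of_one_le_left (by positivity) (one_le_pow₀ hd1)
  have h7 : (0 : ℝ) ≤ N ^ 2 * Cd d := by positivity
  linarith

/-- the weight of a plaquette -/
def Wt (μ : Measure G) (L : LD G N n') (β : ℝ) (J : ℕ) {l : ℕ} [NeZero l] (y : Fin d → ZMod l)
    (i j : Fin d) : ℝ :=
  β * (EX μ L β (fun U : Ed d l → G => dv L (gg J U y i) ^ 2) +
    EX μ L β (fun U : Ed d l → G => dv L (gg J U y j) ^ 2) +
    EX μ L β (fun U : Ed d l → G => dv L (plqT U y i j) ^ 2))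

lemma Wt_nonneg (hβ : 0 ≤ β) {l : ℕ} [NeZero l] (y : Fin d → ZMod l) (i j : Fin d) :
    0 ≤ Wt μ L β J y i j :=
  mul_nonneg hβ (add_nonneg (add_nonneg (EX_nonneg μ fun U => sq_nonneg _)
    (EX_nonneg μ fun U => sq_nonneg _)) (EX_nonneg μ fun U => sq_nonneg _))

lemma Wt_swap {l : ℕ} [NeZero l] (y : Fin d → ZMod l) (i j : Fin d) :
    Wt μ L β J y i j = Wt μ L β J y j i := by
  unfold Wt
  have h1 : (fun U : Ed d l → G => dv L (plqT U y i j) ^ 2) =
      fun U => dv L (plqT U y j i) ^ 2 := by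
    funext U
    rw [plqT_swap U y i j, dv_inv]
  rw [h1]
  ring

lemma Wt_triv (hβ : 0 ≤ β) (hN : 1 ≤ N) {l : ℕ} [NeZero l] (y : Fin d → ZMod l) (i j : Fin d) :
    Wt μ L β J y i j ≤ 12 * N ^ 2 * β := by
  unfold Wt
  have h1 := EX_dv_le μ (L := L) (β := β) hN (gg_cont (J := J) y i)
  have h2 := EX_dv_le μ (L := L) (β := β) hN (gg_cont (J := J) y j)
  have h3 := EX_dv_le μ (L := L) (β := β) hN (g := fun U : Ed d l → G => plqT U y i j) (by
    simp only [plqT_rect]; exact rect_cont _ _ _ _ _)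
  have h4 := mul_le_mul_of_nonneg_left (add_le_add (add_le_add h1 h2) h3) hβ
  refine h4.trans (le_of_eq ?_)
  ring

lemma Wt_good (hm : 2 ^ J < m) (hm2 : 2 ≤ m) (hN : 1 ≤ N) (hd : 4 ≤ d) (hβ : (2 : ℝ) ^ J ≤ β)
    (hβ' : β ≤ 2 ^ (J + 1)) {y : Fin d → ZMod (2 * m)} {i j : Fin d} (hij : i ≠ j)
    (hi : vl y i + 1 < 2 * m) (hj : vl y j + 1 < 2 * m) :
    Wt μ L β J y i j ≤ Cg d N * (gJ J (vl y i) + gJ J (vl y j) + 1) := by
  unfold Wt
  have hβ0 : 0 < β := lt_of_lt_of_le (by positivity) hβ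
  have h1 := EX_gg μ (L := L) hm hN hd hβ hβ' hi hm2
  have h2 := EX_gg μ (L := L) hm hN hd hβ hβ' hj hm2
  have h3 := EX_pl μ (L := L) hm2 hN hd hβ0 hij y
  rw [mul_add, mul_add]
  linarith

end

end Pool.Agent.Q2.TH
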