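import Mathlib
import Pool.Agent.Q2.TH.Cost

/-!
# The cost of the shift: the sums over the lattice
-/

open MeasureTheory Matrix Filter
open Pool.Agent.H906R3.YM hiding Pl
open Pool.Agent.W793.YM Pool.Agent.TH618.YM Pool.Agent.Y14 Pool.Agent.Q204.PL

namespace Pool.Agent.Q2.TH

set_option linter.unusedSectionVars false
set_option linter.unusedVariables false

noncomputable section

variable {d l : ℕ} [NeZero l] {i0 j0 : Fin d} {R : Fin d → ℕ} {n ρ J : ℕ}

/-- the sides of the boxes -/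
def Lr (i0 j0 : Fin d) (R : Fin d → ℕ) (r : ℕ) (k : Fin d) : ℕ :=
  if k = i0 ∨ k = j0 then 2 ^ (r + 1) else R k

/-- the sides of the sheet -/
def R1 (i0 j0 : Fin d) (R : Fin d → ℕ) (k : Fin d) : ℝ := if k = i0 ∨ k = j0 then 1 else R k

/-- the area of the sheet -/
def Ar (i0 j0 : Fin d) (R : Fin d → ℕ) : ℝ := ∏ k, R1 i0 j0 R k

/-- the area of a face of the sheet -/
def Ak (i0 j0 : Fin d) (R : Fin d → ℕ) (k : Fin d) : ℝ := ∏ k' ∈ Finset.univ.erase k, R1 i0 j0 R k'

/-- the size of the boundary of the sheet -/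
def Pr (i0 j0 : Fin d) (R : Fin d → ℕ) : ℝ :=
  ∑ k, if k = i0 ∨ k = j0 then 0 else Ak i0 j0 R k

lemma R1_nonneg (k : Fin d) : 0 ≤ R1 i0 j0 R k := by
  unfold R1; split_ifs <;> positivity

lemma Ar_nonneg : 0 ≤ Ar i0 j0 R := Finset.prod_nonneg fun k _ => R1_nonneg k

lemma Ak_nonneg (k : Fin d) : 0 ≤ Ak i0 j0 R k := Finset.prod_nonneg fun k _ => R1_nonneg k

lemma Pr_nonneg : 0 ≤ Pr i0 j0 R := by
  unfold Pr
  refine Finset.sum_nonneg fun k _ => ?_
  split_ifs
  · exact le_rfl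
  · exact Ak_nonneg k

lemma prod_Lr (hij : i0 ≠ j0) {S : Finset (Fin d)} (h1 : i0 ∈ S) (h2 : j0 ∈ S) (r : ℕ) :
    ∏ k ∈ S, (Lr i0 j0 R r k : ℝ) = 4 ^ (r + 1) * ∏ k ∈ S, R1 i0 j0 R k := by
  have h3 : ∀ k, (Lr i0 j0 R r k : ℝ) =
      ((if k = i0 then (2 : ℝ) ^ (r + 1) else 1) * (if k = j0 then (2 : ℝ) ^ (r + 1) else 1)) *
        R1 i0 j0 R k := by
    intro k
    unfold Lr R1
    by_cases hi : k = i0
    · subst hi
      simp [hij]
    · by_cases hj : k = j0
      · subst hj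
        simp [hi]
      · simp [hi, hj]
  rw [Finset.prod_congr rfl fun k _ => h3 k, Finset.prod_mul_distrib, Finset.prod_mul_distrib,
    Finset.prod_ite_eq', Finset.prod_ite_eq', if_pos h1, if_pos h2, ← mul_pow]
  norm_num

lemma al_of_not (i0 j0 : Fin d) (R : Fin d → ℕ) (n : ℕ) (x : Pt d) {k : Fin d} (h1 : k ≠ i0)
    (h2 : k ≠ j0) : al i0 j0 R n x k = 0 := by
  unfold al
  rw [if_neg h2, if_neg h1]
  split_ifs <;> rfl

/-- dyadic decomposition of the potential -/
lemma al_sq_le (hn : n ≤ 2 ^ ρ) (y : Fin d → ZMod l) (k : Fin d) :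
    al i0 j0 R n (vl y) k ^ 2 ≤
      ∑ r ∈ Finset.range (ρ + 1), (1 / 4 : ℝ) ^ r * ind (Lr i0 j0 R r) y := by
  have hnn : 0 ≤ ∑ r ∈ Finset.range (ρ + 1), (1 / 4 : ℝ) ^ r * ind (Lr i0 j0 R r) y :=
    Finset.sum_nonneg fun r _ => mul_nonneg (by positivity) (ind_nonneg _ _)
  by_cases hB : inB i0 j0 R (vl y)
  · have h1 : ∀ r, ind (Lr i0 j0 R r) y =
        (if vl y i0 < 2 ^ (r + 1) then (1 : ℝ) else 0) * (if vl y j0 < 2 ^ (r + 1) then 1 else 0) := by
      intro r
      unfold ind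
      by_cases hi : vl y i0 < 2 ^ (r + 1)
      · by_cases hj : vl y j0 < 2 ^ (r + 1)
        · rw [if_pos hi, if_pos hj, if_pos, mul_one]
          intro k
          unfold Lr
          split_ifs with hk
          · rcases hk with rfl | rfl
            · exact hi
            · exact hj
          · push Not at hk
            exact hB k hk.1 hk.2
        · rw [if_neg hj, mul_zero, if_neg]
          intro h
          have := h j0
          unfold Lr at this
          rw [if_pos (Or.inr rfl)] at this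
          exact hj this
      · rw [if_neg hi, zero_mul, if_neg]
        intro h
        have := h i0
        unfold Lr at this
        rw [if_pos (Or.inl rfl)] at this
        exact hi this
    have h2 := AA_sq_le (s := vl y i0) (t := vl y j0) hn
    have h3 := AA_sq_le (s := vl y j0) (t := vl y i0) hn
    have h4 : ∀ r, (if vl y j0 < 2 ^ (r + 1) then (1 : ℝ) else 0) *
        (if vl y i0 < 2 ^ (r + 1) then 1 else 0) = ind (Lr i0 j0 R r) y := by
      intro r; rw [h1, mul_comm]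
    simp only [h4] at h3
    simp only [← h1] at h2
    unfold al
    rw [if_pos hB]
    split_ifs with hk1 hk2
    · exact h2
    · rw [neg_sq]; exact h3
    · simpa using hnn
  · unfold al
    rw [if_neg hB]
    simpa using hnn

/-- sums of the square of the potential over a slice -/
lemma sum_al_slice (hij : i0 ≠ j0) (hn : n ≤ 2 ^ ρ) (hρ : 2 ^ (ρ + 1) ≤ l) (hR : ∀ k, R k ≤ l)
    (p : Fin d) {k : Fin d} (hk1 : k ≠ i0) (hk2 : k ≠ j0) (a : ℕ) :
    ∑ y : Fin d → ZMod l, al i0 j0 R n (vl y) p ^ 2 * (if vl y k = a then 1 else 0) ≤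
      4 * (ρ + 1) * Ak i0 j0 R k := by
  have h1 : ∀ y : Fin d → ZMod l, al i0 j0 R n (vl y) p ^ 2 * (if vl y k = a then 1 else 0) ≤
      ∑ r ∈ Finset.range (ρ + 1), (1 / 4 : ℝ) ^ r *
        (ind (Lr i0 j0 R r) y * (if (y k).val = a then 1 else 0)) := by
    intro y
    have h2 := al_sq_le (i0 := i0) (j0 := j0) (R := R) hn y p
    have h3 : (0 : ℝ) ≤ if vl y k = a then 1 else 0 := by split_ifs <;> norm_num
    refine (mul_le_mul_of_nonneg_right h2 h3).trans (le_of_eq ?_)
    rw [Finset.sum_mul]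
    refine Finset.sum_congr rfl fun r _ => ?_
    unfold vl
    ring
  refine (Finset.sum_le_sum fun y _ => h1 y).trans ?_
  rw [Finset.sum_comm]
  have h4 : ∀ r ∈ Finset.range (ρ + 1), ∑ y : Fin d → ZMod l, (1 / 4 : ℝ) ^ r *
      (ind (Lr i0 j0 R r) y * (if (y k).val = a then 1 else 0)) ≤ 4 * Ak i0 j0 R k := by
    intro r hr
    rw [← Finset.mul_sum]
    have h5 := box_slice (l := l) (Lr i0 j0 R r) (fun k' => by
      unfold Lr
      split_ifs
      · exact (Nat.pow_le_pow_right (by norm_num)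
          (by have := Finset.mem_range.1 hr; omega)).trans hρ
      · exact hR k') k a
    rw [prod_Lr hij (Finset.mem_erase.2 ⟨hk1.symm, Finset.mem_univ _⟩)
      (Finset.mem_erase.2 ⟨hk2.symm, Finset.mem_univ _⟩)] at h5
    refine (mul_le_mul_of_nonneg_left h5 (by positivity)).trans (le_of_eq ?_)
    have h6 : (1 / 4 : ℝ) ^ r * (4 ^ (r + 1) * ∏ k ∈ Finset.univ.erase k, R1 i0 j0 R k) =
        ((1 / 4 : ℝ) ^ r * 4 ^ r) * 4 * Ak i0 j0 R k := by unfold Ak; ring
    rw [h6, ← mul_pow]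
    norm_num
  refine (Finset.sum_le_sum h4).trans (le_of_eq ?_)
  rw [Finset.sum_const, Finset.card_range, nsmul_eq_mul]
  push_cast
  ring

lemma inB_congr {x x' : Pt d} (h : ∀ k, k ≠ i0 → k ≠ j0 → (x k < R k ↔ x' k < R k)) :
    inB i0 j0 R x ↔ inB i0 j0 R x' := by
  unfold inB
  constructor
  · intro hx k h1 h2
    exact (h k h1 h2).1 (hx k h1 h2)
  · intro hx k h1 h2
    exact (h k h1 h2).2 (hx k h1 h2)

lemma al_congr {x x' : Pt d} (hi : x i0 = x' i0) (hj : x j0 = x' j0)
    (h : ∀ k, k ≠ i0 → k ≠ j0 → (x k < R k ↔ x' k < R k)) (p : Fin d) :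
    al i0 j0 R n x p = al i0 j0 R n x' p := by
  unfold al
  rw [hi, hj]
  by_cases hB : inB i0 j0 R x
  · rw [if_pos hB, if_pos ((inB_congr h).1 hB)]
  · rw [if_neg hB, if_neg fun h' => hB ((inB_congr h).2 h')]

lemma al_out {x : Pt d} {k : Fin d} (h1 : k ≠ i0) (h2 : k ≠ j0) (h : R k ≤ x k) (p : Fin d) :
    al i0 j0 R n x p = 0 := by
  unfold al
  rw [if_neg]
  intro hB
  exact absurd (hB k h1 h2) (not_lt.2 h)

lemma tw_pos {x : Pt d} {i j : Fin d} (h : twp i0 j0 R x i j) : tw i0 j0 R x i j = 1 := if_pos h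

lemma tw_neg {x : Pt d} {i j : Fin d} (h : ¬ twp i0 j0 R x i j) : tw i0 j0 R x i j = 0 := if_neg h

/-- the flux through the plaquettes of the plane -/
lemma fx_plane (hij : i0 ≠ j0) (hn : 1 ≤ n) (hnl : n < l) (y : Fin d → ZMod l) :
    fx i0 j0 R n y i0 j0 = if inB i0 j0 R (vl y) ∧ vl y i0 < n ∧ vl y j0 < n then
      1 / (n : ℝ) ^ 2 else 0 := by
  have hBi : inB i0 j0 R (vl (y + eT i0)) ↔ inB i0 j0 R (vl y) :=
    inB_congr fun k h1 _ => by rw [vl_add_ne y h1]
  have hBj : inB i0 j0 R (vl (y + eT j0)) ↔ inB i0 j0 R (vl y) :=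
    inB_congr fun k _ h2 => by rw [vl_add_ne y h2]
  by_cases hB : inB i0 j0 R (vl y)
  · have hs : ∀ (i : Fin d) (t : ℕ), AA n (vl (y + eT i) i) t = AA n (vl y i + 1) t := by
      intro i t
      rcases lt_or_eq_of_le (Nat.succ_le_of_lt (ZMod.val_lt (y i)) : vl y i + 1 ≤ l) with h | h
      · rw [vl_add h, up_same]
      · rw [vl_wrap h, AA_zero_left, AA_of_le (Or.inl (by omega))]
    have h1 : al i0 j0 R n (vl y) i0 = -AA n (vl y j0) (vl y i0) := by
      unfold al; rw [if_pos hB, if_neg hij, if_pos rfl]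
    have h2 : al i0 j0 R n (vl y) j0 = AA n (vl y i0) (vl y j0) := by
      unfold al; rw [if_pos hB, if_pos rfl]
    have h3 : al i0 j0 R n (vl (y + eT i0)) j0 = AA n (vl y i0 + 1) (vl y j0) := by
      unfold al; rw [if_pos (hBi.2 hB), if_pos rfl, hs, vl_add_ne y hij.symm]
    have h4 : al i0 j0 R n (vl (y + eT j0)) i0 = -AA n (vl y j0 + 1) (vl y i0) := by
      unfold al; rw [if_pos (hBj.2 hB), if_neg hij, if_pos rfl, hs, vl_add_ne y hij]
    have h5 : tw i0 j0 R (vl y) i0 j0 = if vl y i0 = 0 ∧ vl y j0 = 0 then 1 else 0 := by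
      by_cases h : vl y i0 = 0 ∧ vl y j0 = 0
      · rw [if_pos h, tw_pos ⟨rfl, rfl, hB, h⟩]
      · rw [if_neg h, tw_neg fun h' => h h'.2.2.2]
    unfold fx
    rw [h1, h2, h3, h4, h5]
    have h6 := AA_flux hn (vl y i0) (vl y j0)
    have h7 : (if inB i0 j0 R (vl y) ∧ vl y i0 < n ∧ vl y j0 < n then 1 / (n : ℝ) ^ 2 else 0) =
        if vl y i0 < n ∧ vl y j0 < n then 1 / (n : ℝ) ^ 2 else 0 := by
      by_cases h : vl y i0 < n ∧ vl y j0 < n
      · rw [if_pos h, if_pos ⟨hB, h⟩]
      · rw [if_neg h, if_neg fun h' => h h'.2]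
    rw [h7]
    linarith
  · rw [if_neg fun h => hB h.1]
    unfold fx
    rw [tw_neg fun h => hB h.2.2.1]
    unfold al
    rw [if_neg hB, if_neg fun h => hB (hBi.1 h), if_neg fun h => hB (hBj.1 h), if_neg hB]
    ring

/-- the difference of the potential along the sheet -/
lemma df_le (hR : ∀ k, R k < l) (y : Fin d → ZMod l) {k : Fin d} (h1 : k ≠ i0) (h2 : k ≠ j0)
    (p : Fin d) : (al i0 j0 R n (vl y) p - al i0 j0 R n (vl (y + eT k)) p) ^ 2 ≤
      al i0 j0 R n (vl y) p ^ 2 * (if vl y k = R k - 1 then 1 else 0) +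
        al i0 j0 R n (vl (y + eT k)) p ^ 2 * (if vl (y + eT k) k = 0 then 1 else 0) := by
  have e1 : vl (y + eT k) i0 = vl y i0 := vl_add_ne y h1.symm
  have e2 : vl (y + eT k) j0 = vl y j0 := vl_add_ne y h2.symm
  have n1 : 0 ≤ al i0 j0 R n (vl y) p ^ 2 * (if vl y k = R k - 1 then (1 : ℝ) else 0) := by
    split_ifs <;> positivity
  have n2 : 0 ≤ al i0 j0 R n (vl (y + eT k)) p ^ 2 *
      (if vl (y + eT k) k = 0 then (1 : ℝ) else 0) := by
    split_ifs <;> positivity
  rcases lt_or_eq_of_le (Nat.succ_le_of_lt (ZMod.val_lt (y k)) : vl y k + 1 ≤ l) with h | h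
  · have e3 : vl (y + eT k) k = vl y k + 1 := by rw [vl_add h, up_same]
    by_cases hlt : vl y k + 1 < R k
    · have e4 : al i0 j0 R n (vl y) p = al i0 j0 R n (vl (y + eT k)) p := by
        refine al_congr e1.symm e2.symm (fun k' h3 h4 => ?_) p
        by_cases hk : k' = k
        · subst hk
          rw [e3]
          omega
        · rw [vl_add_ne y hk]
      have e5 : al i0 j0 R n (vl y) p - al i0 j0 R n (vl (y + eT k)) p = 0 := by
        rw [e4, sub_self]
      have : (0 : ℝ) ^ 2 = 0 := by norm_num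
      rw [e5, this]
      linarith
    · have e4 : al i0 j0 R n (vl (y + eT k)) p = 0 := al_out h1 h2 (by rw [e3]; omega) p
      by_cases heq : vl y k + 1 = R k
      · rw [e4, sub_zero, if_pos (by omega)]
        have : (0 : ℝ) ^ 2 = 0 := by norm_num
        rw [this]
        linarith
      · have e5 : al i0 j0 R n (vl y) p = 0 := al_out h1 h2 (by omega) p
        rw [e4, e5] at *
        have : ((0 : ℝ) - 0) ^ 2 = 0 := by norm_num
        rw [this]
        linarith
  · have e5 : al i0 j0 R n (vl y) p = 0 := al_out h1 h2 (by have := hR k; omega) p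
    rw [e5, vl_wrap h, if_pos rfl, zero_sub, neg_sq]
    have : (0 : ℝ) ^ 2 = 0 := by norm_num
    rw [this]
    linarith

lemma sum_shift (k : Fin d) (F : (Fin d → ZMod l) → ℝ) : ∑ y, F (y + eT k) = ∑ y, F y :=
  Equiv.sum_comp (Equiv.addRight (eT k : Fin d → ZMod l)) F

lemma sum_df (hij : i0 ≠ j0) (hn : n ≤ 2 ^ ρ) (hρ : 2 ^ (ρ + 1) ≤ l) (hR : ∀ k, R k < l)
    {k : Fin d} (h1 : k ≠ i0) (h2 : k ≠ j0) (p : Fin d) :
    ∑ y : Fin d → ZMod l, (al i0 j0 R n (vl y) p - al i0 j0 R n (vl (y + eT k)) p) ^ 2 ≤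
      8 * (ρ + 1) * Ak i0 j0 R k := by
  refine (Finset.sum_le_sum fun y _ => df_le hR y h1 h2 p).trans ?_
  rw [Finset.sum_add_distrib]
  have h3 := sum_al_slice (l := l) hij hn hρ (fun k => (hR k).le) p h1 h2 (R k - 1)
  have h4 := sum_al_slice (l := l) hij hn hρ (fun k => (hR k).le) p h1 h2 0
  rw [← sum_shift k] at h4
  linarith

/-- all fluxes -/
theorem sum_fx (hij : i0 ≠ j0) (hi0 : i0 < j0) (hρ : 2 ^ (J + 2) ≤ l) (hR : ∀ k, R k < l) :
    ∑ y : Fin d → ZMod l, ∑ i, ∑ j, (if i < j then fx i0 j0 R (2 ^ (J + 1)) y i j ^ 2 else 0) ≤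
      Ar i0 j0 R / 4 ^ (J + 1) + 32 * (J + 2) * Pr i0 j0 R := by
  -- the plane
  have hplane : ∑ y : Fin d → ZMod l, fx i0 j0 R (2 ^ (J + 1)) y i0 j0 ^ 2 ≤
      Ar i0 j0 R / 4 ^ (J + 1) := by
    have h1 : ∀ y : Fin d → ZMod l, fx i0 j0 R (2 ^ (J + 1)) y i0 j0 ^ 2 =
        (1 / 4 ^ (J + 1)) ^ 2 * ind (Lr i0 j0 R J) y := by
      intro y
      rw [fx_plane hij Nat.one_le_two_pow (lt_of_lt_of_le (Nat.pow_lt_pow_right (by norm_num)
        (by omega)) hρ)]
      unfold ind
      by_cases h : inB i0 j0 R (vl y) ∧ vl y i0 < 2 ^ (J + 1) ∧ vl y j0 < 2 ^ (J + 1)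
      · rw [if_pos h, if_pos, mul_one]
        · congr 1
          push_cast
          rw [← pow_mul, mul_comm, pow_mul]
          norm_num
        · intro k
          unfold Lr
          split_ifs with hk
          · rcases hk with rfl | rfl
            · exact h.2.1
            · exact h.2.2
          · push Not at hk
            exact h.1 k hk.1 hk.2
      · rw [if_neg h, if_neg]
        · ring
        · intro h2
          apply h
          refine ⟨fun k hk1 hk2 => ?_, ?_, ?_⟩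
          · have := h2 k
            unfold Lr at this
            rw [if_neg (by push Not; exact ⟨hk1, hk2⟩)] at this
            exact this
          · have := h2 i0
            unfold Lr at this
            rw [if_pos (Or.inl rfl)] at this
            exact this
          · have := h2 j0
            unfold Lr at this
            rw [if_pos (Or.inr rfl)] at this
            exact this
    rw [Finset.sum_congr rfl fun y _ => h1 y, ← Finset.mul_sum, box_card (Lr i0 j0 R J) (fun k => by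
      unfold Lr
      split_ifs
      · exact (Nat.pow_le_pow_right (by norm_num) (by omega)).trans hρ
      · exact (hR k).le) i0, prod_Lr hij (Finset.mem_univ _) (Finset.mem_univ _)]
    refine le_of_eq ?_
    unfold Ar
    field_simp
  obtain ⟨K, hK⟩ : ∃ K : ℝ, K = 8 * ((J + 1 : ℕ) + 1) := ⟨_, rfl⟩
  have hK0 : 0 ≤ K := by rw [hK]; positivity
  have hsheet : ∀ k, k ≠ i0 → k ≠ j0 → ∀ p, ∑ y : Fin d → ZMod l,
      (al i0 j0 R (2 ^ (J + 1)) (vl y) p - al i0 j0 R (2 ^ (J + 1)) (vl (y + eT k)) p) ^ 2 ≤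
        K * Ak i0 j0 R k := by
    intro k h1 h2 p
    have := sum_df (l := l) (ρ := J + 1) hij le_rfl hρ hR h1 h2 p
    rw [hK]
    exact this
  -- the bound for each pair
  have hpair : ∀ i j : Fin d, i ≠ j → (i < j) → ∑ y : Fin d → ZMod l,
      fx i0 j0 R (2 ^ (J + 1)) y i j ^ 2 ≤ (if i = i0 ∧ j = j0 then Ar i0 j0 R / 4 ^ (J + 1) else 0) +
        ((if (i = i0 ∨ i = j0) then (if j = i0 ∨ j = j0 then 0 else K * Ak i0 j0 R j) else 0) +
        (if (j = i0 ∨ j = j0) then (if i = i0 ∨ i = j0 then 0 else K * Ak i0 j0 R i) else 0)) := by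
    intro i j hne hlt
    have htw : ∀ y : Fin d → ZMod l, ¬ (i = i0 ∧ j = j0) → tw i0 j0 R (vl y) i j = 0 := by
      intro y h
      exact tw_neg fun h' => h ⟨h'.1, h'.2.1⟩
    by_cases hi : i = i0 ∨ i = j0
    · by_cases hj : j = i0 ∨ j = j0
      · have h1 : i = i0 ∧ j = j0 := by
          rcases hi with rfl | rfl
          · rcases hj with rfl | rfl
            · exact absurd rfl hne
            · exact ⟨rfl, rfl⟩
          · rcases hj with rfl | rfl
            · exact absurd hlt (not_lt.2 hi0.le)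
            · exact absurd rfl hne
        obtain ⟨rfl, rfl⟩ := h1
        simp only [if_true, and_self, or_true, true_or]
        linarith
      · have hj' := hj
        push Not at hj'
        have h2 : ¬ (i = i0 ∧ j = j0) := fun h => hj'.2 h.2
        rw [if_neg h2, if_pos hi, if_neg hj, if_neg hj]
        have h3 : ∀ y : Fin d → ZMod l, fx i0 j0 R (2 ^ (J + 1)) y i j ^ 2 =
            (al i0 j0 R (2 ^ (J + 1)) (vl y) i - al i0 j0 R (2 ^ (J + 1)) (vl (y + eT j)) i) ^ 2 := by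
          intro y
          unfold fx
          rw [htw y h2, al_of_not _ _ _ _ _ hj'.1 hj'.2, al_of_not _ _ _ _ _ hj'.1 hj'.2]
          ring
        rw [Finset.sum_congr rfl fun y _ => h3 y]
        have := hsheet j hj'.1 hj'.2 i
        linarith
    · have hi' := hi
      push Not at hi'
      have h2 : ¬ (i = i0 ∧ j = j0) := fun h => hi'.1 h.1
      rw [if_neg h2, if_neg hi]
      by_cases hj : j = i0 ∨ j = j0
      · rw [if_pos hj, if_neg hi]
        have h3 : ∀ y : Fin d → ZMod l, fx i0 j0 R (2 ^ (J + 1)) y i j ^ 2 =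
            (al i0 j0 R (2 ^ (J + 1)) (vl y) j - al i0 j0 R (2 ^ (J + 1)) (vl (y + eT i)) j) ^ 2 := by
          intro y
          unfold fx
          rw [htw y h2, al_of_not _ _ _ _ _ hi'.1 hi'.2, al_of_not _ _ _ _ _ hi'.1 hi'.2]
          ring
        rw [Finset.sum_congr rfl fun y _ => h3 y]
        have := hsheet i hi'.1 hi'.2 j
        linarith
      · have hj' := hj
        push Not at hj'
        rw [if_neg hj]
        have h3 : ∀ y : Fin d → ZMod l, fx i0 j0 R (2 ^ (J + 1)) y i j ^ 2 = 0 := by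
          intro y
          unfold fx
          rw [htw y h2, al_of_not _ _ _ _ _ hi'.1 hi'.2, al_of_not _ _ _ _ _ hi'.1 hi'.2,
            al_of_not _ _ _ _ _ hj'.1 hj'.2, al_of_not _ _ _ _ _ hj'.1 hj'.2]
          ring
        rw [Finset.sum_congr rfl fun y _ => h3 y]
        simp
  -- the sum over the pairs
  have hnnA : 0 ≤ Ar i0 j0 R / 4 ^ (J + 1) := div_nonneg Ar_nonneg (by positivity)
  have hswap : ∑ y : Fin d → ZMod l, ∑ i, ∑ j,
      (if i < j then fx i0 j0 R (2 ^ (J + 1)) y i j ^ 2 else 0) =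
      ∑ i, ∑ j, ∑ y : Fin d → ZMod l,
        (if i < j then fx i0 j0 R (2 ^ (J + 1)) y i j ^ 2 else 0) := by
    rw [Finset.sum_comm]
    refine Finset.sum_congr rfl fun i _ => ?_
    rw [Finset.sum_comm]
  rw [hswap]
  have hle : ∀ i j : Fin d, ∑ y : Fin d → ZMod l,
      (if i < j then fx i0 j0 R (2 ^ (J + 1)) y i j ^ 2 else 0) ≤
      (if i = i0 ∧ j = j0 then Ar i0 j0 R / 4 ^ (J + 1) else 0) +
        ((if (i = i0 ∨ i = j0) then (if j = i0 ∨ j = j0 then 0 else K * Ak i0 j0 R j) else 0) +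
        (if (j = i0 ∨ j = j0) then (if i = i0 ∨ i = j0 then 0 else K * Ak i0 j0 R i) else 0)) := by
    intro i j
    by_cases hlt : i < j
    · simp only [if_pos hlt]
      exact hpair i j hlt.ne hlt
    · simp only [if_neg hlt, Finset.sum_const_zero]
      have t1 := mul_nonneg hK0 (Ak_nonneg (i0 := i0) (j0 := j0) (R := R) j)
      have t2 := mul_nonneg hK0 (Ak_nonneg (i0 := i0) (j0 := j0) (R := R) i)
      split_ifs <;> linarith
  refine (Finset.sum_le_sum fun i _ => Finset.sum_le_sum fun j _ => hle i j).trans ?_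
  simp only [Finset.sum_add_distrib]
  have s1 : ∑ i : Fin d, ∑ j : Fin d, (if i = i0 ∧ j = j0 then Ar i0 j0 R / 4 ^ (J + 1) else 0) =
      Ar i0 j0 R / 4 ^ (J + 1) := by
    have h1 : ∀ i : Fin d, ∑ j : Fin d, (if i = i0 ∧ j = j0 then Ar i0 j0 R / 4 ^ (J + 1) else 0) =
        if i = i0 then Ar i0 j0 R / 4 ^ (J + 1) else 0 := by
      intro i
      by_cases h : i = i0
      · simp [h]
      · simp [h]
    rw [Finset.sum_congr rfl fun i _ => h1 i]
    simp
  have hcard : (∑ i : Fin d, (if i = i0 ∨ i = j0 then (1 : ℝ) else 0)) = 2 := by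
    have h1 : ∀ i : Fin d, (if i = i0 ∨ i = j0 then (1 : ℝ) else 0) =
        (if i = i0 then 1 else 0) + (if i = j0 then 1 else 0) := by
      intro i
      by_cases h : i = i0
      · subst h; simp [hij]
      · simp [h]
    rw [Finset.sum_congr rfl fun i _ => h1 i, Finset.sum_add_distrib]
    simp
    norm_num
  have s2 : ∑ i : Fin d, ∑ j : Fin d,
      (if (i = i0 ∨ i = j0) then (if j = i0 ∨ j = j0 then 0 else K * Ak i0 j0 R j) else 0) =
      2 * (K * Pr i0 j0 R) := by
    have h1 : ∀ i : Fin d, ∑ j : Fin d,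
        (if (i = i0 ∨ i = j0) then (if j = i0 ∨ j = j0 then 0 else K * Ak i0 j0 R j) else 0) =
        (if i = i0 ∨ i = j0 then 1 else 0) * (K * Pr i0 j0 R) := by
      intro i
      unfold Pr
      by_cases h : i = i0 ∨ i = j0
      · simp only [if_pos h, one_mul]
        rw [Finset.mul_sum]
        refine Finset.sum_congr rfl fun j _ => ?_
        split_ifs <;> ring
      · simp only [if_neg h, zero_mul, Finset.sum_const_zero]
    rw [Finset.sum_congr rfl fun i _ => h1 i, ← Finset.sum_mul, hcard]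
  have s3 : ∑ i : Fin d, ∑ j : Fin d,
      (if (j = i0 ∨ j = j0) then (if i = i0 ∨ i = j0 then 0 else K * Ak i0 j0 R i) else 0) =
      2 * (K * Pr i0 j0 R) := by
    rw [Finset.sum_comm]
    exact s2
  rw [s1, s2, s3, hK]
  push_cast
  refine le_of_eq ?_
  ring

end

end Pool.Agent.Q2.TH
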