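import Mathlib
import Pool.Agent.Q2.TH.Cost2

/-!
# The cost of the shift
-/

open MeasureTheory Matrix Filter
open scoped Matrix.Norms.Frobenius ContDiff Topology
open Pool.Agent.H906R3.YM hiding Pl
open Pool.Agent.W793.YM Pool.Agent.TH618.YM Pool.Agent.Y14 Pool.Agent.Q204.PL

namespace Pool.Agent.Q2.TH

set_option linter.unusedSectionVars false
set_option linter.unusedVariables false

noncomputable section

variable {G : Type*} [Group G] [TopologicalSpace G] [IsTopologicalGroup G] [CompactSpace G]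
  [SecondCountableTopology G] [MeasurableSpace G] [BorelSpace G]
  (μ : Measure G) [IsProbabilityMeasure μ] [μ.IsMulLeftInvariant] [μ.IsMulRightInvariant]
  [μ.IsInvInvariant] {N n' : ℕ} {L : LD G N n'} {d m : ℕ} [NeZero m] {β : ℝ}
  {i0 j0 : Fin d} {R : Fin d → ℕ} {n ρ J : ℕ}

lemma Cg_nonneg (d N : ℕ) : 0 ≤ Cg d N := by
  have := Cd_pos d
  unfold Cg; positivity

/-- the potential at the edge of the torus -/
lemma al_edge {x : Pt d} {j : Fin d} (hj : j = i0 ∨ j = j0) (h : n ≤ x j) :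
    al i0 j0 R n x j = 0 := by
  unfold al
  split_ifs with h1 h2 h3
  · subst h2; exact AA_of_le (Or.inr h)
  · subst h3; rw [AA_of_le (Or.inr h), neg_zero]
  · rfl
  · rfl

lemma al_zero {x : Pt d} {i j : Fin d} (hij : i ≠ j) (hi : i = i0 ∨ i = j0)
    (hj : j = i0 ∨ j = j0) (h : x i = 0) : al i0 j0 R n x j = 0 := by
  unfold al
  split_ifs with h1 h2 h3
  · rcases hi with rfl | rfl
    · rw [h, AA_zero_left]
    · exact absurd h2.symm hij
  · rcases hi with rfl | rfl
    · exact absurd h3.symm hij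
    · rw [h, AA_zero_left, neg_zero]
  · rfl
  · rfl

/-- one term -/
lemma term_le (hm : 2 ^ (J + 1) ≤ m) (hm2 : 2 ≤ m) (hN : 1 ≤ N) (hd : 4 ≤ d)
    (hβ : (2 : ℝ) ^ J ≤ β) (hβ' : β ≤ 2 ^ (J + 1)) {i j : Fin d} (hij : i ≠ j)
    (hj : j = i0 ∨ j = j0) (y : Fin d → ZMod (2 * m)) :
    al i0 j0 R (2 ^ (J + 1)) (vl (y + eT i)) j ^ 2 * Wt μ L β J y i j ≤
      Cg d N * ∑ r ∈ Finset.range (J + 1 + 1), (1 / 4 : ℝ) ^ r * (ind (Lr i0 j0 R r) y *
        (gJ J (vl y i) + gJ J (vl y j) + 1)) +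
      (if i = i0 ∨ i = j0 then 0 else 12 * N ^ 2 * β *
        (al i0 j0 R (2 ^ (J + 1)) (vl (y + eT i)) j ^ 2 *
          (if vl (y + eT i) i = 0 then 1 else 0))) := by
  have hβ0 : 0 ≤ β := le_trans (by positivity) hβ
  have hC := Cg_nonneg d N
  have hg1 := gJ_nonneg J (vl y i)
  have hg2 := gJ_nonneg J (vl y j)
  have hJ : 2 ^ J < m := lt_of_lt_of_le (Nat.pow_lt_pow_right (by norm_num) (Nat.lt_succ_self J)) hm
  have t1 : 0 ≤ Cg d N * ∑ r ∈ Finset.range (J + 1 + 1), (1 / 4 : ℝ) ^ r *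
      (ind (Lr i0 j0 R r) y * (gJ J (vl y i) + gJ J (vl y j) + 1)) :=
    mul_nonneg hC (Finset.sum_nonneg fun r _ => mul_nonneg (by positivity)
      (mul_nonneg (ind_nonneg _ _) (by positivity)))
  have t2 : 0 ≤ (if i = i0 ∨ i = j0 then 0 else 12 * (N : ℝ) ^ 2 * β *
        (al i0 j0 R (2 ^ (J + 1)) (vl (y + eT i)) j ^ 2 *
          (if vl (y + eT i) i = 0 then 1 else 0))) := by
    split_ifs <;> positivity
  have hWn := Wt_nonneg μ (L := L) (J := J) hβ0 y i j
  rcases lt_or_eq_of_le (Nat.succ_le_of_lt (ZMod.val_lt (y i)) : vl y i + 1 ≤ 2 * m) with h | h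
  · rcases lt_or_eq_of_le (Nat.succ_le_of_lt (ZMod.val_lt (y j)) : vl y j + 1 ≤ 2 * m) with h' | h'
    · -- the main case
      have hW := Wt_good μ (L := L) hJ hm2 hN hd hβ hβ' hij h h'
      have h1 := al_sq_le (i0 := i0) (j0 := j0) (R := R) (n := 2 ^ (J + 1)) (ρ := J + 1) le_rfl
        (y + eT i) j
      have h2 : ∑ r ∈ Finset.range (J + 1 + 1), (1 / 4 : ℝ) ^ r * ind (Lr i0 j0 R r) (y + eT i) ≤
          ∑ r ∈ Finset.range (J + 1 + 1), (1 / 4 : ℝ) ^ r * ind (Lr i0 j0 R r) y := by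
        refine Finset.sum_le_sum fun r _ => mul_le_mul_of_nonneg_left ?_ (by positivity)
        unfold ind
        by_cases hc : ∀ k, ((y + (eT i : Fin d → ZMod (2 * m))) k).val < Lr i0 j0 R r k
        · rw [if_pos hc, if_pos]
          intro k
          have h3 := hc k
          by_cases hk : k = i
          · subst hk
            have h4 : vl (y + eT k) k = vl y k + 1 := by rw [vl_add h, up_same]
            have h5 : vl (y + eT k) k < Lr i0 j0 R r k := h3
            rw [h4] at h5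
            exact lt_trans (Nat.lt_succ_self _) h5
          · have h4 : vl (y + eT i) k = vl y k := vl_add_ne y hk
            have h5 : vl (y + eT i) k < Lr i0 j0 R r k := h3
            rw [h4] at h5
            exact h5
        · rw [if_neg hc]
          split_ifs <;> norm_num
      have h3 := mul_le_mul (h1.trans h2) hW hWn (Finset.sum_nonneg fun r _ =>
        mul_nonneg (by positivity) (ind_nonneg _ _))
      have h4 : (∑ r ∈ Finset.range (J + 1 + 1), (1 / 4 : ℝ) ^ r * ind (Lr i0 j0 R r) y) *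
          (Cg d N * (gJ J (vl y i) + gJ J (vl y j) + 1)) =
          Cg d N * ∑ r ∈ Finset.range (J + 1 + 1), (1 / 4 : ℝ) ^ r * (ind (Lr i0 j0 R r) y *
            (gJ J (vl y i) + gJ J (vl y j) + 1)) := by
        rw [Finset.sum_mul, Finset.mul_sum]
        refine Finset.sum_congr rfl fun r _ => ?_
        ring
      rw [h4] at h3
      linarith
    · have h1 : al i0 j0 R (2 ^ (J + 1)) (vl (y + eT i)) j = 0 := by
        refine al_edge hj ?_
        rw [vl_add_ne y hij.symm]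
        have : 2 ^ (J + 1) ≤ m := hm
        omega
      rw [h1]
      have : (0 : ℝ) ^ 2 * Wt μ L β J y i j = 0 := by ring
      rw [this]
      exact add_nonneg t1 (by rw [h1] at t2; exact t2)
  · have h0 : vl (y + eT i) i = 0 := vl_wrap h
    by_cases hi : i = i0 ∨ i = j0
    · have h1 : al i0 j0 R (2 ^ (J + 1)) (vl (y + eT i)) j = 0 := al_zero hij hi hj h0
      rw [h1]
      have : (0 : ℝ) ^ 2 * Wt μ L β J y i j = 0 := by ring
      rw [this]
      exact add_nonneg t1 (by rw [h1] at t2; exact t2)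
    · rw [if_neg hi, if_pos h0, mul_one]
      have hW := Wt_triv μ (L := L) (J := J) hβ0 hN y i j
      have h2 := mul_le_mul_of_nonneg_left hW
        (sq_nonneg (al i0 j0 R (2 ^ (J + 1)) (vl (y + eT i)) j))
      have h3 : al i0 j0 R (2 ^ (J + 1)) (vl (y + eT i)) j ^ 2 * (12 * N ^ 2 * β) =
        12 * N ^ 2 * β * al i0 j0 R (2 ^ (J + 1)) (vl (y + eT i)) j ^ 2 := by ring
      rw [h3] at h2
      linarith

/-- the bound for a pair of directions -/
def BB (d N : ℕ) (β : ℝ) (i0 j0 : Fin d) (R : Fin d → ℕ) (J : ℕ) (i j : Fin d) : ℝ :=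
  if j = i0 ∨ j = j0 then (4 * Cg d N * (J + 2) * (2 * J + 3) * Ar i0 j0 R +
    if i = i0 ∨ i = j0 then 0 else 48 * N ^ 2 * β * (J + 2) * Ak i0 j0 R i) else 0

lemma BB_nonneg (hβ : 0 ≤ β) (i j : Fin d) : 0 ≤ BB d N β i0 j0 R J i j := by
  have hC := Cg_nonneg d N
  have hA := Ar_nonneg (i0 := i0) (j0 := j0) (R := R)
  have hA' := Ak_nonneg (i0 := i0) (j0 := j0) (R := R) i
  unfold BB
  split_ifs <;> positivity

theorem pair_le (hij0 : i0 ≠ j0) (hm : 2 ^ (J + 1) ≤ m) (hm2 : 2 ≤ m) (hN : 1 ≤ N) (hd : 4 ≤ d)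
    (hβ : (2 : ℝ) ^ J ≤ β) (hβ' : β ≤ 2 ^ (J + 1)) (hR : ∀ k, R k < 2 * m) {i j : Fin d}
    (hij : i ≠ j) :
    ∑ y : Fin d → ZMod (2 * m), al i0 j0 R (2 ^ (J + 1)) (vl (y + eT i)) j ^ 2 *
      Wt μ L β J y i j ≤ BB d N β i0 j0 R J i j := by
  have hβ0 : 0 ≤ β := le_trans (by positivity) hβ
  have hC := Cg_nonneg d N
  have hρ : 2 ^ (J + 1 + 1) ≤ 2 * m := by rw [pow_succ]; omega
  unfold BB
  by_cases hj : j = i0 ∨ j = j0
  · rw [if_pos hj]
    refine (Finset.sum_le_sum fun y _ => term_le μ hm hm2 hN hd hβ hβ' hij hj y).trans ?_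
    rw [Finset.sum_add_distrib]
    refine add_le_add ?_ ?_
    · rw [← Finset.mul_sum, Finset.sum_comm]
      have h1 : ∀ r ∈ Finset.range (J + 1 + 1), ∑ y : Fin d → ZMod (2 * m), (1 / 4 : ℝ) ^ r *
          (ind (Lr i0 j0 R r) y * (gJ J (vl y i) + gJ J (vl y j) + 1)) ≤
          4 * (2 * J + 3) * Ar i0 j0 R := by
        intro r hr
        have hL : ∀ k, Lr i0 j0 R r k ≤ 2 * m := fun k => by
          unfold Lr
          split_ifs
          · exact (Nat.pow_le_pow_right (by norm_num)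
              (by have := Finset.mem_range.1 hr; omega)).trans hρ
          · exact (hR k).le
        have h2 := box_sum_le (l := 2 * m) (Lr i0 j0 R r) hL i (gJ J) (W := J + 1)
          (sum_gJ J _)
        have h3 := box_sum_le (l := 2 * m) (Lr i0 j0 R r) hL j (gJ J) (W := J + 1)
          (sum_gJ J _)
        have h4 := box_card (l := 2 * m) (Lr i0 j0 R r) hL i
        rw [prod_Lr hij0 (Finset.mem_univ _) (Finset.mem_univ _)] at h2 h3 h4
        rw [← Finset.mul_sum]
        have h5 : ∑ y : Fin d → ZMod (2 * m),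
            (ind (Lr i0 j0 R r) y * (gJ J (vl y i) + gJ J (vl y j) + 1)) =
            ∑ y : Fin d → ZMod (2 * m), ind (Lr i0 j0 R r) y * gJ J (y i).val +
            ∑ y : Fin d → ZMod (2 * m), ind (Lr i0 j0 R r) y * gJ J (y j).val +
            ∑ y : Fin d → ZMod (2 * m), ind (Lr i0 j0 R r) y := by
          rw [← Finset.sum_add_distrib, ← Finset.sum_add_distrib]
          refine Finset.sum_congr rfl fun y _ => ?_
          unfold vl
          ring
        rw [h5, h4]
        have h6 : (1 / 4 : ℝ) ^ r * 4 ^ r = 1 := by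
          rw [← mul_pow]; norm_num
        have h7 : (0 : ℝ) ≤ (1 / 4 : ℝ) ^ r := by positivity
        have h8 := mul_le_mul_of_nonneg_left (add_le_add_left (add_le_add h2 h3)
          (4 ^ (r + 1) * ∏ k, R1 i0 j0 R k)) h7
        refine h8.trans (le_of_eq ?_)
        unfold Ar
        generalize ∏ k, R1 i0 j0 R k = X
        rw [pow_succ]
        calc (1 / 4 : ℝ) ^ r * (4 ^ r * 4 * X * (J + 1) + 4 ^ r * 4 * X * (J + 1) + 4 ^ r * 4 * X) =
            ((1 / 4 : ℝ) ^ r * 4 ^ r) * (4 * (2 * J + 3) * X) := by ring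
          _ = _ := by rw [h6, one_mul]
      have h2 := Finset.sum_le_sum h1
      rw [Finset.sum_const, Finset.card_range, nsmul_eq_mul] at h2
      refine (mul_le_mul_of_nonneg_left h2 hC).trans (le_of_eq ?_)
      push_cast
      ring
    · by_cases hi : i = i0 ∨ i = j0
      · simp only [if_pos hi]
        rw [Finset.sum_const_zero]
      · simp only [if_neg hi]
        have hi' := hi
        push Not at hi'
        rw [← Finset.mul_sum]
        have h1 := sum_al_slice (l := 2 * m) (n := 2 ^ (J + 1)) (ρ := J + 1) hij0 le_rfl hρ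
          (fun k => (hR k).le) j hi'.1 hi'.2 0
        rw [← sum_shift i] at h1
        have h2 : (0 : ℝ) ≤ 12 * N ^ 2 * β := by positivity
        refine (mul_le_mul_of_nonneg_left h1 h2).trans (le_of_eq ?_)
        push_cast
        ring
  · rw [if_neg hj]
    push Not at hj
    refine le_of_eq (Finset.sum_eq_zero fun y _ => ?_)
    rw [al_of_not _ _ _ _ _ hj.1 hj.2]
    ring

/-- the random cost -/
def QQ (L : LD G N n') (i0 j0 : Fin d) (R : Fin d → ℕ) (J : ℕ) {l : ℕ} [NeZero l]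
    (U : Ed d l → G) : ℝ :=
  ∑ y, ∑ i, ∑ j, if i < j then (fx i0 j0 R (2 ^ (J + 1)) y i j ^ 2 +
        (al i0 j0 R (2 ^ (J + 1)) (vl (y + eT i)) j ^ 2 +
          al i0 j0 R (2 ^ (J + 1)) (vl (y + eT j)) i ^ 2) *
          (dv L (gg J U y i) ^ 2 + dv L (gg J U y j) ^ 2 + dv L (plqT U y i j) ^ 2)) else 0

lemma QQ_nonneg {l : ℕ} [NeZero l] (U : Ed d l → G) : 0 ≤ QQ L i0 j0 R J U := by
  unfold QQ
  refine Finset.sum_nonneg fun y _ => Finset.sum_nonneg fun i _ => Finset.sum_nonneg fun j _ => ?_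
  split_ifs <;> positivity

/-- one summand -/
def qq (L : LD G N n') (i0 j0 : Fin d) (R : Fin d → ℕ) (J : ℕ) {l : ℕ} [NeZero l]
    (y : Fin d → ZMod l) (i j : Fin d) (U : Ed d l → G) : ℝ :=
  if i < j then (fx i0 j0 R (2 ^ (J + 1)) y i j ^ 2 +
        (al i0 j0 R (2 ^ (J + 1)) (vl (y + eT i)) j ^ 2 +
          al i0 j0 R (2 ^ (J + 1)) (vl (y + eT j)) i ^ 2) *
          (dv L (gg J U y i) ^ 2 + dv L (gg J U y j) ^ 2 + dv L (plqT U y i j) ^ 2)) else 0

lemma cont3 {l : ℕ} [NeZero l] (y : Fin d → ZMod l) (i j : Fin d) :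
    Continuous fun U : Ed d l → G =>
      dv L (gg J U y i) ^ 2 + dv L (gg J U y j) ^ 2 + dv L (plqT U y i j) ^ 2 :=
  ((dvgg_cont y i).add (dvgg_cont y j)).add (dvpl_cont y i j)

lemma qq_cont {l : ℕ} [NeZero l] (y : Fin d → ZMod l) (i j : Fin d) :
    Continuous (qq L i0 j0 R J y i j) := by
  unfold qq
  by_cases h : i < j
  · simp only [if_pos h]
    exact continuous_const.add (continuous_const.mul (cont3 y i j))
  · simp only [if_neg h]
    exact continuous_const

lemma QQ_cont {l : ℕ} [NeZero l] : Continuous (QQ L i0 j0 R J : (Ed d l → G) → ℝ) := by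
  have h : (QQ L i0 j0 R J : (Ed d l → G) → ℝ) = fun U => ∑ y, ∑ i, ∑ j, qq L i0 j0 R J y i j U :=
    rfl
  rw [h]
  exact continuous_finsetSum _ fun y _ => continuous_finsetSum _ fun i _ =>
    continuous_finsetSum _ fun j _ => qq_cont y i j

lemma EX_qq {l : ℕ} [NeZero l] (y : Fin d → ZMod l) (i j : Fin d) :
    β * EX μ L β (qq L i0 j0 R J y i j) = if i < j then (β * fx i0 j0 R (2 ^ (J + 1)) y i j ^ 2 +
      (al i0 j0 R (2 ^ (J + 1)) (vl (y + eT i)) j ^ 2 * Wt μ L β J y i j +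
        al i0 j0 R (2 ^ (J + 1)) (vl (y + eT j)) i ^ 2 * Wt μ L β J y j i)) else 0 := by
  unfold qq
  by_cases h : i < j
  · simp only [if_pos h]
    have c1 : Continuous fun U : Ed d l → G => dv L (gg J U y i) ^ 2 := dvgg_cont y i
    have c2 : Continuous fun U : Ed d l → G => dv L (gg J U y j) ^ 2 := dvgg_cont y j
    have c3 : Continuous fun U : Ed d l → G => dv L (plqT U y i j) ^ 2 := dvpl_cont y i j
    have c12 : Continuous fun U : Ed d l → G => dv L (gg J U y i) ^ 2 + dv L (gg J U y j) ^ 2 :=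
      c1.add c2
    have c4 : Continuous fun U : Ed d l → G => (al i0 j0 R (2 ^ (J + 1)) (vl (y + eT i)) j ^ 2 +
          al i0 j0 R (2 ^ (J + 1)) (vl (y + eT j)) i ^ 2) *
          (dv L (gg J U y i) ^ 2 + dv L (gg J U y j) ^ 2 + dv L (plqT U y i j) ^ 2) :=
      continuous_const.mul (cont3 y i j)
    have c5 : Continuous fun _ : Ed d l → G => fx i0 j0 R (2 ^ (J + 1)) y i j ^ 2 :=
      continuous_const
    rw [EX_add μ c5 c4, EX_const, EX_smul, EX_add μ c12 c3, EX_add μ c1 c2, Wt_swap μ y j i]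
    unfold Wt
    ring
  · simp only [if_neg h]
    rw [EX_const, mul_zero]

lemma sum_BB (i0 j0 : Fin d) (hij0 : i0 ≠ j0) (R : Fin d → ℕ) :
    ∑ i, ∑ j, BB d N β i0 j0 R J i j = 8 * d * Cg d N * (J + 2) * (2 * J + 3) * Ar i0 j0 R +
      96 * N ^ 2 * β * (J + 2) * Pr i0 j0 R := by
  have h1 : ∀ i, ∑ j, BB d N β i0 j0 R J i j =
      2 * (4 * Cg d N * (J + 2) * (2 * J + 3) * Ar i0 j0 R +
      if i = i0 ∨ i = j0 then 0 else 48 * N ^ 2 * β * (J + 2) * Ak i0 j0 R i) := by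
    intro i
    unfold BB
    generalize (4 * Cg d N * (J + 2) * (2 * J + 3) * Ar i0 j0 R +
      if i = i0 ∨ i = j0 then 0 else 48 * (N : ℝ) ^ 2 * β * (J + 2) * Ak i0 j0 R i) = K
    have h2 : ∀ j : Fin d, (if j = i0 ∨ j = j0 then K else 0) =
        (if j = i0 then K else 0) + (if j = j0 then K else 0) := by
      intro j
      by_cases h3 : j = i0
      · subst h3; simp [hij0]
      · by_cases h4 : j = j0
        · subst h4; simp [h3]
        · simp [h3, h4]
    rw [Finset.sum_congr rfl fun j _ => h2 j, Finset.sum_add_distrib, Finset.sum_ite_eq',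
      Finset.sum_ite_eq', if_pos (Finset.mem_univ _), if_pos (Finset.mem_univ _)]
    ring
  rw [Finset.sum_congr rfl fun i _ => h1 i, ← Finset.mul_sum, Finset.sum_add_distrib,
    Finset.sum_const, Finset.card_univ, Fintype.card_fin, nsmul_eq_mul]
  have h2 : ∑ i, (if i = i0 ∨ i = j0 then 0 else 48 * (N : ℝ) ^ 2 * β * (J + 2) * Ak i0 j0 R i) =
      48 * N ^ 2 * β * (J + 2) * Pr i0 j0 R := by
    unfold Pr
    rw [Finset.mul_sum]
    refine Finset.sum_congr rfl fun i _ => ?_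
    split_ifs <;> ring
  rw [h2]
  ring

/-- **The cost of the shift.** -/
theorem cost (hi0 : i0 < j0) (hm : 2 ^ (J + 1) ≤ m) (hm2 : 2 ≤ m) (hN : 1 ≤ N) (hd : 4 ≤ d)
    (hβ : (2 : ℝ) ^ J ≤ β) (hβ' : β ≤ 2 ^ (J + 1)) (hR : ∀ k, R k < 2 * m) :
    β * EX μ L β (QQ L i0 j0 R J : (Ed d (2 * m) → G) → ℝ) ≤
      (1 + 8 * d * Cg d N * (J + 2) * (2 * J + 3)) * Ar i0 j0 R +
        (32 + 96 * N ^ 2) * β * (J + 2) * Pr i0 j0 R := by
  have hβ0 : 0 ≤ β := le_trans (by positivity) hβ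
  have hij0 := hi0.ne
  have hρ : 2 ^ (J + 2) ≤ 2 * m := by
    have : 2 ^ (J + 2) = 2 * 2 ^ (J + 1) := by rw [pow_succ]; ring
    omega
  have h : (QQ L i0 j0 R J : (Ed d (2 * m) → G) → ℝ) =
      fun U => ∑ y, ∑ i, ∑ j, qq L i0 j0 R J y i j U := rfl
  have h1 : β * EX μ L β (QQ L i0 j0 R J : (Ed d (2 * m) → G) → ℝ) =
      ∑ y : Fin d → ZMod (2 * m), ∑ i, ∑ j, β * EX μ L β (qq L i0 j0 R J y i j) := by
    rw [h, EX_sum μ _ fun y _ => continuous_finsetSum _ fun i _ =>
      continuous_finsetSum _ fun j _ => qq_cont y i j, Finset.mul_sum]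
    refine Finset.sum_congr rfl fun y _ => ?_
    rw [EX_sum μ _ fun i _ => continuous_finsetSum _ fun j _ => qq_cont y i j, Finset.mul_sum]
    refine Finset.sum_congr rfl fun i _ => ?_
    rw [EX_sum μ _ fun j _ => qq_cont y i j, Finset.mul_sum]
  rw [h1]
  have h2 : ∑ y : Fin d → ZMod (2 * m), ∑ i, ∑ j, β * EX μ L β (qq L i0 j0 R J y i j) =
      β * ∑ y : Fin d → ZMod (2 * m), ∑ i, ∑ j,
        (if i < j then fx i0 j0 R (2 ^ (J + 1)) y i j ^ 2 else 0) +
      ∑ i, ∑ j, (if i < j then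
        (∑ y : Fin d → ZMod (2 * m), al i0 j0 R (2 ^ (J + 1)) (vl (y + eT i)) j ^ 2 *
          Wt μ L β J y i j) + (∑ y : Fin d → ZMod (2 * m),
        al i0 j0 R (2 ^ (J + 1)) (vl (y + eT j)) i ^ 2 * Wt μ L β J y j i) else 0) := by
    have e1 : ∑ i, ∑ j, (if i < j then
        (∑ y : Fin d → ZMod (2 * m), al i0 j0 R (2 ^ (J + 1)) (vl (y + eT i)) j ^ 2 *
          Wt μ L β J y i j) + (∑ y : Fin d → ZMod (2 * m),
        al i0 j0 R (2 ^ (J + 1)) (vl (y + eT j)) i ^ 2 * Wt μ L β J y j i) else 0) =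
        ∑ y : Fin d → ZMod (2 * m), ∑ i, ∑ j, (if i < j then
        (al i0 j0 R (2 ^ (J + 1)) (vl (y + eT i)) j ^ 2 * Wt μ L β J y i j +
        al i0 j0 R (2 ^ (J + 1)) (vl (y + eT j)) i ^ 2 * Wt μ L β J y j i) else 0) := by
      rw [Finset.sum_comm]
      conv_rhs => rw [Finset.sum_comm]
      rw [Finset.sum_comm]
      refine Finset.sum_congr rfl fun i _ => ?_
      rw [Finset.sum_comm]
      refine Finset.sum_congr rfl fun j _ => ?_
      by_cases hc : i < j
      · simp only [if_pos hc]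
        rw [Finset.sum_add_distrib]
      · simp only [if_neg hc]
        rw [Finset.sum_const_zero]
    rw [e1, Finset.mul_sum, ← Finset.sum_add_distrib]
    refine Finset.sum_congr rfl fun y _ => ?_
    rw [Finset.mul_sum, ← Finset.sum_add_distrib]
    refine Finset.sum_congr rfl fun i _ => ?_
    rw [Finset.mul_sum, ← Finset.sum_add_distrib]
    refine Finset.sum_congr rfl fun j _ => ?_
    rw [EX_qq]
    split_ifs <;> ring
  rw [h2]
  have h3 := mul_le_mul_of_nonneg_left (sum_fx (l := 2 * m) hij0 hi0 hρ hR) hβ0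
  have h4 : ∑ i, ∑ j, (if i < j then
        (∑ y : Fin d → ZMod (2 * m), al i0 j0 R (2 ^ (J + 1)) (vl (y + eT i)) j ^ 2 *
          Wt μ L β J y i j) + (∑ y : Fin d → ZMod (2 * m),
        al i0 j0 R (2 ^ (J + 1)) (vl (y + eT j)) i ^ 2 * Wt μ L β J y j i) else 0) ≤
      ∑ i, ∑ j, BB d N β i0 j0 R J i j := by
    have e1 : ∑ i, ∑ j, (if i < j then
        (∑ y : Fin d → ZMod (2 * m), al i0 j0 R (2 ^ (J + 1)) (vl (y + eT i)) j ^ 2 *
          Wt μ L β J y i j) + (∑ y : Fin d → ZMod (2 * m),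
        al i0 j0 R (2 ^ (J + 1)) (vl (y + eT j)) i ^ 2 * Wt μ L β J y j i) else 0) ≤
        ∑ i, ∑ j, (if i < j then BB d N β i0 j0 R J i j else 0) +
        ∑ i, ∑ j, (if i < j then BB d N β i0 j0 R J j i else 0) := by
      rw [← Finset.sum_add_distrib]
      refine Finset.sum_le_sum fun i _ => ?_
      rw [← Finset.sum_add_distrib]
      refine Finset.sum_le_sum fun j _ => ?_
      by_cases hc : i < j
      · simp only [if_pos hc]
        exact add_le_add (pair_le μ hij0 hm hm2 hN hd hβ hβ' hR hc.ne)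
          (pair_le μ hij0 hm hm2 hN hd hβ hβ' hR hc.ne')
      · simp only [if_neg hc]
        norm_num
    refine e1.trans ?_
    have e2 : ∑ i, ∑ j, (if i < j then BB d N β i0 j0 R J j i else 0) =
        ∑ i, ∑ j, (if j < i then BB d N β i0 j0 R J i j else 0) := Finset.sum_comm
    rw [e2, ← Finset.sum_add_distrib]
    refine Finset.sum_le_sum fun i _ => ?_
    rw [← Finset.sum_add_distrib]
    refine Finset.sum_le_sum fun j _ => ?_
    have hB := BB_nonneg (N := N) (i0 := i0) (j0 := j0) (R := R) (J := J) hβ0 i j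
    by_cases hc : i < j
    · rw [if_pos hc, if_neg (not_lt.2 hc.le)]; linarith
    · rw [if_neg hc]
      split_ifs <;> linarith
  rw [sum_BB i0 j0 hij0 R] at h4
  have hA := Ar_nonneg (i0 := i0) (j0 := j0) (R := R)
  have h5 : β * (Ar i0 j0 R / 4 ^ (J + 1)) ≤ Ar i0 j0 R := by
    have h6 : β / 4 ^ (J + 1) ≤ 1 := by
      rw [div_le_one (by positivity)]
      refine hβ'.trans ?_
      exact pow_le_pow_left₀ (by norm_num) (by norm_num) _
    have h7 := mul_le_mul_of_nonneg_right h6 hA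
    rw [one_mul] at h7
    refine le_trans (le_of_eq ?_) h7
    ring
  have h6 : β * (Ar i0 j0 R / 4 ^ (J + 1) + 32 * (J + 2) * Pr i0 j0 R) =
      β * (Ar i0 j0 R / 4 ^ (J + 1)) + 32 * β * (J + 2) * Pr i0 j0 R := by ring
  rw [h6] at h3
  have h7 : (1 + 8 * d * Cg d N * (J + 2) * (2 * J + 3)) * Ar i0 j0 R +
        (32 + 96 * N ^ 2) * β * (J + 2) * Pr i0 j0 R = Ar i0 j0 R +
        8 * d * Cg d N * (J + 2) * (2 * J + 3) * Ar i0 j0 R +
        32 * β * (J + 2) * Pr i0 j0 R + 96 * N ^ 2 * β * (J + 2) * Pr i0 j0 R := by ring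
  rw [h7]
  linarith

end

end Pool.Agent.Q2.TH
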