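import Mathlib
import Pool.Agent.Q2.TH.Cost3

/-!
# 't Hooft loops on the torus
-/

open MeasureTheory Matrix Filter
open scoped Matrix.Norms.Frobenius ContDiff Topology
open Pool.Agent.H906R3.YM hiding Pl
open Pool.Agent.W793.YM Pool.Agent.TH618.YM Pool.Agent.Y14 Pool.Agent.Q204.PL

namespace Pool.Agent.Q2.TH

set_option linter.unusedSectionVars false
set_option linter.unusedVariables false

noncomputable section

variable {G : Type*} [Group G] [TopologicalSpace G] [IsTopologicalGroup G] [CompactSpace G]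
  [SecondCountableTopology G] [MeasurableSpace G] [BorelSpace G]
  (μ : Measure G) [IsProbabilityMeasure μ] [μ.IsMulLeftInvariant] [μ.IsMulRightInvariant]
  [μ.IsInvInvariant] {N n' : ℕ} {L : LD G N n'} {d m : ℕ} [NeZero m] {β : ℝ}
  {i0 j0 : Fin d} {R : Fin d → ℕ} {n ρ J : ℕ} {E : ℝ → G} {x : ℝ}

lemma mp_integral {I : Type*} [Fintype I] {f : (I → G) → (I → G)}
    (hf : MeasurePreserving f (ME μ I) (ME μ I)) {F : (I → G) → ℝ} (hF : Continuous F) :
    ∫ U, F (f U) ∂(ME μ I) = ∫ U, F U ∂(ME μ I) := by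
  conv_rhs => rw [← hf.map_eq]
  rw [integral_map hf.measurable.aemeasurable hF.aestronglyMeasurable]

section swap

variable {l : ℕ} [NeZero l]

/-- the swap of two coordinates of a point -/
def sy (i0 j0 : Fin d) : (Fin d → ZMod l) ≃ (Fin d → ZMod l) where
  toFun y k := y (Equiv.swap i0 j0 k)
  invFun y k := y (Equiv.swap i0 j0 k)
  left_inv y := by funext k; simp
  right_inv y := by funext k; simp

lemma sy_apply (i0 j0 : Fin d) (y : Fin d → ZMod l) (k : Fin d) :
    sy i0 j0 y k = y (Equiv.swap i0 j0 k) := rfl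

/-- the swap of two coordinates as an equivalence of the links -/
def swE (i0 j0 : Fin d) : Ed d l ≃ Ed d l := Equiv.prodCongr (sy i0 j0) (Equiv.swap i0 j0)

/-- the swap of two coordinates of a configuration -/
def swU (i0 j0 : Fin d) (U : Ed d l → G) : Ed d l → G := fun e => U (swE i0 j0 e)

lemma swU_apply (U : Ed d l → G) (y : Fin d → ZMod l) (i : Fin d) :
    swU i0 j0 U (y, i) = U (sy i0 j0 y, Equiv.swap i0 j0 i) := rfl

lemma swU_cont : Continuous (swU i0 j0 : (Ed d l → G) → Ed d l → G) :=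
  continuous_pi fun e => continuous_apply _

lemma swU_mp : MeasurePreserving (swU i0 j0 : (Ed d l → G) → Ed d l → G) (ME μ (Ed d l))
    (ME μ (Ed d l)) := by
  classical
  have h1 := measurePreserving_piCongrLeft (fun _ : Ed d l => μ) (swE i0 j0 : Ed d l ≃ Ed d l).symm
  have h4 : ((MeasurableEquiv.piCongrLeft (fun _ : Ed d l => G)
      (swE i0 j0 : Ed d l ≃ Ed d l).symm) : (Ed d l → G) → Ed d l → G) = swU i0 j0 := by
    funext U e
    have h6 : e = (swE i0 j0).symm (swE i0 j0 e) := ((swE i0 j0).symm_apply_apply e).symm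
    conv_lhs => rw [h6]
    exact Equiv.piCongrLeft_apply_apply (fun _ : Ed d l => G) (swE i0 j0).symm U (swE i0 j0 e)
  rw [h4] at h1
  exact h1

lemma sy_add (y : Fin d → ZMod l) (i : Fin d) :
    sy i0 j0 (y + eT i) = sy i0 j0 y + eT (Equiv.swap i0 j0 i) := by
  funext k
  rw [sy_apply]
  show y (Equiv.swap i0 j0 k) + (eT i : Fin d → ZMod l) (Equiv.swap i0 j0 k) =
    y (Equiv.swap i0 j0 k) + (eT (Equiv.swap i0 j0 i) : Fin d → ZMod l) k
  congr 1
  unfold eT
  by_cases h : Equiv.swap i0 j0 k = i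
  · have h2 : k = Equiv.swap i0 j0 i := by rw [← h]; simp
    rw [h, h2]
    simp
  · have h2 : k ≠ Equiv.swap i0 j0 i := fun h3 => h (by rw [h3]; simp)
    rw [Pi.single_eq_of_ne h, Pi.single_eq_of_ne h2]

lemma plqT_sw (U : Ed d l → G) (y : Fin d → ZMod l) (i j : Fin d) :
    plqT (swU i0 j0 U) y i j =
      plqT U (sy i0 j0 y) (Equiv.swap i0 j0 i) (Equiv.swap i0 j0 j) := by
  unfold plqT
  rw [swU_apply, swU_apply, swU_apply, swU_apply, sy_add, sy_add]

lemma act_sym (U : Ed d l → G) :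
    2 * act L U = ∑ y, ∑ i, ∑ j, we L (plqT U y i j) := by
  have h1 : ∀ y : Fin d → ZMod l, ∑ i, ∑ j, we L (plqT U y i j) =
      2 * ∑ i, ∑ j, if i < j then we L (plqT U y i j) else 0 := by
    intro y
    have h2 : ∀ i j, we L (plqT U y i j) = (if i < j then we L (plqT U y i j) else 0) +
        (if j < i then we L (plqT U y j i) else 0) := by
      intro i j
      rcases lt_trichotomy i j with h | h | h
      · rw [if_pos h, if_neg (not_lt.2 h.le), add_zero]
      · subst h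
        rw [if_neg (lt_irrefl _), add_zero]
        have h3 : plqT U y i i = 1 := by unfold plqT; group
        rw [h3]
        unfold we
        rw [map_one, sub_self]
        simp
      · rw [if_neg (not_lt.2 h.le), if_pos h, zero_add, plqT_swap U y j i]
        exact Pool.Agent.W793.YM.we_inv _
    rw [Finset.sum_congr rfl fun i _ => Finset.sum_congr rfl fun j _ => h2 i j]
    simp only [Finset.sum_add_distrib]
    rw [Finset.sum_comm (f := fun i j => if j < i then we L (plqT U y j i) else 0)]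
    ring
  unfold act
  rw [Finset.mul_sum]
  exact (Finset.sum_congr rfl fun y _ => h1 y).symm

lemma act_sw (U : Ed d l → G) : act L (swU i0 j0 U) = act L U := by
  have h1 := act_sym (L := L) (swU i0 j0 U)
  have h2 := act_sym (L := L) U
  simp only [plqT_sw] at h1
  have h3 : ∑ y, ∑ i, ∑ j, we L (plqT U (sy i0 j0 y) (Equiv.swap i0 j0 i) (Equiv.swap i0 j0 j)) =
      ∑ y, ∑ i, ∑ j, we L (plqT U y i j) := by
    rw [Equiv.sum_comp (sy i0 j0) fun y => ∑ i, ∑ j,
      we L (plqT U y (Equiv.swap i0 j0 i) (Equiv.swap i0 j0 j))]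
    refine Finset.sum_congr rfl fun y _ => ?_
    rw [Equiv.sum_comp (Equiv.swap i0 j0) fun i => ∑ j, we L (plqT U y i (Equiv.swap i0 j0 j))]
    refine Finset.sum_congr rfl fun i _ => ?_
    exact Equiv.sum_comp (Equiv.swap i0 j0) fun j => we L (plqT U y i j)
  rw [h3] at h1
  linarith

/-- the difference of the actions -/
lemma actz_sub (hi0 : i0 < j0) (ζ : G) (U : Ed d l → G) :
    actz L i0 j0 R ζ U - act L U = ∑ y, if twp i0 j0 R (vl y) i0 j0 then
      (we L (ζ * plqT U y i0 j0) - we L (plqT U y i0 j0)) else 0 := by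
  unfold actz act
  rw [← Finset.sum_sub_distrib]
  refine Finset.sum_congr rfl fun y _ => ?_
  rw [← Finset.sum_sub_distrib]
  have h1 : ∀ i j, (if i < j then we L ((if twp i0 j0 R (vl y) i j then ζ else 1) *
      plqT U y i j) else 0) - (if i < j then we L (plqT U y i j) else 0) =
      if i = i0 ∧ j = j0 then (if twp i0 j0 R (vl y) i0 j0 then
        (we L (ζ * plqT U y i0 j0) - we L (plqT U y i0 j0)) else 0) else 0 := by
    intro i j
    by_cases h : i = i0 ∧ j = j0
    · obtain ⟨rfl, rfl⟩ := h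
      rw [if_pos hi0, if_pos hi0, if_pos (⟨rfl, rfl⟩ : i = i ∧ j = j)]
      by_cases h2 : twp i j R (vl y) i j
      · rw [if_pos h2, if_pos h2]
      · rw [if_neg h2, if_neg h2, one_mul, sub_self]
    · rw [if_neg h]
      have h2 : ¬ twp i0 j0 R (vl y) i j := fun h2 => h ⟨h2.1, h2.2.1⟩
      rw [if_neg h2, one_mul, sub_self]
  have h2 : ∀ i, (∑ j, if i < j then we L ((if twp i0 j0 R (vl y) i j then ζ else 1) *
      plqT U y i j) else 0) - (∑ j, if i < j then we L (plqT U y i j) else 0) =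
      ∑ j, if i = i0 ∧ j = j0 then (if twp i0 j0 R (vl y) i0 j0 then
        (we L (ζ * plqT U y i0 j0) - we L (plqT U y i0 j0)) else 0) else 0 := by
    intro i
    rw [← Finset.sum_sub_distrib]
    exact Finset.sum_congr rfl fun j _ => h1 i j
  rw [Finset.sum_congr rfl fun i _ => h2 i]
  rw [Finset.sum_eq_single i0, Finset.sum_eq_single j0]
  · rw [if_pos ⟨rfl, rfl⟩]
  · intro j _ hj
    rw [if_neg fun h => hj h.2]
  · intro h; exact absurd (Finset.mem_univ _) h
  · intro i _ hi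
    refine Finset.sum_eq_zero fun j _ => ?_
    rw [if_neg fun h => hi h.1]
  · intro h; exact absurd (Finset.mem_univ _) h

/-- the 't Hooft operator -/
def TT (L : LD G N n') (β : ℝ) (i0 j0 : Fin d) (R : Fin d → ℕ) (ζ : G) (U : Ed d l → G) : ℝ :=
  Real.exp (-(β * (actz L i0 j0 R ζ U - act L U)))

lemma actz_cont (ζ : G) : Continuous (actz L i0 j0 R ζ : (Ed d l → G) → ℝ) := by
  unfold actz
  refine continuous_finsetSum _ fun y _ => continuous_finsetSum _ fun i _ =>
    continuous_finsetSum _ fun j _ => ?_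
  by_cases h : i < j
  · simp only [if_pos h]
    refine we_cont.comp (continuous_const.mul ?_)
    simp only [plqT_rect]
    exact rect_cont _ _ _ _ _
  · simp only [if_neg h]
    exact continuous_const

lemma TT_cont (ζ : G) : Continuous (TT L β i0 j0 R ζ : (Ed d l → G) → ℝ) :=
  Real.continuous_exp.comp (continuous_const.mul ((actz_cont ζ).sub act_cont)).neg

lemma TT_sw (hi0 : i0 < j0) {ζ : G} (hζ : ∀ g : G, ζ * g = g * ζ) (U : Ed d l → G) :
    TT L β i0 j0 R ζ (swU i0 j0 U) = TT L β i0 j0 R ζ⁻¹ U := by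
  unfold TT
  congr 2
  rw [actz_sub hi0, actz_sub hi0]
  congr 1
  refine Finset.sum_congr rfl fun y _ => ?_
  by_cases h : twp i0 j0 R (vl y) i0 j0
  · rw [if_pos h, if_pos h, plqT_sw, Equiv.swap_apply_left, Equiv.swap_apply_right]
    have h1 : sy i0 j0 y = y := by
      obtain ⟨-, -, -, h2, h3⟩ := h
      have h2' : y i0 = 0 := by rw [← ZMod.val_eq_zero]; exact h2
      have h3' : y j0 = 0 := by rw [← ZMod.val_eq_zero]; exact h3
      funext k
      rw [sy_apply]
      by_cases hk : k = i0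
      · rw [hk, Equiv.swap_apply_left, h2', h3']
      · by_cases hk' : k = j0
        · rw [hk', Equiv.swap_apply_right, h2', h3']
        · rw [Equiv.swap_apply_of_ne_of_ne hk hk']
    rw [h1, plqT_swap U y i0 j0]
    have h2 : we L (ζ * (plqT U y i0 j0)⁻¹) = we L (ζ⁻¹ * plqT U y i0 j0) := by
      rw [← Pool.Agent.W793.YM.we_inv (L := L) (ζ * (plqT U y i0 j0)⁻¹)]
      congr 1
      have h3 := hζ (plqT U y i0 j0)
      rw [_root_.mul_inv_rev, inv_inv]
      calc plqT U y i0 j0 * ζ⁻¹ = ζ⁻¹ * (ζ * plqT U y i0 j0) * ζ⁻¹ := by group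
        _ = ζ⁻¹ * plqT U y i0 j0 := by rw [h3]; group
    rw [h2, Pool.Agent.W793.YM.we_inv]
  · rw [if_neg h, if_neg h]

lemma EX_sw {F : (Ed d l → G) → ℝ} (hF : Continuous F) :
    EX μ L β (fun U => F (swU i0 j0 U)) = EX μ L β F := by
  unfold EX
  congr 1
  unfold Zt
  have h1 := mp_integral μ (swU_mp μ (i0 := i0) (j0 := j0) (l := l) (d := d))
    (F := fun U => F U * Real.exp (-(β * act L U))) (hF.mul (wt_contT β))
  simp only [act_sw] at h1
  exact h1

end swap

section shift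

variable {l : ℕ} [NeZero l]

lemma hh_cont (s : ℝ) (e : Ed d l) : Continuous fun U : Ed d l → G =>
    PP J U e.1 * E (s * al i0 j0 R n (vl e.1) e.2) * (PP J U e.1)⁻¹ :=
  ((PP_cont e.1).mul continuous_const).mul (PP_cont e.1).inv

lemma Sh_cont (s : ℝ) : Continuous (Sh i0 j0 R n J E s : (Ed d l → G) → Ed d l → G) :=
  continuous_pi fun e => (hh_cont s e).mul (continuous_apply e)

lemma Sh_mp (s : ℝ) : MeasurePreserving (Sh i0 j0 R n J E s : (Ed d l → G) → Ed d l → G)
    (ME μ (Ed d l)) (ME μ (Ed d l)) := by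
  classical
  refine mp_tri μ rk (fun (e : Ed d l) (U : Ed d l → G) =>
    PP J U e.1 * E (s * al i0 j0 R n (vl e.1) e.2) * (PP J U e.1)⁻¹)
    (fun e => (hh_cont s e).measurable) (fun e U U' h => ?_)
  have h1 : PP J U e.1 = PP J U' e.1 :=
    fm_congr _ (fun i => ZMod.val_lt _) fun e' he' => h e' he'
  show PP J U e.1 * _ * (PP J U e.1)⁻¹ = PP J U' e.1 * _ * (PP J U' e.1)⁻¹
  rw [h1]

/-- the change of the action -/
def DD (L : LD G N n') (i0 j0 : Fin d) (R : Fin d → ℕ) (n J : ℕ) (E : ℝ → G) (s : ℝ)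
    (U : Ed d l → G) : ℝ := actz L i0 j0 R (E s) (Sh i0 j0 R n J E s U) - act L U

lemma DD_cont (s : ℝ) : Continuous (DD L i0 j0 R n J E s : (Ed d l → G) → ℝ) :=
  ((actz_cont _).comp (Sh_cont s)).sub act_cont

lemma EX_TT (s : ℝ) : EX μ L β (TT L β i0 j0 R (E s) : (Ed d l → G) → ℝ) =
    EX μ L β (fun U : Ed d l → G => Real.exp (-(β * DD L i0 j0 R n J E s U))) := by
  unfold EX
  congr 1
  unfold Zt
  have h1 := mp_integral μ (Sh_mp μ (i0 := i0) (j0 := j0) (R := R) (n := n) (J := J) (E := E)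
    (l := l) (d := d) s) (F := fun U => Real.exp (-(β * actz L i0 j0 R (E s) U)))
    (Real.continuous_exp.comp (continuous_const.mul (actz_cont (E s))).neg)
  have h2 : ∀ U : Ed d l → G, TT L β i0 j0 R (E s) U * Real.exp (-(β * act L U)) =
      Real.exp (-(β * actz L i0 j0 R (E s) U)) := by
    intro U
    unfold TT
    rw [← Real.exp_add]
    congr 1
    ring
  have h3 : ∀ U : Ed d l → G, Real.exp (-(β * DD L i0 j0 R n J E s U)) *
      Real.exp (-(β * act L U)) =
      Real.exp (-(β * actz L i0 j0 R (E s) (Sh i0 j0 R n J E s U))) := by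
    intro U
    unfold DD
    rw [← Real.exp_add]
    congr 1
    ring
  simp only [h2, h3]
  exact h1.symm

/-- Jensen's inequality -/
lemma jensen {F : (Ed d l → G) → ℝ} (hF : Continuous F) :
    Real.exp (EX μ L β F) ≤ EX μ L β fun U => Real.exp (F U) := by
  obtain ⟨c, hc⟩ : ∃ c, c = EX μ L β F := ⟨_, rfl⟩
  rw [← hc]
  have c1 : Continuous fun U : Ed d l → G => Real.exp c * F U := continuous_const.mul hF
  have c2 : Continuous fun _ : Ed d l → G => Real.exp c * (1 - c) := continuous_const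
  have h1 := EX_mono μ (L := L) (β := β) (c1.add c2) (Real.continuous_exp.comp hF) fun U => by
    have h2 := Real.add_one_le_exp (F U - c)
    have h3 : Real.exp (F U) = Real.exp c * Real.exp (F U - c) := by
      rw [← Real.exp_add]; congr 1; ring
    show Real.exp c * F U + Real.exp c * (1 - c) ≤ Real.exp (F U)
    rw [h3]
    have h4 := mul_le_mul_of_nonneg_left h2 (Real.exp_pos c).le
    refine le_trans (le_of_eq ?_) h4
    ring
  have h2 : EX μ L β ((fun U : Ed d l → G => Real.exp c * F U) +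
      fun _ : Ed d l → G => Real.exp c * (1 - c)) = Real.exp c := by
    have h3 := EX_add μ (L := L) (β := β) c1 c2
    rw [EX_smul, EX_const, ← hc] at h3
    have h4 : Real.exp c * c + Real.exp c * (1 - c) = Real.exp c := by ring
    rw [h4] at h3
    exact h3
  rw [h2] at h1
  exact h1

end shift

/-- **The lower bound for the 't Hooft loops on the torus.** -/
theorem EX_TT_ge (h : OneP L E x) (hz : ∀ g : G, E 1 * g = g * E 1)
    (hi0 : i0 < j0) (hm : 2 ^ (J + 1) ≤ m) (hm2 : 2 ≤ m) (hN : 1 ≤ N) (hd : 4 ≤ d)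
    (hβ : (2 : ℝ) ^ J ≤ β) (hβ' : β ≤ 2 ^ (J + 1)) (hR : ∀ k, R k < 2 * m) :
    Real.exp (-(60 * N * (x ^ 2 * ((1 + 8 * d * Cg d N * (J + 2) * (2 * J + 3)) * Ar i0 j0 R +
        (32 + 96 * N ^ 2) * β * (J + 2) * Pr i0 j0 R)))) ≤
      EX μ L β (TT L β i0 j0 R (E 1) : (Ed d (2 * m) → G) → ℝ) := by
  have hβ0 : 0 ≤ β := le_trans (by positivity) hβ
  obtain ⟨W, hW⟩ : ∃ W, W = EX μ L β (TT L β i0 j0 R (E 1) : (Ed d (2 * m) → G) → ℝ) := ⟨_, rfl⟩
  have hW' : EX μ L β (TT L β i0 j0 R (E (-1)) : (Ed d (2 * m) → G) → ℝ) = W := by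
    rw [hW, h.neg, ← EX_sw μ (i0 := i0) (j0 := j0) (TT_cont (E 1))]
    congr 1
    funext U
    exact (TT_sw hi0 hz U).symm
  rw [← hW]
  have c1 : Continuous (DD L i0 j0 R (2 ^ (J + 1)) J E 1 : (Ed d (2 * m) → G) → ℝ) := DD_cont 1
  have c2 : Continuous (DD L i0 j0 R (2 ^ (J + 1)) J E (-1) : (Ed d (2 * m) → G) → ℝ) :=
    DD_cont (-1)
  have h1 : Real.exp (-(β * EX μ L β (DD L i0 j0 R (2 ^ (J + 1)) J E 1 :
      (Ed d (2 * m) → G) → ℝ))) ≤ W := by
    rw [hW, EX_TT μ (n := 2 ^ (J + 1)) (J := J) 1]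
    have h2 := jensen μ (L := L) (β := β) (F := fun U : Ed d (2 * m) → G =>
      -(β * DD L i0 j0 R (2 ^ (J + 1)) J E 1 U)) (continuous_const.mul c1).neg
    rw [EX_neg, EX_smul] at h2
    exact h2
  have h2 : Real.exp (-(β * EX μ L β (DD L i0 j0 R (2 ^ (J + 1)) J E (-1) :
      (Ed d (2 * m) → G) → ℝ))) ≤ W := by
    rw [← hW', EX_TT μ (n := 2 ^ (J + 1)) (J := J) (-1)]
    have h2 := jensen μ (L := L) (β := β) (F := fun U : Ed d (2 * m) → G =>
      -(β * DD L i0 j0 R (2 ^ (J + 1)) J E (-1) U)) (continuous_const.mul c2).neg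
    rw [EX_neg, EX_smul] at h2
    exact h2
  have h3 : EX μ L β (DD L i0 j0 R (2 ^ (J + 1)) J E 1 : (Ed d (2 * m) → G) → ℝ) +
      EX μ L β (DD L i0 j0 R (2 ^ (J + 1)) J E (-1) : (Ed d (2 * m) → G) → ℝ) ≤
      120 * N * x ^ 2 * EX μ L β (QQ L i0 j0 R J : (Ed d (2 * m) → G) → ℝ) := by
    rw [← EX_add μ c1 c2, ← EX_smul]
    refine EX_mono μ (c1.add c2) (continuous_const.mul QQ_cont) fun U => ?_
    have h4 := act_bound h hz hN (i0 := i0) (j0 := j0) (R := R) (n := 2 ^ (J + 1)) (J := J) U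
    refine h4.trans (le_of_eq ?_)
    unfold QQ
    ring
  have h4 := cost μ (L := L) hi0 hm hm2 hN hd hβ hβ' hR
  have h5 : (0 : ℝ) ≤ 120 * N * x ^ 2 := by positivity
  have h6 := mul_le_mul_of_nonneg_left h4 h5
  have h7 := mul_le_mul_of_nonneg_left h3 hβ0
  generalize EX μ L β (DD L i0 j0 R (2 ^ (J + 1)) J E 1 : (Ed d (2 * m) → G) → ℝ) = D1 at *
  generalize EX μ L β (DD L i0 j0 R (2 ^ (J + 1)) J E (-1) : (Ed d (2 * m) → G) → ℝ) = D2 at *
  generalize EX μ L β (QQ L i0 j0 R J : (Ed d (2 * m) → G) → ℝ) = Q at *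
  generalize (1 + 8 * d * Cg d N * (J + 2) * (2 * J + 3)) * Ar i0 j0 R +
        (32 + 96 * (N : ℝ) ^ 2) * β * (J + 2) * Pr i0 j0 R = C at *
  have h8 : β * D1 + β * D2 ≤ 120 * N * x ^ 2 * C := by
    have e1 : β * (120 * N * x ^ 2 * Q) = 120 * N * x ^ 2 * (β * Q) := by ring
    rw [e1] at h7
    have e2 : β * (D1 + D2) = β * D1 + β * D2 := by ring
    rw [e2] at h7
    linarith
  have e3 : 60 * N * (x ^ 2 * C) = 120 * N * x ^ 2 * C / 2 := by ring
  rw [e3]
  rcases le_total (β * D1) (β * D2) with h9 | h9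
  · refine le_trans (Real.exp_le_exp.2 ?_) h1
    linarith
  · refine le_trans (Real.exp_le_exp.2 ?_) h2
    linarith

end

end Pool.Agent.Q2.TH
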